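import Pool.Agent.Helper92.FW.Spn

/-!
# Blocks of windows (theorem FW)

* `wK_blocks` : `K n` independent copies are `K` independent blocks of `n` copies;
* `seen_blk` : `Helper92.FW.seen_chain` for one-point steps, blocks of `n` windows.
-/

set_option autoImplicit false

namespace Pool.Agent.Helper9.ND

open Finset Matrix Pool.Agent.Helper69.RK Pool.Agent.Helper61.GL Pool.Agent.Helper46.WF
  Pool.Agent.Helper58.VW Pool.Agent.Helper9.VB Pool.Agent.Helper92.FW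

variable {Ω V : Type} [Fintype Ω] [Fintype V] {N : ℕ}

/-- the blocks of a tuple -/
def blk {K n : ℕ} {V : Type} (v : Fin (K * n) → V) : Fin K → Fin n → V := fun b j => v (finProdFinEquiv (b, j))

theorem wK_blocks (w : V → ℝ) (K n : ℕ) (P : (Fin K → Fin n → V) → Prop) :
    Pw (wK w (K * n)) (fun v => P (blk v)) = Pw (wK (wK w n) K) P := by
  classical
  unfold Pw
  let e : (Fin (K * n) → V) ≃ (Fin K → Fin n → V) :=
    (Equiv.arrowCongr (finProdFinEquiv (m := K) (n := n)).symm (Equiv.refl V)).trans (Equiv.curry (Fin K) (Fin n) V)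
  refine Fintype.sum_equiv e _ _ fun v => ?_
  have e1 : e v = blk v := rfl
  rw [e1]
  have e2 : wK w (K * n) v = wK (wK w n) K (blk v) := by
    unfold wK blk
    rw [← Fintype.prod_prod_type' (fun b j => w (v (finProdFinEquiv (b, j))))]
    exact (Fintype.prod_equiv finProdFinEquiv _ _ (fun x => rfl)).symm
  rw [e2]

/-- **THE CHAIN SPANS**, one-point steps, blocks of `n` windows -/
theorem seen_blk {γ : Type} (μ : Ω → ℝ) (hμ : ∀ ω, 0 ≤ μ ω) (hm : ∑ ω, μ ω = 1) (g0 : Ω → γ)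
    (w : γ → V → ℝ) (hw : ∀ d v, 0 ≤ w d v) (hw1 : ∀ d, ∑ v, w d v = 1) (n : ℕ) (T : γ → (Fin n → V) → Fin N → ℝ)
    (φ : γ → Fin N → Fin N → ℝ) {c p : ℝ} (hc : 0 < c) (hp : p ≤ 1)
    (K : ℕ) (κ : Fin (K * n) → Type) (G : ∀ i, Ω → κ i) (W : Ω → Fin (K * n) → V) (ε : Fin (K * n) → ℝ)
    (hε : ∀ i, 0 ≤ ε i)
    (hG : ∀ i ω ω', μ ω ≠ 0 → μ ω' ≠ 0 → G i ω = G i ω' → g0 ω = g0 ω' ∧ ∀ j, j < i → W ω j = W ω' j) :
    Pw μ (fun ω => See (T (g0 ω)) (φ (g0 ω)) (wK (w (g0 ω)) n) c p ∧ ¬ Seen (T (g0 ω)) (φ (g0 ω)) c (blk (W ω))) ≤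
      (net N c).card * (1 - p) ^ K +
      ∑ i, (ε i + Pw μ (fun ω => ¬ Cle (cw μ (G i) ω) (fun ω => W ω i) (w (g0 ω)) (ε i))) := by
  classical
  have hq : (0 : ℝ) ≤ (1 - p) ^ K := pow_nonneg (by linarith) K
  have h1 := chain_tv μ hμ hm g0 w hw hw1 (K * n) κ G W ε hε hG
    (fun d v => if See (T d) (φ d) (wK (w d) n) c p ∧ ¬ Seen (T d) (φ d) c (blk v) then 1 else 0) (fun d v => by
      split_ifs <;> norm_num)
  have e1 : Pw μ (fun ω => See (T (g0 ω)) (φ (g0 ω)) (wK (w (g0 ω)) n) c p ∧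
      ¬ Seen (T (g0 ω)) (φ (g0 ω)) c (blk (W ω))) = ∑ ω, μ ω *
        (if See (T (g0 ω)) (φ (g0 ω)) (wK (w (g0 ω)) n) c p ∧ ¬ Seen (T (g0 ω)) (φ (g0 ω)) c (blk (W ω))
          then 1 else 0) := by
    unfold Pw
    refine Finset.sum_congr rfl fun ω _ => ?_
    by_cases h : See (T (g0 ω)) (φ (g0 ω)) (wK (w (g0 ω)) n) c p ∧ ¬ Seen (T (g0 ω)) (φ (g0 ω)) c (blk (W ω))
    · rw [if_pos h, if_pos h, mul_one]
    · rw [if_neg h, if_neg h, mul_zero]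
  rw [e1]
  refine h1.trans (add_le_add ?_ le_rfl)
  have h2 : ∀ ω, μ ω * ∑ v, wK (w (g0 ω)) (K * n) v *
      (if See (T (g0 ω)) (φ (g0 ω)) (wK (w (g0 ω)) n) c p ∧ ¬ Seen (T (g0 ω)) (φ (g0 ω)) c (blk v) then 1 else 0) ≤
      μ ω * ((net N c).card * (1 - p) ^ K) := by
    intro ω
    apply mul_le_mul_of_nonneg_left _ (hμ ω)
    by_cases h : See (T (g0 ω)) (φ (g0 ω)) (wK (w (g0 ω)) n) c p
    · refine le_trans (le_of_eq ?_) (seen_iid (T (g0 ω)) (φ (g0 ω)) (wK (w (g0 ω)) n) (wK_nonneg (hw _) n)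
        (sum_wK (hw1 _) n) hc hp h K)
      rw [← wK_blocks (w (g0 ω)) K n (fun x => ¬ Seen (T (g0 ω)) (φ (g0 ω)) c x)]
      unfold Pw
      refine Finset.sum_congr rfl fun v _ => ?_
      by_cases h3 : Seen (T (g0 ω)) (φ (g0 ω)) c (blk v)
      · rw [if_neg (fun h4 => h4.2 h3), if_neg (not_not.2 h3), mul_zero]
      · rw [if_pos ⟨h, h3⟩, if_pos h3, mul_one]
    · have : ∑ v, wK (w (g0 ω)) (K * n) v *
        (if See (T (g0 ω)) (φ (g0 ω)) (wK (w (g0 ω)) n) c p ∧ ¬ Seen (T (g0 ω)) (φ (g0 ω)) c (blk v)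
          then (1 : ℝ) else 0) = 0 :=
        Finset.sum_eq_zero fun v _ => by rw [if_neg (fun h4 => h h4.1), mul_zero]
      rw [this]
      positivity
  refine (Finset.sum_le_sum fun ω _ => h2 ω).trans (le_of_eq ?_)
  rw [← Finset.sum_mul, hm, one_mul]

end Pool.Agent.Helper9.ND
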