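import Pool.Agent.Helper9.ND.Tub

/-!
# The node (theorem FW, row T2)

`exists_node` : for a node `Nd w T c x0 h n Q` (n = 4 k, k ≥ 16), values `Av : Ω → ℝ^N`, floor `g`, `κ` small, `r`, `Q`
large: there are a frame `F` (visible body), a tube `(a, o)`: the floor is in the body, the deviation
`dev F a o (T ω) (Av ω)` is `≤ 270000` except for a mass `53248 (N + 1) κ`, and every covector is seen by a floor vector or
by the window function `Tht` of eight independent points with probability `≥ κ / (2 ^ 25 (N + 1) n ^ 2)`.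
-/

set_option autoImplicit false

namespace Pool.Agent.Helper9.ND

open Finset Matrix Pool.Agent.Helper46.WF Pool.Agent.Helper58.VW Pool.Agent.Helper9.VB

noncomputable section

variable {Ω : Type} [Fintype Ω] {w : Ω → ℝ} {T : Ω → ℝ} {c : Ω → ℤ} {x0 h : ℝ} {n Q : ℕ} {N : ℕ}

/-- the window of a point -/
def wd (r : ℕ) (F : Matrix (Fin N) (Fin N) ℝ) (a o : Fin N → ℝ) (T : Ω → ℝ) (c : Ω → ℤ) (Av : Ω → Fin N → ℝ) (ω : Ω) :
    ℤ × Rc N r := (c ω, rc r (dev F a o (T ω) (Av ω)))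

/-- `h` times the difference of the slopes of the two quadruples -/
def Dl (h : ℝ) (T : Ω → ℝ) (Av : Ω → Fin N → ℝ) (y : Fin 8 → Ω) : Fin N → ℝ := Sl h T Av (lft y) - Sl h T Av (rgt y)

/-- the law of eight points as a product of two laws of quadruples -/
theorem Pw_eight (w : Ω → ℝ) (P : (Fin 4 → Ω) → (Fin 4 → Ω) → Prop) :
    Pw (wK w 8) (fun y => P (lft y) (rgt y)) = Pw (w2 (wK w 4)) (fun x => P x.1 x.2) := by
  classical
  unfold Pw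
  symm
  refine Fintype.sum_equiv (Fin.appendEquiv (α := Ω) 4 4) _ _ fun x => ?_
  have e1 : lft (Fin.append x.1 x.2) = x.1 := by
    funext i
    exact Fin.append_left x.1 x.2 i
  have e2 : rgt (Fin.append x.1 x.2) = x.2 := by
    funext i
    exact Fin.append_right x.1 x.2 i
  have e3 : w2 (wK w 4) x = wK w 8 (Fin.append x.1 x.2) := by
    show (∏ k, w (x.1 k)) * (∏ k, w (x.2 k)) = ∏ k : Fin (4 + 4), w (Fin.append x.1 x.2 k)
    rw [Fin.prod_univ_add]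
    simp only [Fin.append_left, Fin.append_right]
  show (if P x.1 x.2 then w2 (wK w 4) x else 0) =
    if P (lft (Fin.append x.1 x.2)) (rgt (Fin.append x.1 x.2)) then wK w 8 (Fin.append x.1 x.2) else 0
  rw [e1, e2, e3]

/-- two of the eight points lie in a rare set and both quadruples are small -/
theorem Nd.two8 (hN : Nd w T c x0 h n Q) (P : Ω → Prop) {i j : Fin 8} (hij : i ≠ j) :
    Pw (wK w 8) (fun y => P (y i) ∧ P (y j) ∧ Sm c Q (lft y) ∧ Sm c Q (rgt y)) ≤ (52 / n * Pw w P) ^ 2 := by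
  classical
  have hn0 : (0 : ℝ) < n := by exact_mod_cast hN.hn
  have h0 : 0 ≤ Pw w P := Pw_nonneg w hN.hw P
  have hw4 := wK_nonneg hN.hw 4
  have hsm := hN.sm_le
  have hsm0 := Pw_nonneg _ hw4 (Sm c Q)
  have h52 : (0 : ℝ) ≤ 52 / n := by positivity
  have cross : ∀ i j : Fin 4, Pw (w2 (wK w 4)) (fun x => (P (x.1 i) ∧ Sm c Q x.1) ∧ (P (x.2 j) ∧ Sm c Q x.2)) ≤
      (52 / n * Pw w P) ^ 2 := by
    intro i j
    have e := Pw_w2 (wK w 4) (fun x => P (x i) ∧ Sm c Q x) (fun x => P (x j) ∧ Sm c Q x)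
    refine e.le.trans ?_
    rw [sq]
    exact mul_le_mul (hN.one i P) (hN.one j P) (Pw_nonneg _ hw4 _) (by positivity)
  have same : ∀ i j : Fin 4, i ≠ j → Pw (wK w 4) (fun x => P (x i) ∧ P (x j) ∧ Sm c Q x) * Pw (wK w 4) (Sm c Q) ≤
      (52 / n * Pw w P) ^ 2 := by
    intro i j hij
    calc _ ≤ 52 / n * (Pw w P * Pw w P) * (52 / n) := mul_le_mul (hN.two hij P P) hsm hsm0 (by positivity)
      _ = _ := by ring
  rcases eight_cases i with ⟨i, rfl⟩ | ⟨i, rfl⟩ <;> rcases eight_cases j with ⟨j, rfl⟩ | ⟨j, rfl⟩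
  · have hij' : i ≠ j := fun h => hij (by rw [h])
    have e := Pw_eight w (fun x x' => (P (x i) ∧ P (x j) ∧ Sm c Q x) ∧ Sm c Q x')
    have e2 : Pw (w2 (wK w 4)) (fun x => (P (x.1 i) ∧ P (x.1 j) ∧ Sm c Q x.1) ∧ Sm c Q x.2) =
        Pw (wK w 4) (fun x => P (x i) ∧ P (x j) ∧ Sm c Q x) * Pw (wK w 4) (Sm c Q) :=
      Pw_w2 (wK w 4) (fun x => P (x i) ∧ P (x j) ∧ Sm c Q x) (Sm c Q)
    rw [e2] at e
    refine le_trans (Pw_mono _ (wK_nonneg hN.hw 8) ?_) (e.le.trans (same i j hij'))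
    rintro y _ ⟨a1, a2, a3, a4⟩
    exact ⟨⟨a1, a2, a3⟩, a4⟩
  · have e := Pw_eight w (fun x x' => (P (x i) ∧ Sm c Q x) ∧ (P (x' j) ∧ Sm c Q x'))
    refine le_trans (Pw_mono _ (wK_nonneg hN.hw 8) ?_) (e.le.trans (cross i j))
    rintro y _ ⟨a1, a2, a3, a4⟩
    exact ⟨⟨a1, a3⟩, a2, a4⟩
  · have e := Pw_eight w (fun x x' => (P (x j) ∧ Sm c Q x) ∧ (P (x' i) ∧ Sm c Q x'))
    refine le_trans (Pw_mono _ (wK_nonneg hN.hw 8) ?_) (e.le.trans (cross j i))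
    rintro y _ ⟨a1, a2, a3, a4⟩
    exact ⟨⟨a2, a3⟩, a1, a4⟩
  · have hij' : i ≠ j := fun h => hij (by rw [h])
    have e := Pw_eight w (fun x' x => (P (x i) ∧ P (x j) ∧ Sm c Q x) ∧ Sm c Q x')
    have e2 : Pw (w2 (wK w 4)) (fun x => (P (x.2 i) ∧ P (x.2 j) ∧ Sm c Q x.2) ∧ Sm c Q x.1) =
        Pw (wK w 4) (Sm c Q) * Pw (wK w 4) (fun x => P (x i) ∧ P (x j) ∧ Sm c Q x) := by
      rw [← Pw_w2 (wK w 4) (Sm c Q) (fun x => P (x i) ∧ P (x j) ∧ Sm c Q x)]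
      congr 1
      funext x
      exact propext and_comm
    rw [e2] at e
    refine le_trans (Pw_mono _ (wK_nonneg hN.hw 8) ?_) (e.le.trans ?_)
    · rintro y _ ⟨a1, a2, a3, a4⟩
      exact ⟨⟨a1, a2, a4⟩, a3⟩
    · rw [mul_comm]
      exact same i j hij'

/-- at least two of the eight points lie in a rare set -/
theorem Nd.two8_any (hN : Nd w T c x0 h n Q) (P : Ω → Prop) :
    Pw (wK w 8) (fun y => (∃ i j, i ≠ j ∧ P (y i) ∧ P (y j)) ∧ Sm c Q (lft y) ∧ Sm c Q (rgt y)) ≤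
      64 * (52 / n * Pw w P) ^ 2 := by
  classical
  have h1 : ∀ S : Finset (Fin 8 × Fin 8), (∀ p ∈ S, p.1 ≠ p.2) →
      Pw (wK w 8) (fun y => (∃ p ∈ S, P (y p.1) ∧ P (y p.2)) ∧ Sm c Q (lft y) ∧ Sm c Q (rgt y)) ≤
        S.card * (52 / n * Pw w P) ^ 2 := by
    intro S
    induction S using Finset.induction_on with
    | empty =>
      intro _
      simp [Pw]
    | insert p S hp ih =>
      intro hS
      rw [card_insert_of_notMem hp]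
      have h2 := ih (fun p hp => hS p (mem_insert_of_mem hp))
      have h3 := hN.two8 P (hS p (mem_insert_self p S))
      have h4 : Pw (wK w 8) (fun y => (∃ q ∈ insert p S, P (y q.1) ∧ P (y q.2)) ∧ Sm c Q (lft y) ∧ Sm c Q (rgt y)) ≤
          Pw (wK w 8) (fun y => P (y p.1) ∧ P (y p.2) ∧ Sm c Q (lft y) ∧ Sm c Q (rgt y)) +
          Pw (wK w 8) (fun y => (∃ q ∈ S, P (y q.1) ∧ P (y q.2)) ∧ Sm c Q (lft y) ∧ Sm c Q (rgt y)) := by
        refine le_trans (Pw_mono _ (wK_nonneg hN.hw 8) ?_) (Pw_or _ (wK_nonneg hN.hw 8) _ _)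
        rintro y _ ⟨⟨q, hq, hq1, hq2⟩, hs1, hs2⟩
        rcases mem_insert.mp hq with rfl | hq
        · exact Or.inl ⟨hq1, hq2, hs1, hs2⟩
        · exact Or.inr ⟨⟨q, hq, hq1, hq2⟩, hs1, hs2⟩
      push_cast
      linarith
  have h2 := h1 (univ.filter fun p => p.1 ≠ p.2) (fun p hp => (mem_filter.mp hp).2)
  refine le_trans (Pw_mono _ (wK_nonneg hN.hw 8) ?_) (h2.trans ?_)
  · rintro y _ ⟨⟨i, j, hij, hi, hj⟩, hs⟩
    exact ⟨⟨(i, j), mem_filter.mpr ⟨mem_univ _, hij⟩, hi, hj⟩, hs⟩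
  · refine mul_le_mul_of_nonneg_right ?_ (sq_nonneg _)
    have h3 : (univ.filter fun p : Fin 8 × Fin 8 => p.1 ≠ p.2).card ≤ 64 := by
      refine (card_filter_le _ _).trans ?_
      simp
    exact_mod_cast h3

theorem logb_le_self {N : ℕ} (hN : 0 < N) : Real.logb 2 N ≤ N := by
  have h1 : (0 : ℝ) < N := by exact_mod_cast hN
  rw [Real.logb_le_iff_le_rpow (by norm_num) h1, Real.rpow_natCast]
  exact_mod_cast (Nat.lt_two_pow_self (n := N)).le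

omit [Fintype Ω] in
/-- the frame on the floor -/
theorem floor_norm (F : Matrix (Fin N) (Fin N) ℝ) {g : ℝ} (hg : 0 < g)
    (hfl : ∀ i, ‖F *ᵥ (Pi.single i g : Fin N → ℝ)‖ ≤ 1) (v : Fin N → ℝ) (hv : ‖v‖ ≤ 16) :
    ‖F *ᵥ v‖ ≤ 16 * N / g := by
  have e : v = ∑ i, (v i / g) • (Pi.single i g : Fin N → ℝ) := by
    funext k
    rw [Finset.sum_apply, Finset.sum_eq_single k]
    · rw [Pi.smul_apply, Pi.single_eq_same, smul_eq_mul, div_mul_cancel₀ _ hg.ne']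
    · intro j _ hj
      rw [Pi.smul_apply, Pi.single_eq_of_ne hj.symm, smul_zero]
    · intro hk
      exact absurd (mem_univ k) hk
  conv_lhs => rw [e]
  rw [Matrix.mulVec_sum]
  refine (norm_sum_le _ _).trans ?_
  have h2 : ∀ i ∈ (univ : Finset (Fin N)), ‖F *ᵥ ((v i / g) • (Pi.single i g : Fin N → ℝ))‖ ≤ 16 / g := by
    intro i _
    rw [Matrix.mulVec_smul, norm_smul, norm_div, Real.norm_eq_abs g, abs_of_pos hg]
    calc ‖v i‖ / g * ‖F *ᵥ (Pi.single i g : Fin N → ℝ)‖ ≤ 16 / g * 1 := by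
          refine mul_le_mul ?_ (hfl i) (norm_nonneg _) (by positivity)
          exact div_le_div_of_nonneg_right ((norm_le_pi_norm _ i).trans hv) hg.le
      _ = 16 / g := mul_one _
  refine (Finset.sum_le_sum h2).trans (le_of_eq ?_)
  rw [Finset.sum_const, card_univ, Fintype.card_fin, nsmul_eq_mul]
  ring

/-- if every covector is seen by vectors `F u` with `‖u‖ ≤ 32`, the body is bounded -/
theorem body_bd (hN0 : 0 < N) (F : Matrix (Fin N) (Fin N) ℝ) (hF : F.det ≠ 0) {ι : Type} [Finite ι]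
    (u : ι → Fin N → ℝ) (hu : ∀ j, ‖u j‖ ≤ 32)
    (hsee : ∀ ν : Fin N → ℝ, ∑ i, |ν i| = 1 → ∃ k : ι, 1 / (4 * (N : ℝ)) ≤ |ν ⬝ᵥ (F *ᵥ u k)|) (v : Fin N → ℝ) :
    ‖v‖ ≤ 128 * (N : ℝ) ^ 2 * ‖F *ᵥ v‖ := by
  have hNr : (1 : ℝ) ≤ N := by exact_mod_cast hN0
  obtain ⟨s, -, -, hs⟩ := span_of_seen (fun k : ι => F *ᵥ u k) (c := 1 / (4 * (N : ℝ))) (by positivity) hsee
  obtain ⟨t, ht1, ht2⟩ := hs (F *ᵥ v)
  have h1 : v = ∑ i, t i • u (s i) := by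
    have h2 : F *ᵥ v = F *ᵥ ∑ i, t i • u (s i) := by
      rw [ht2, Matrix.mulVec_sum]
      refine Finset.sum_congr rfl fun i _ => ?_
      rw [Matrix.mulVec_smul]
    have hinj : Function.Injective F.mulVec := Matrix.mulVec_injective_iff_isUnit.mpr
      ((Matrix.isUnit_iff_isUnit_det F).mpr (isUnit_iff_ne_zero.mpr hF))
    exact hinj h2
  calc ‖v‖ = ‖∑ i, t i • u (s i)‖ := by rw [← h1]
    _ ≤ ∑ i, ‖t i • u (s i)‖ := norm_sum_le _ _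
    _ ≤ ∑ _i : Fin N, ‖F *ᵥ v‖ / (1 / (4 * (N : ℝ))) * 32 := by
      refine Finset.sum_le_sum fun i _ => ?_
      rw [norm_smul, Real.norm_eq_abs]
      exact mul_le_mul (ht1 i) (hu _) (norm_nonneg _) (by positivity)
    _ = 128 * (N : ℝ) ^ 2 * ‖F *ᵥ v‖ := by
      rw [Finset.sum_const, card_univ, Fintype.card_fin, nsmul_eq_mul]
      field_simp
      ring

theorem node_bd {Av : Ω → Fin N → ℝ} {g p : ℝ} (hN0 : 0 < N)
    (hSl : ∀ x : Fin 4 → Ω, wK w 4 x ≠ 0 → Sm c Q x → ‖Sl h T Av x‖ ≤ 16) (F : Matrix (Fin N) (Fin N) ℝ)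
    (hF : F.det ≠ 0) (hg : 0 < g) (hg1 : g ≤ 1) (hp : 0 < p)
    (hseen : ∀ ν : Fin N → ℝ, ∑ i, |ν i| = 1 →
      (∃ i, 1 / (4 * N) ≤ |ν ⬝ᵥ (F *ᵥ (Pi.single i g : Fin N → ℝ))|) ∨
      p ≤ Pw (w2 (wK w 4)) (fun x => (Sm c Q x.1 ∧ Sm c Q x.2) ∧
        1 / (4 * N) * max 1 ‖F *ᵥ (Sl h T Av x.1 - Sl h T Av x.2)‖ ≤
          |ν ⬝ᵥ (F *ᵥ (Sl h T Av x.1 - Sl h T Av x.2))|)) (v : Fin N → ℝ) :
    ‖v‖ ≤ 128 * (N : ℝ) ^ 2 * ‖F *ᵥ v‖ := by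
  classical
  let ι := {x : (Fin 4 → Ω) × (Fin 4 → Ω) // w2 (wK w 4) x ≠ 0 ∧ Sm c Q x.1 ∧ Sm c Q x.2} ⊕ Fin N
  let u : ι → Fin N → ℝ := Sum.elim
    (fun x => (1 / max 1 ‖F *ᵥ (Sl h T Av x.1.1 - Sl h T Av x.1.2)‖) • (Sl h T Av x.1.1 - Sl h T Av x.1.2))
    (fun i => Pi.single i g)
  refine body_bd hN0 F hF u ?_ ?_ v
  · rintro (⟨x, hx, hs1, hs2⟩ | i)
    · have h1 : w2 (wK w 4) x = wK w 4 x.1 * wK w 4 x.2 := rfl
      rw [h1] at hx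
      have h2 := hSl x.1 (left_ne_zero_of_mul hx) hs1
      have h3 := hSl x.2 (right_ne_zero_of_mul hx) hs2
      have h4 := norm_sub_le (Sl h T Av x.1) (Sl h T Av x.2)
      show ‖(1 / max 1 ‖F *ᵥ (Sl h T Av x.1 - Sl h T Av x.2)‖) • (Sl h T Av x.1 - Sl h T Av x.2)‖ ≤ 32
      have h5 : (1 : ℝ) ≤ max 1 ‖F *ᵥ (Sl h T Av x.1 - Sl h T Av x.2)‖ := le_max_left _ _
      rw [norm_smul, Real.norm_eq_abs, abs_of_pos (by positivity)]
      have h6 : 1 / max 1 ‖F *ᵥ (Sl h T Av x.1 - Sl h T Av x.2)‖ ≤ 1 := by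
        rw [div_le_one (by positivity)]
        exact h5
      calc _ ≤ 1 * ‖Sl h T Av x.1 - Sl h T Av x.2‖ := mul_le_mul_of_nonneg_right h6 (norm_nonneg _)
        _ ≤ 32 := by linarith
    · show ‖(Pi.single i g : Fin N → ℝ)‖ ≤ 32
      rw [pi_norm_le_iff_of_nonneg (by norm_num)]
      intro k
      rw [Real.norm_eq_abs]
      by_cases hk : k = i
      · subst hk
        rw [Pi.single_eq_same, abs_of_pos hg]
        linarith
      · rw [Pi.single_eq_of_ne hk, abs_zero]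
        norm_num
  · intro ν hν
    rcases hseen ν hν with ⟨i, hi⟩ | h1
    · exact ⟨Sum.inr i, hi⟩
    · obtain ⟨x, hx2, hS, hx1⟩ := Pw_exists _ (lt_of_lt_of_le hp h1)
      refine ⟨Sum.inl ⟨x, hx2, hS.1, hS.2⟩, ?_⟩
      have h3 := (seen_iff ν (F *ᵥ (Sl h T Av x.1 - Sl h T Av x.2)) (1 / (4 * (N : ℝ)))).mpr hx1
      have h4 : tr (F *ᵥ (Sl h T Av x.1 - Sl h T Av x.2)) = F *ᵥ u (Sum.inl ⟨x, hx2, hS.1, hS.2⟩) := by
        show tr (F *ᵥ (Sl h T Av x.1 - Sl h T Av x.2)) =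
          F *ᵥ ((1 / max 1 ‖F *ᵥ (Sl h T Av x.1 - Sl h T Av x.2)‖) • (Sl h T Av x.1 - Sl h T Av x.2))
        rw [Matrix.mulVec_smul]
        rfl
      rw [← h4]
      exact h3

theorem node_o (hN0 : 0 < N) (hN : Nd w T c x0 h n Q) (Av : Ω → Fin N → ℝ) (F : Matrix (Fin N) (Fin N) ℝ)
    (a o : Fin N → ℝ) (hh1 : h ≤ 1)
    (hAv : ∀ ω, w ω ≠ 0 → ‖Av ω‖ ≤ 1) (hT1 : ∀ ω, w ω ≠ 0 → |T ω| ≤ 1)
    (hbd : ∀ v, ‖v‖ ≤ 128 * (N : ℝ) ^ 2 * ‖F *ᵥ v‖) (ha : ‖a‖ ≤ 2 ^ 22 * (N : ℝ) ^ 2 / h)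
    (hout : Pw w (fun ω => 270000 < ‖dev F a o (T ω) (Av ω)‖) < 1) : ‖o‖ ≤ 2 ^ 26 * (N : ℝ) ^ 2 / h := by
  have hNr : (1 : ℝ) ≤ N := by exact_mod_cast hN0
  have hh := hN.hh
  have h4 : 0 < Pw w (fun ω => ¬ (270000 < ‖dev F a o (T ω) (Av ω)‖)) := by
    rw [Pw_compl w hN.hm]
    linarith
  obtain ⟨ω, hω, hin⟩ := Pw_exists w h4
  push Not at hin
  have h5 := hbd (Av ω - T ω • a - o)
  have h6 : ‖Av ω - T ω • a - o‖ ≤ 128 * (N : ℝ) ^ 2 * 270000 :=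
    h5.trans (mul_le_mul_of_nonneg_left hin (by positivity))
  have h7 : ‖o‖ ≤ ‖Av ω‖ + ‖T ω • a‖ + ‖Av ω - T ω • a - o‖ := by
    have e : o = Av ω - T ω • a - (Av ω - T ω • a - o) := by abel
    have h8 := norm_sub_le (Av ω - T ω • a) (Av ω - T ω • a - o)
    have h9 := norm_sub_le (Av ω) (T ω • a)
    rw [← e] at h8
    linarith
  rw [norm_smul, Real.norm_eq_abs] at h7
  have h8 : |T ω| * ‖a‖ ≤ 1 * (2 ^ 22 * (N : ℝ) ^ 2 / h) := mul_le_mul (hT1 ω hω) ha (norm_nonneg _) (by norm_num)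
  have h9 := hAv ω hω
  have h10 : (1 : ℝ) ≤ (N : ℝ) ^ 2 / h := by
    rw [le_div_iff₀ hh]
    have : (1 : ℝ) ≤ (N : ℝ) ^ 2 := one_le_pow₀ hNr
    linarith
  have h11 : (N : ℝ) ^ 2 ≤ (N : ℝ) ^ 2 / h := by
    rw [le_div_iff₀ hh]
    have : (0 : ℝ) ≤ (N : ℝ) ^ 2 := by positivity
    nlinarith
  have h12 : 2 ^ 26 * (N : ℝ) ^ 2 / h = 2 ^ 26 * ((N : ℝ) ^ 2 / h) := by ring
  have h13 : 2 ^ 22 * (N : ℝ) ^ 2 / h = 2 ^ 22 * ((N : ℝ) ^ 2 / h) := by ring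
  rw [h13] at h8
  rw [h12]
  linarith

set_option maxHeartbeats 2000000 in
/-- **THE NODE** -/
theorem exists_node (hN0 : 0 < N) (hN : Nd w T c x0 h n Q) {k : ℕ} (hk : 16 ≤ k) (hn : n = 4 * k)
    (Av : Ω → Fin N → ℝ) {g κ : ℝ} (hg : 0 < g) (hκ : 0 < κ) (hκ1 : 2 ^ 74 * ((N : ℝ) + 1) ^ 3 * (n : ℝ) ^ 4 * κ ≤ 1)
    {r : ℕ} (hr : 300000 * N ^ 2 ≤ r) (hQ : r ^ 3 ≤ Q) (hg1 : g ≤ 1) (hh1 : h ≤ 1)
    (hAv : ∀ ω, w ω ≠ 0 → ‖Av ω‖ ≤ 1) (hT1 : ∀ ω, w ω ≠ 0 → |T ω| ≤ 1) :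
    ∃ (F : Matrix (Fin N) (Fin N) ℝ) (a o : Fin N → ℝ), F.det ≠ 0 ∧
      (∀ i, ‖F *ᵥ (Pi.single i g : Fin N → ℝ)‖ ≤ 1) ∧
      (∀ v, ‖v‖ ≤ 128 * (N : ℝ) ^ 2 * ‖F *ᵥ v‖) ∧ ‖a‖ ≤ 2 ^ 22 * (N : ℝ) ^ 2 / h ∧
      ‖h • (F *ᵥ a)‖ ≤ 19969 + 16 * N / g ∧ ‖o‖ ≤ 2 ^ 26 * (N : ℝ) ^ 2 / h ∧
      Pw w (fun ω => 270000 < ‖dev F a o (T ω) (Av ω)‖) ≤ 53248 * (((N : ℝ) + 1) * κ) ∧
      (∀ y : Fin 8 → Ω, wK w 8 y ≠ 0 → Gdw Q r (fun i => wd r F a o T c Av (y i)) →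
        ‖tr (F *ᵥ Dl h T Av y) - Tht Q r (fun i => wd r F a o T c Av (y i))‖ ≤ 1 / (8 * N * (4 * N + 2))) ∧
      ∀ ν ∈ Sph N, (∃ i, 1 / (8 * (N : ℝ)) ≤ |ν ⬝ᵥ (F *ᵥ (Pi.single i g : Fin N → ℝ))|) ∨
        κ / (2 ^ 25 * ((N : ℝ) + 1) * (n : ℝ) ^ 2) ≤
          Pw (wK w 8) (fun y => 1 / (8 * (N : ℝ)) ≤ |ν ⬝ᵥ Tht Q r (fun i => wd r F a o T c Av (y i))|) := by
  classical
  have hn0 : (0 : ℝ) < n := by exact_mod_cast hN.hn
  have hn64 : (64 : ℝ) ≤ n := by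
    have : 64 ≤ n := by omega
    exact_mod_cast this
  have hNr : (1 : ℝ) ≤ N := by exact_mod_cast hN0
  have hh := hN.hh
  have hN2 : 1 ≤ N ^ 2 := Nat.one_le_pow _ _ hN0
  have hr1 : 2184 ≤ r := by nlinarith
  have hr0 : (0 : ℝ) < r := by
    have : 0 < r := by omega
    exact_mod_cast this
  have hrN : 300000 * (N : ℝ) ^ 2 ≤ r := by exact_mod_cast hr
  have hQ8 : 8 ≤ Q := by
    have : 2184 ≤ r ^ 3 := hr1.trans (Nat.le_self_pow (by norm_num) r)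
    omega
  -- the visible body
  set PS := Pw (wK w 4) (Sm c Q) with hPS
  have hPSlow : 1 / (2048 * (n : ℝ)) ≤ PS := by
    have h1 := hN.sm_low (k := k) (by omega) hn (fun _ => False) (by
      have : Pw w (fun _ => False) = 0 := by simp [Pw]
      rw [this]
      norm_num)
    exact h1.trans (Pw_mono _ (wK_nonneg hN.hw 4) fun x _ hx => hx.1)
  have hPSup : PS ≤ 52 / n := hN.sm_le
  have hPS0 : 0 < PS := lt_of_lt_of_le (by positivity) hPSlow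
  set W : (Fin 4 → Ω) × (Fin 4 → Ω) → ℝ := fun x => if Sm c Q x.1 ∧ Sm c Q x.2 then w2 (wK w 4) x else 0 with hW
  have hW0 : ∀ x, 0 ≤ W x := by
    intro x
    rw [hW]
    simp only
    split_ifs
    · exact w2_nonneg (wK_nonneg hN.hw 4) x
    · exact le_rfl
  obtain ⟨F, hF, hfl, hout, hseen⟩ := vis W hW0 (fun x => Sl h T Av x.1 - Sl h T Av x.2)
    (κ := κ * PS ^ 2) (g := g) (by positivity) hg hN0
  have hWP : ∀ A : (Fin 4 → Ω) × (Fin 4 → Ω) → Prop, ∑ x ∈ univ.filter A, W x =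
      Pw (w2 (wK w 4)) (fun x => (Sm c Q x.1 ∧ Sm c Q x.2) ∧ A x) := by
    intro A
    rw [Finset.sum_filter]
    unfold Pw
    refine Finset.sum_congr rfl fun x _ => ?_
    rw [hW]
    simp only
    by_cases h1 : A x <;> by_cases h2 : Sm c Q x.1 ∧ Sm c Q x.2 <;> simp [h1, h2]
  -- one slope
  obtain ⟨x', hx', hS', hB⟩ := exists_sec (wK w 4) (wK_nonneg hN.hw 4) (Sm c Q) (Sm c Q)
    (fun x => 1 < ‖F *ᵥ (Sl h T Av x.1 - Sl h T Av x.2)‖) ((N + 1) * (κ * PS ^ 2)) PS hPS0 le_rfl (by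
      have := hWP (fun x => 1 < ‖F *ᵥ (Sl h T Av x.1 - Sl h T Av x.2)‖)
      rw [← this]
      refine le_trans (le_of_eq ?_) hout
      congr 1)
  have hδ : Pw (wK w 4) (fun x => Sm c Q x ∧ 1 < ‖F *ᵥ Sl h T Av x - F *ᵥ Sl h T Av x'‖) ≤
      52 / n * (((N : ℝ) + 1) * κ) := by
    have e1 : ((N : ℝ) + 1) * (κ * PS ^ 2) / PS = ((N + 1) * κ) * PS := by
      field_simp
    rw [e1] at hB
    have h2 : ((N + 1 : ℝ) * κ) * PS ≤ ((N + 1) * κ) * (52 / n) := mul_le_mul_of_nonneg_left hPSup (by positivity)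
    refine le_trans (le_of_eq ?_) (hB.trans (h2.trans (le_of_eq (mul_comm _ _))))
    congr 1
    funext x
    rw [Matrix.mulVec_sub]
  have hκ2 : 256 * (n : ℝ) ^ 4 * (53248 * (((N : ℝ) + 1) * κ)) < 1 := by
    have h1 : (1 : ℝ) ≤ ((N : ℝ) + 1) ^ 2 := one_le_pow₀ (by linarith)
    have h2 : 256 * (n : ℝ) ^ 4 * (53248 * (((N : ℝ) + 1) * κ)) ≤
        256 * (n : ℝ) ^ 4 * (53248 * (((N : ℝ) + 1) * κ)) * ((N : ℝ) + 1) ^ 2 :=
      le_mul_of_one_le_right (by positivity) h1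
    have h3 : 256 * (n : ℝ) ^ 4 * (53248 * (((N : ℝ) + 1) * κ)) * ((N : ℝ) + 1) ^ 2 =
        (256 * 53248 / 2 ^ 74) * (2 ^ 74 * ((N : ℝ) + 1) ^ 3 * (n : ℝ) ^ 4 * κ) := by ring
    rw [h3] at h2
    have h4 : (256 * 53248 / 2 ^ 74) * (2 ^ 74 * ((N : ℝ) + 1) ^ 3 * (n : ℝ) ^ 4 * κ) ≤ 256 * 53248 / 2 ^ 74 * 1 :=
      mul_le_mul_of_nonneg_left hκ1 (by norm_num)
    have h5 : (256 * 53248 / 2 ^ 74 * 1 : ℝ) < 1 := by norm_num
    linarith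
  obtain ⟨a, o, hao, hsa⟩ := hN.tube2 hk hn hQ8 Av F (Sl h T Av x') (δ := ((N : ℝ) + 1) * κ) (by positivity) hδ hκ2
  -- sizes
  have hSl : ∀ x : Fin 4 → Ω, wK w 4 x ≠ 0 → Sm c Q x → ‖Sl h T Av x‖ ≤ 16 := by
    intro x hx hS
    obtain ⟨b1, -, -⟩ := sm_coef hh hQ8 x (fun i => hN.cell _ (hN.cells x hx i)) hS
    unfold Sl Yq
    rw [norm_smul, Real.norm_eq_abs]
    calc _ ≤ 4 * (4 * 1) := mul_le_mul b1 (al4_norm _ fun j => hAv _ (hN.cells x hx j)) (norm_nonneg _) (by norm_num)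
      _ = 16 := by norm_num
  have hbd : ∀ v, ‖v‖ ≤ 128 * (N : ℝ) ^ 2 * ‖F *ᵥ v‖ :=
    node_bd hN0 hSl F hF hg hg1 (p := κ * PS ^ 2 / (3 + Real.logb 2 N)) (by
      have := Real.logb_nonneg (b := 2) (by norm_num) hNr
      positivity) (fun ν hν => by
      rcases hseen ν hν with h1 | h1
      · exact Or.inl h1
      · exact Or.inr (h1.trans (hWP _).le))
  have hs16 := hSl x' hx' hS'
  have ha : ‖a‖ ≤ 2 ^ 22 * (N : ℝ) ^ 2 / h := by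
    have h1 := hbd (h • a - Sl h T Av x')
    rw [Matrix.mulVec_sub, Matrix.mulVec_smul] at h1
    have h2 : 128 * (N : ℝ) ^ 2 * ‖h • (F *ᵥ a) - F *ᵥ Sl h T Av x'‖ ≤ 128 * (N : ℝ) ^ 2 * 19969 :=
      mul_le_mul_of_nonneg_left hsa (by positivity)
    have h3 : ‖h • a‖ ≤ ‖h • a - Sl h T Av x'‖ + ‖Sl h T Av x'‖ := by
      have e : h • a = (h • a - Sl h T Av x') + Sl h T Av x' := by abel
      conv_lhs => rw [e]
      exact norm_add_le _ _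
    rw [norm_smul, Real.norm_eq_abs, abs_of_pos hh] at h3
    rw [le_div_iff₀ hh]
    have h4 : (1 : ℝ) ≤ (N : ℝ) ^ 2 := one_le_pow₀ hNr
    nlinarith
  have hFa : ‖h • (F *ᵥ a)‖ ≤ 19969 + 16 * N / g := by
    have h1 := floor_norm F hg hfl (Sl h T Av x') hs16
    have h3 : ‖h • (F *ᵥ a)‖ ≤ ‖h • (F *ᵥ a) - F *ᵥ Sl h T Av x'‖ + ‖F *ᵥ Sl h T Av x'‖ := by
      have e : h • (F *ᵥ a) = (h • (F *ᵥ a) - F *ᵥ Sl h T Av x') + F *ᵥ Sl h T Av x' := by abel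
      conv_lhs => rw [e]
      exact norm_add_le _ _
    linarith
  have hlt : 53248 * (((N : ℝ) + 1) * κ) < 1 := by
    have h1 : (1 : ℝ) ≤ 256 * (n : ℝ) ^ 4 := by
      have : (1 : ℝ) ≤ (n : ℝ) ^ 4 := one_le_pow₀ (by linarith)
      linarith
    have h2 : 53248 * (((N : ℝ) + 1) * κ) * 1 ≤ 53248 * (((N : ℝ) + 1) * κ) * (256 * (n : ℝ) ^ 4) :=
      mul_le_mul_of_nonneg_left h1 (by positivity)
    have h3 : 53248 * (((N : ℝ) + 1) * κ) * (256 * (n : ℝ) ^ 4) =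
      256 * (n : ℝ) ^ 4 * (53248 * (((N : ℝ) + 1) * κ)) := by ring
    linarith
  have ho : ‖o‖ ≤ 2 ^ 26 * (N : ℝ) ^ 2 / h :=
    node_o hN0 hN Av F a o hh1 hAv hT1 hbd ha (lt_of_le_of_lt hao hlt)
  -- the approximation
  have hε : 6000 / (r : ℝ) ≤ 1 / (8 * N * (4 * N + 2)) := by
    rw [div_le_div_iff₀ hr0 (by positivity)]
    nlinarith
  have hε2 : 6000 / (r : ℝ) ≤ 1 / (8 * N) := by
    refine hε.trans ?_
    rw [div_le_div_iff₀ (by positivity) (by positivity)]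
    nlinarith
  have hspec : ∀ y : Fin 8 → Ω, wK w 8 y ≠ 0 → Gdw Q r (fun i => wd r F a o T c Av (y i)) →
        ‖tr (F *ᵥ Dl h T Av y) - Tht Q r (fun i => wd r F a o T c Av (y i))‖ ≤ 6000 / r := by
    intro y hy hG
    have h1 := tht_spec hh hr1 hQ (fun i => T (y i)) (fun i => c (y i)) (fun i => dev F a o (T (y i)) (Av (y i)))
      (fun i => hN.cell _ (hN.cells y hy i)) hG
    have hl : Sm c Q (lft y) := hG.1
    have hrr : Sm c Q (rgt y) := hG.2.1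
    obtain ⟨-, -, b3⟩ := sm_coef hh hQ8 (lft y) (fun i => hN.cell _ (hN.cells y hy _)) hl
    obtain ⟨-, -, b3'⟩ := sm_coef hh hQ8 (rgt y) (fun i => hN.cell _ (hN.cells y hy _)) hrr
    have e1 : F *ᵥ Dl h T Av y = Yq h (lft (fun i => T (y i))) (lft (fun i => dev F a o (T (y i)) (Av (y i)))) -
        Yq h (rgt (fun i => T (y i))) (rgt (fun i => dev F a o (T (y i)) (Av (y i)))) := by
      unfold Dl
      rw [Matrix.mulVec_sub, Sl_dev F a o T Av (lft y) b3, Sl_dev F a o T Av (rgt y) b3']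
      rw [add_sub_add_right_eq_sub]
      rfl
    rw [e1]
    exact h1
  refine ⟨F, a, o, hF, hfl, hbd, ha, hFa, ho, hao, fun y hy hG => (hspec y hy hG).trans hε, ?_⟩
  intro ν hν
  rcases hseen ν hν with ⟨i, hi⟩ | hseen
  · refine Or.inl ⟨i, le_trans ?_ hi⟩
    rw [div_le_div_iff₀ (by positivity) (by positivity)]
    linarith
  refine Or.inr ?_
  -- the seen mass
  set P : Ω → Prop := fun ω => (r : ℝ) < ‖dev F a o (T ω) (Av ω)‖ with hP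
  have hPb : Pw w P ≤ 53248 * (((N : ℝ) + 1) * κ) := by
    refine le_trans (Pw_mono w hN.hw ?_) hao
    intro ω _ hω
    have h1 : (270000 : ℝ) ≤ r := by nlinarith
    exact lt_of_le_of_lt h1 hω
  have h1 : κ * PS ^ 2 / (3 + Real.logb 2 N) ≤
      Pw (wK w 8) (fun y => (Sm c Q (lft y) ∧ Sm c Q (rgt y)) ∧
        1 / (4 * (N : ℝ)) * max 1 ‖F *ᵥ Dl h T Av y‖ ≤ |ν ⬝ᵥ (F *ᵥ Dl h T Av y)|) := by
    refine hseen.trans ?_
    have e1 := Pw_eight w (fun x x' => (Sm c Q x ∧ Sm c Q x') ∧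
      1 / (4 * (N : ℝ)) * max 1 ‖F *ᵥ (Sl h T Av x - Sl h T Av x')‖ ≤ |ν ⬝ᵥ (F *ᵥ (Sl h T Av x - Sl h T Av x'))|)
    have e2 := hWP (fun x => 1 / (4 * (N : ℝ)) * max 1 ‖F *ᵥ (Sl h T Av x.1 - Sl h T Av x.2)‖ ≤
      |ν ⬝ᵥ (F *ᵥ (Sl h T Av x.1 - Sl h T Av x.2))|)
    rw [← e1] at e2
    refine le_trans (le_of_eq ?_) e2.le
    congr 1
  have h2 : Pw (wK w 8) (fun y => (Sm c Q (lft y) ∧ Sm c Q (rgt y)) ∧
        1 / (4 * (N : ℝ)) * max 1 ‖F *ᵥ Dl h T Av y‖ ≤ |ν ⬝ᵥ (F *ᵥ Dl h T Av y)|) ≤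
      Pw (wK w 8) (fun y => 1 / (8 * (N : ℝ)) ≤ |ν ⬝ᵥ Tht Q r (fun i => wd r F a o T c Av (y i))|) +
      Pw (wK w 8) (fun y => (∃ i j, i ≠ j ∧ P (y i) ∧ P (y j)) ∧ Sm c Q (lft y) ∧ Sm c Q (rgt y)) := by
    refine le_trans (Pw_mono _ (wK_nonneg hN.hw 8) ?_) (Pw_or _ (wK_nonneg hN.hw 8) _ _)
    rintro y hy ⟨⟨hs1, hs2⟩, hsee⟩
    by_cases htwo : ∃ i j, i ≠ j ∧ P (y i) ∧ P (y j)
    · exact Or.inr ⟨htwo, hs1, hs2⟩
    refine Or.inl ?_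
    push Not at htwo
    have hG : Gdw Q r (fun i => wd r F a o T c Av (y i)) := by
      refine gdw_of hr1 (fun i => c (y i)) (fun i => dev F a o (T (y i)) (Av (y i))) hs1 hs2 ?_
      intro i j hij
      by_cases hi : P (y i)
      · right
        have := htwo i j hij hi
        rw [hP] at this
        push Not at this
        exact this
      · left
        rw [hP] at hi
        push Not at hi
        exact hi
    have h3 := hspec y hy hG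
    rw [← seen_iff] at hsee
    have h4 := dot_le (y := tr (F *ᵥ Dl h T Av y) - Tht Q r (fun i => wd r F a o T c Av (y i))) hν
    rw [dotProduct_sub] at h4
    have h5 := abs_sub_abs_le_abs_sub (ν ⬝ᵥ tr (F *ᵥ Dl h T Av y)) (ν ⬝ᵥ Tht Q r (fun i => wd r F a o T c Av (y i)))
    have h6 : 1 / (4 * (N : ℝ)) = 1 / (8 * N) + 1 / (8 * N) := by
      field_simp
      norm_num
    show 1 / (8 * (N : ℝ)) ≤ |ν ⬝ᵥ Tht Q r (fun i => wd r F a o T c Av (y i))|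
    linarith
  have h3 := hN.two8_any P
  -- numbers
  have h4 : 64 * (52 / (n : ℝ) * Pw w P) ^ 2 ≤ κ * PS ^ 2 / (2 * (3 + Real.logb 2 N)) := by
    have hL : 3 + Real.logb 2 (N : ℝ) ≤ 4 * ((N : ℝ) + 1) := by
      have := logb_le_self hN0
      linarith
    have hL0 : 0 < 3 + Real.logb 2 (N : ℝ) := by
      have := Real.logb_nonneg (b := 2) (by norm_num) hNr
      linarith
    have a1 : (52 / (n : ℝ) * Pw w P) ^ 2 ≤ (52 / (n : ℝ) * (53248 * (((N : ℝ) + 1) * κ))) ^ 2 := by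
      refine pow_le_pow_left₀ (mul_nonneg (by positivity) (Pw_nonneg w hN.hw P)) ?_ 2
      exact mul_le_mul_of_nonneg_left hPb (by positivity)
    have a2 : (1 / (2048 * (n : ℝ))) ^ 2 ≤ PS ^ 2 := pow_le_pow_left₀ (by positivity) hPSlow 2
    have a3 : κ * (1 / (2048 * (n : ℝ))) ^ 2 / (2 * (4 * ((N : ℝ) + 1))) ≤ κ * PS ^ 2 / (2 * (3 + Real.logb 2 N)) := by
      refine div_le_div₀ (by positivity) (mul_le_mul_of_nonneg_left a2 hκ.le) (by positivity) (by linarith)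
    refine le_trans ?_ a3
    have a4 : 64 * (52 / (n : ℝ) * Pw w P) ^ 2 ≤ 64 * (52 / (n : ℝ) * (53248 * (((N : ℝ) + 1) * κ))) ^ 2 := by
      linarith
    refine a4.trans ?_
    rw [le_div_iff₀ (by positivity)]
    have a5 : 64 * (52 / (n : ℝ) * (53248 * (((N : ℝ) + 1) * κ))) ^ 2 * (2 * (4 * ((N : ℝ) + 1))) =
        (64 * 52 ^ 2 * 53248 ^ 2 * 8 * 2048 ^ 2 / 2 ^ 74) * (2 ^ 74 * ((N : ℝ) + 1) ^ 3 * κ) *
          (κ * (1 / (2048 * (n : ℝ))) ^ 2) := by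
      field_simp
      norm_num
    rw [a5]
    have a6 : (64 * 52 ^ 2 * 53248 ^ 2 * 8 * 2048 ^ 2 / 2 ^ 74 : ℝ) ≤ 1 := by norm_num
    have a7 : 2 ^ 74 * ((N : ℝ) + 1) ^ 3 * κ ≤ 1 := by
      have b1 : (1 : ℝ) ≤ (n : ℝ) ^ 4 := one_le_pow₀ (by linarith)
      have b2 : 2 ^ 74 * ((N : ℝ) + 1) ^ 3 * κ ≤ 2 ^ 74 * ((N : ℝ) + 1) ^ 3 * κ * (n : ℝ) ^ 4 :=
        le_mul_of_one_le_right (by positivity) b1
      have b3 : 2 ^ 74 * ((N : ℝ) + 1) ^ 3 * κ * (n : ℝ) ^ 4 = 2 ^ 74 * ((N : ℝ) + 1) ^ 3 * (n : ℝ) ^ 4 * κ := by ring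
      linarith
    have a8 : (64 * 52 ^ 2 * 53248 ^ 2 * 8 * 2048 ^ 2 / 2 ^ 74 : ℝ) * (2 ^ 74 * ((N : ℝ) + 1) ^ 3 * κ) ≤ 1 := by
      have := mul_le_mul a6 a7 (by positivity) (by norm_num)
      linarith
    calc _ ≤ 1 * (κ * (1 / (2048 * (n : ℝ))) ^ 2) := mul_le_mul_of_nonneg_right a8 (by positivity)
      _ = _ := one_mul _
  have h5 : κ / (2 ^ 25 * ((N : ℝ) + 1) * (n : ℝ) ^ 2) ≤ κ * PS ^ 2 / (2 * (3 + Real.logb 2 N)) := by
    have hL : 3 + Real.logb 2 (N : ℝ) ≤ 4 * ((N : ℝ) + 1) := by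
      have := logb_le_self hN0
      linarith
    have hL0 : 0 < 3 + Real.logb 2 (N : ℝ) := by
      have := Real.logb_nonneg (b := 2) (by norm_num) hNr
      linarith
    have a2 : (1 / (2048 * (n : ℝ))) ^ 2 ≤ PS ^ 2 := pow_le_pow_left₀ (by positivity) hPSlow 2
    have a3 : κ * (1 / (2048 * (n : ℝ))) ^ 2 / (2 * (4 * ((N : ℝ) + 1))) ≤ κ * PS ^ 2 / (2 * (3 + Real.logb 2 N)) := by
      refine div_le_div₀ (by positivity) (mul_le_mul_of_nonneg_left a2 hκ.le) (by positivity) (by linarith)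
    refine le_trans (le_of_eq ?_) a3
    field_simp
    norm_num
  have h6 : κ * PS ^ 2 / (3 + Real.logb 2 N) = κ * PS ^ 2 / (2 * (3 + Real.logb 2 N)) +
      κ * PS ^ 2 / (2 * (3 + Real.logb 2 N)) := by
    have hL0 : 0 < 3 + Real.logb 2 (N : ℝ) := by
      have := Real.logb_nonneg (b := 2) (by norm_num) hNr
      linarith
    field_simp
    norm_num
  linarith

end

end Pool.Agent.Helper9.ND
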