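import Pool.Agent.Helper9.ND.Quad

/-!
# Lower bounds for small quadruples of a node (theorem FW, row T2)

Given the first point (or two first points at distance `≤ 6 h`), three independent points make the quadruple (both
quadruples) small with probability at least `1 / (512 n)`.
-/

set_option autoImplicit false

namespace Pool.Agent.Helper9.ND

open Finset Pool.Agent.Helper46.WF Pool.Agent.Helper58.VW

noncomputable section

variable {Ω : Type} [Fintype Ω] {w : Ω → ℝ} {T : Ω → ℝ} {c : Ω → ℤ} {x0 h : ℝ} {n Q : ℕ}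

/-- the quadruple with first point `ω` -/
def cn (ω : Ω) (y : Fin 3 → Ω) : Fin 4 → Ω := Fin.insertNth (α := fun _ => Ω) (0 : Fin 4) ω y

omit [Fintype Ω] in
theorem cn_zero (ω : Ω) (y : Fin 3 → Ω) : cn ω y 0 = ω := rfl
omit [Fintype Ω] in
theorem cn_one (ω : Ω) (y : Fin 3 → Ω) : cn ω y 1 = y 0 := rfl
omit [Fintype Ω] in
theorem cn_two (ω : Ω) (y : Fin 3 → Ω) : cn ω y 2 = y 1 := rfl
omit [Fintype Ω] in
theorem cn_three (ω : Ω) (y : Fin 3 → Ω) : cn ω y 3 = y 2 := rfl

/-- an interval of blocks -/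
theorem exists_rect {k : ℤ} (hk : 8 ≤ k) (b j : ℤ) (hb0 : 0 ≤ b) (hb1 : b < 4 * k) (hj : |j| ≤ 3) :
    ∃ s : ℤ, 0 ≤ s ∧ s + (k - 4) ≤ 4 * k ∧ ∀ u v : ℤ, s ≤ u → u < s + (k - 4) → s ≤ v → v < s + (k - 4) →
      0 ≤ u + v - b + j ∧ u + v - b + j < 4 * k := by
  rw [abs_le] at hj
  by_cases h2 : b < 2 * k
  · refine ⟨k + 2, by linarith, by linarith, ?_⟩
    intro u v h3 h4 h5 h6
    constructor <;> linarith
  · push Not at h2
    refine ⟨2 * k + 2, by linarith, by linarith, ?_⟩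
    intro u v h3 h4 h5 h6
    constructor <;> linarith

theorem Nd.rect (hN : Nd w T c x0 h n Q) {k : ℕ} (hk : 8 ≤ k) (hn : n = 4 * k) (b j : ℤ) (hb0 : 0 ≤ b)
    (hb1 : b < n) (hj : |j| ≤ 3) :
    1 / (512 * (n : ℝ)) ≤ Pw (wK w 3) (fun y => b - c (y 0) / Q + c (y 1) / Q - c (y 2) / Q = j) := by
  classical
  obtain ⟨s, hs0, hs1, hs⟩ := exists_rect (k := (k : ℤ)) (by exact_mod_cast hk) b j hb0
    (by rw [hn] at hb1; push_cast at hb1; exact hb1) hj
  set I : Finset ℤ := Finset.Ico s (s + (k - 4)) with hI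
  have hcard : (I.card : ℝ) = k - 4 := by
    rw [hI, Int.card_Ico]
    have : (s + ((k : ℤ) - 4) - s).toNat = k - 4 := by omega
    rw [this]
    have : 4 ≤ k := by omega
    push_cast [Nat.cast_sub this]
    ring
  set f : ℤ → Ω → ℝ := fun i ω => if c ω / (Q : ℤ) = i then 1 else 0 with hf
  have hPf : ∀ i, ∑ ω, w ω * f i ω = Pw w (fun ω => c ω / (Q : ℤ) = i) := by
    intro i
    unfold Pw
    refine Finset.sum_congr rfl fun ω _ => ?_
    rw [hf]
    simp only
    split_ifs <;> simp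
  have h1 : ∀ u ∈ I, ∀ v ∈ I, (1 / (2 * (n : ℝ))) ^ 3 ≤
      ∑ y : Fin 3 → Ω, wK w 3 y * ∏ l, (![f u, f (u + v - b + j), f v] : Fin 3 → Ω → ℝ) l (y l) := by
    intro u hu v hv
    rw [hI, mem_Ico] at hu hv
    rw [sum_wK_prod w 3 (![f u, f (u + v - b + j), f v] : Fin 3 → Ω → ℝ), Fin.prod_univ_three]
    simp only [Matrix.cons_val_zero, Matrix.cons_val_one, Matrix.cons_val_two, Matrix.head_cons, Matrix.tail_cons]
    obtain ⟨h3, h4⟩ := hs u v hu.1 hu.2 hv.1 hv.2
    have hnk : (n : ℤ) = 4 * k := by exact_mod_cast hn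
    have e1 := hN.lo u (by linarith [hu.1]) (by linarith [hu.2])
    have e2 := hN.lo (u + v - b + j) h3 (by linarith)
    have e3 := hN.lo v (by linarith [hv.1]) (by linarith [hv.2])
    rw [← hPf] at e1 e2 e3
    have hp : (0 : ℝ) ≤ 1 / (2 * (n : ℝ)) := by positivity
    calc (1 / (2 * (n : ℝ))) ^ 3 = 1 / (2 * (n : ℝ)) * (1 / (2 * (n : ℝ))) * (1 / (2 * (n : ℝ))) := by ring
      _ ≤ _ := by
        refine mul_le_mul (mul_le_mul e1 e2 hp (le_trans hp e1)) e3 hp ?_
        exact mul_nonneg (le_trans hp e1) (le_trans hp e2)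
  have h2 : ∑ u ∈ I, ∑ v ∈ I, (1 / (2 * (n : ℝ))) ^ 3 ≤
      Pw (wK w 3) (fun y => b - c (y 0) / Q + c (y 1) / Q - c (y 2) / Q = j) := by
    refine (Finset.sum_le_sum fun u hu => Finset.sum_le_sum fun v hv => h1 u hu v hv).trans ?_
    have e1 : ∑ u ∈ I, ∑ v ∈ I, ∑ y : Fin 3 → Ω, wK w 3 y *
        ∏ l, (![f u, f (u + v - b + j), f v] : Fin 3 → Ω → ℝ) l (y l) =
        ∑ y : Fin 3 → Ω, wK w 3 y * ∑ u ∈ I, ∑ v ∈ I,
          ∏ l, (![f u, f (u + v - b + j), f v] : Fin 3 → Ω → ℝ) l (y l) := by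
      rw [Finset.sum_congr rfl fun u _ => Finset.sum_comm, Finset.sum_comm]
      refine Finset.sum_congr rfl fun y _ => ?_
      rw [Finset.mul_sum]
      refine Finset.sum_congr rfl fun u _ => ?_
      rw [Finset.mul_sum]
    rw [e1]
    unfold Pw
    refine Finset.sum_le_sum fun y _ => ?_
    have e2 : ∑ u ∈ I, ∑ v ∈ I, ∏ l, (![f u, f (u + v - b + j), f v] : Fin 3 → Ω → ℝ) l (y l) ≤
        if b - c (y 0) / Q + c (y 1) / Q - c (y 2) / Q = j then 1 else 0 := by
      simp only [Fin.prod_univ_three, Matrix.cons_val_zero, Matrix.cons_val_one, Matrix.cons_val_two,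
        Matrix.head_cons, Matrix.tail_cons]
      have e3 : ∀ u ∈ I, ∑ v ∈ I, f u (y 0) * f (u + v - b + j) (y 1) * f v (y 2) ≤
          f u (y 0) * (if b - c (y 0) / Q + c (y 1) / Q - c (y 2) / Q = j then 1 else 0) := by
        intro u _
        by_cases hu : c (y 0) / (Q : ℤ) = u
        · have : f u (y 0) = 1 := by
            rw [hf]
            exact if_pos hu
          rw [this, one_mul]
          simp only [one_mul]
          have e4 : ∀ v ∈ I, f (u + v - b + j) (y 1) * f v (y 2) ≤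
              (if c (y 2) / (Q : ℤ) = v then 1 else 0) *
                (if b - c (y 0) / Q + c (y 1) / Q - c (y 2) / Q = j then 1 else 0) := by
            intro v _
            rw [hf]
            simp only
            by_cases hv : c (y 2) / (Q : ℤ) = v
            · rw [if_pos hv, mul_one, one_mul]
              by_cases hz : c (y 1) / (Q : ℤ) = u + v - b + j
              · rw [if_pos hz, if_pos]
                rw [hu, hv, hz]
                ring
              · rw [if_neg hz]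
                split_ifs <;> norm_num
            · rw [if_neg hv, mul_zero, zero_mul]
          refine (Finset.sum_le_sum e4).trans ?_
          rw [← Finset.sum_mul]
          have e5 : ∑ v ∈ I, (if c (y 2) / (Q : ℤ) = v then (1 : ℝ) else 0) ≤ 1 := by
            rw [Finset.sum_ite_eq]
            split_ifs <;> norm_num
          have e6 : (0 : ℝ) ≤ (if b - c (y 0) / Q + c (y 1) / Q - c (y 2) / Q = j then 1 else 0) := by
            split_ifs <;> norm_num
          nlinarith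
        · have : f u (y 0) = 0 := by
            rw [hf]
            exact if_neg hu
          rw [this]
          simp
      refine (Finset.sum_le_sum e3).trans ?_
      rw [← Finset.sum_mul]
      have e5 : ∑ u ∈ I, f u (y 0) ≤ 1 := by
        rw [hf]
        simp only
        rw [Finset.sum_ite_eq]
        split_ifs <;> norm_num
      have e6 : (0 : ℝ) ≤ (if b - c (y 0) / Q + c (y 1) / Q - c (y 2) / Q = j then 1 else 0) := by
        split_ifs <;> norm_num
      nlinarith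
    have e7 := mul_le_mul_of_nonneg_left e2 (wK_nonneg hN.hw 3 y)
    refine e7.trans (le_of_eq ?_)
    split_ifs <;> simp
  refine le_trans ?_ h2
  rw [Finset.sum_const, Finset.sum_const, nsmul_eq_mul, nsmul_eq_mul, hcard]
  have hk' : (8 : ℝ) ≤ k := by exact_mod_cast hk
  have hn' : (n : ℝ) = 4 * k := by exact_mod_cast hn
  rw [hn']
  have hk0 : (0 : ℝ) < k := by linarith
  rw [div_le_iff₀ (by positivity)]
  have : ((k : ℝ) - 4) * (((k : ℝ) - 4) * (1 / (2 * (4 * (k : ℝ)))) ^ 3) * (512 * (4 * (k : ℝ))) =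
      4 * (((k : ℝ) - 4) / k) ^ 2 := by
    field_simp
    ring
  rw [this]
  have h5 : (1 : ℝ) / 2 ≤ ((k : ℝ) - 4) / k := by
    rw [div_le_div_iff₀ (by norm_num) hk0]
    linarith
  nlinarith

/-- two first points at distance `≤ 6 h` -/
theorem Nd.low_two (hN : Nd w T c x0 h n Q) {k : ℕ} (hk : 8 ≤ k) (hn : n = 4 * k) (ω ω' : Ω) (hω : w ω ≠ 0)
    (hd : |c ω - c ω'| ≤ 6 * Q) :
    1 / (512 * (n : ℝ)) ≤ Pw (wK w 3) (fun y => Sm c Q (cn ω y) ∧ Sm c Q (cn ω' y)) := by
  have hQ : (0 : ℤ) < Q := by exact_mod_cast hN.hQ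
  obtain ⟨hr0, hr1⟩ := hN.rg ω hω
  have hb0 : 0 ≤ c ω / (Q : ℤ) := Int.ediv_nonneg hr0 hQ.le
  have hb1 : c ω / (Q : ℤ) < n := Int.ediv_lt_of_lt_mul hQ hr1
  rw [abs_le] at hd
  have key : ∀ j : ℤ, |j| ≤ 3 → (∀ y : Fin 3 → Ω, c ω / Q - c (y 0) / Q + c (y 1) / Q - c (y 2) / Q = j →
      Sm c Q (cn ω y) ∧ Sm c Q (cn ω' y)) →
      1 / (512 * (n : ℝ)) ≤ Pw (wK w 3) (fun y => Sm c Q (cn ω y) ∧ Sm c Q (cn ω' y)) := by
    intro j hj hy
    refine (hN.rect hk hn (c ω / Q) j hb0 hb1 hj).trans ?_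
    exact Pw_mono _ (wK_nonneg hN.hw 3) fun y _ h => hy y h
  have hmod : ∀ ω : Ω, (Q : ℤ) * (c ω / Q) ≤ c ω ∧ c ω < Q * (c ω / Q) + Q := by
    intro ω
    have h1 := Int.mul_ediv_self_le (x := c ω) (k := (Q : ℤ)) hQ.ne'
    have h2 := Int.lt_mul_ediv_self_add (x := c ω) (k := (Q : ℤ)) hQ
    exact ⟨h1, h2⟩
  by_cases hc : c ω ≤ c ω'
  · refine key 3 (by norm_num) ?_
    intro y hy
    have a0 := hmod ω
    have a1 := hmod (y 0)
    have a2 := hmod (y 1)
    have a3 := hmod (y 2)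
    have e : (Q : ℤ) * (c ω / Q) - Q * (c (y 0) / Q) + Q * (c (y 1) / Q) - Q * (c (y 2) / Q) = 3 * Q := by
      rw [← mul_sub, ← mul_add, ← mul_sub, hy]
      ring
    have b1 : (Q : ℤ) < c ω - c (y 0) + c (y 1) - c (y 2) := by linarith [a0.1, a1.2, a2.1, a3.2]
    have b2 : c ω - c (y 0) + c (y 1) - c (y 2) < 5 * Q := by linarith [a0.2, a1.1, a2.2, a3.1]
    constructor
    · show (Q : ℤ) ≤ 2 * |c ω - c (y 0) + c (y 1) - c (y 2)| ∧ |c ω - c (y 0) + c (y 1) - c (y 2)| ≤ 12 * Q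
      rw [abs_of_pos (by linarith)]
      constructor <;> linarith
    · show (Q : ℤ) ≤ 2 * |c ω' - c (y 0) + c (y 1) - c (y 2)| ∧ |c ω' - c (y 0) + c (y 1) - c (y 2)| ≤ 12 * Q
      rw [abs_of_pos (by linarith)]
      constructor <;> linarith
  · push Not at hc
    refine key (-3) (by norm_num) ?_
    intro y hy
    have a0 := hmod ω
    have a1 := hmod (y 0)
    have a2 := hmod (y 1)
    have a3 := hmod (y 2)
    have e : (Q : ℤ) * (c ω / Q) - Q * (c (y 0) / Q) + Q * (c (y 1) / Q) - Q * (c (y 2) / Q) = -3 * Q := by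
      rw [← mul_sub, ← mul_add, ← mul_sub, hy]
      ring
    have b1 : -(5 * (Q : ℤ)) < c ω - c (y 0) + c (y 1) - c (y 2) := by linarith [a0.1, a1.2, a2.1, a3.2]
    have b2 : c ω - c (y 0) + c (y 1) - c (y 2) < -(Q : ℤ) := by linarith [a0.2, a1.1, a2.2, a3.1]
    constructor
    · show (Q : ℤ) ≤ 2 * |c ω - c (y 0) + c (y 1) - c (y 2)| ∧ |c ω - c (y 0) + c (y 1) - c (y 2)| ≤ 12 * Q
      rw [abs_of_neg (by linarith)]
      constructor <;> linarith
    · show (Q : ℤ) ≤ 2 * |c ω' - c (y 0) + c (y 1) - c (y 2)| ∧ |c ω' - c (y 0) + c (y 1) - c (y 2)| ≤ 12 * Q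
      rw [abs_of_neg (by linarith)]
      constructor <;> linarith

/-- one first point -/
theorem Nd.low_one (hN : Nd w T c x0 h n Q) {k : ℕ} (hk : 8 ≤ k) (hn : n = 4 * k) (ω : Ω) (hω : w ω ≠ 0) :
    1 / (512 * (n : ℝ)) ≤ Pw (wK w 3) (fun y => Sm c Q (cn ω y)) := by
  refine (hN.low_two hk hn ω ω hω (by simp)).trans ?_
  exact Pw_mono _ (wK_nonneg hN.hw 3) fun y _ h => h.1

/-- one first point, the three others avoid a rare set -/
theorem Nd.low_tube (hN : Nd w T c x0 h n Q) {k : ℕ} (hk : 8 ≤ k) (hn : n = 4 * k) (ω : Ω) (hω : w ω ≠ 0)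
    (B : Ω → Prop) (hB : Pw w B ≤ 1 / 159744) :
    1 / (1024 * (n : ℝ)) ≤ Pw (wK w 3) (fun y => Sm c Q (cn ω y) ∧ ∀ i, ¬ B (y i)) := by
  classical
  have hn0 : (0 : ℝ) < n := by exact_mod_cast hN.hn
  have h1 := hN.low_one hk hn ω hω
  -- one bad coordinate
  have h2 : ∀ i : Fin 3, Pw (wK w 3) (fun y => B (y i) ∧ Sm c Q (cn ω y)) ≤ 52 / n * Pw w B := by
    intro i
    obtain ⟨k', hk'⟩ : ∃ k' : Fin 3, i ≠ k' := by
      revert i
      decide
    have h3 := two_events (K := 2) w hN.hw hN.hm (i := i) (j := i) (k := k')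
    -- use the resampling formula directly
    have e1 : Pw (wK w 3) (fun y => B (y i) ∧ Sm c Q (cn ω y)) =
        ∑ y : Fin 3 → Ω, wK w 3 y * (if B (y i) ∧ Sm c Q (cn ω y) then 1 else 0) := by
      unfold Pw
      refine Finset.sum_congr rfl fun y _ => ?_
      split_ifs <;> simp
    rw [e1, sum_wK_resample (K := 2) w _ k']
    obtain ⟨i', hi'⟩ := Fin.exists_succAbove_eq hk'
    have e2 : ∀ (x : Fin 2 → Ω) (ω1 : Ω), (k'.insertNth (α := fun _ => Ω) ω1 x) i = x i' := by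
      intro x ω1
      rw [← hi', Fin.insertNth_apply_succAbove]
    have e3 : ∀ x : Fin 2 → Ω, Pw w (fun ω1 => Sm c Q (cn ω (k'.insertNth (α := fun _ => Ω) ω1 x))) ≤ 52 / n := by
      intro x
      have e4 := hN.section_le k'.succ (Fin.insertNth (α := fun _ => Ω) (0 : Fin 3) ω x)
      refine le_trans (le_of_eq ?_) e4
      congr 1
      funext ω1
      congr 1
      funext l
      fin_cases k' <;> fin_cases l <;> rfl
    have e5 : ∀ x : Fin 2 → Ω, wK w 2 x * ∑ ω1, w ω1 * (if B ((k'.insertNth (α := fun _ => Ω) ω1 x) i) ∧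
        Sm c Q (cn ω (k'.insertNth (α := fun _ => Ω) ω1 x)) then 1 else 0) ≤
        52 / n * (wK w 2 x * (if B (x i') then 1 else 0)) := by
      intro x
      simp only [e2]
      by_cases hb : B (x i')
      · simp only [hb, true_and, if_true, mul_one]
        rw [mul_comm (52 / (n : ℝ))]
        refine mul_le_mul_of_nonneg_left ?_ (wK_nonneg hN.hw _ _)
        refine le_trans (le_of_eq ?_) (e3 x)
        unfold Pw
        refine Finset.sum_congr rfl fun ω1 _ => ?_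
        split_ifs <;> simp
      · simp [hb]
    refine (Finset.sum_le_sum fun x _ => e5 x).trans ?_
    rw [← Finset.mul_sum, sum_wK_one w hN.hm 2 i' (fun ω1 => if B ω1 then 1 else 0)]
    refine mul_le_mul_of_nonneg_left (le_of_eq ?_) (by positivity)
    unfold Pw
    refine Finset.sum_congr rfl fun ω1 _ => ?_
    split_ifs <;> simp
  have h3 : Pw (wK w 3) (fun y => Sm c Q (cn ω y)) ≤
      Pw (wK w 3) (fun y => Sm c Q (cn ω y) ∧ ∀ i, ¬ B (y i)) +
      (Pw (wK w 3) (fun y => B (y 0) ∧ Sm c Q (cn ω y)) + (Pw (wK w 3) (fun y => B (y 1) ∧ Sm c Q (cn ω y)) +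
        Pw (wK w 3) (fun y => B (y 2) ∧ Sm c Q (cn ω y)))) := by
    refine le_trans (Pw_mono _ (wK_nonneg hN.hw 3) (B := fun y => (Sm c Q (cn ω y) ∧ ∀ i, ¬ B (y i)) ∨
      ((B (y 0) ∧ Sm c Q (cn ω y)) ∨ ((B (y 1) ∧ Sm c Q (cn ω y)) ∨ (B (y 2) ∧ Sm c Q (cn ω y))))) ?_) ?_
    · intro y _ hy
      by_cases h0 : B (y 0)
      · exact Or.inr (Or.inl ⟨h0, hy⟩)
      by_cases h1 : B (y 1)
      · exact Or.inr (Or.inr (Or.inl ⟨h1, hy⟩))
      by_cases h2 : B (y 2)
      · exact Or.inr (Or.inr (Or.inr ⟨h2, hy⟩))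
      refine Or.inl ⟨hy, ?_⟩
      intro i
      fin_cases i
      · exact h0
      · exact h1
      · exact h2
    · refine (Pw_or _ (wK_nonneg hN.hw 3) _ _).trans ?_
      refine add_le_add le_rfl ?_
      refine (Pw_or _ (wK_nonneg hN.hw 3) _ _).trans ?_
      exact add_le_add le_rfl (Pw_or _ (wK_nonneg hN.hw 3) _ _)
  have h4 := h2 0
  have h5 := h2 1
  have h6 := h2 2
  have h7 : 52 / (n : ℝ) * Pw w B ≤ 52 / n * (1 / 159744) := mul_le_mul_of_nonneg_left hB (by positivity)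
  have h8 : (1 : ℝ) / (1024 * n) = 1 / (512 * n) - 3 * (52 / n * (1 / 159744)) := by
    field_simp
    norm_num
  rw [h8]
  linarith

/-- the probability of a small quadruple -/
theorem Nd.sm_low (hN : Nd w T c x0 h n Q) {k : ℕ} (hk : 8 ≤ k) (hn : n = 4 * k) (B : Ω → Prop)
    (hB : Pw w B ≤ 1 / 159744) :
    1 / (2048 * (n : ℝ)) ≤ Pw (wK w 4) (fun x => Sm c Q x ∧ ∀ i, ¬ B (x i)) := by
  classical
  have hn0 : (0 : ℝ) < n := by exact_mod_cast hN.hn
  have e1 : Pw (wK w 4) (fun x => Sm c Q x ∧ ∀ i, ¬ B (x i)) =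
      ∑ y : Fin 4 → Ω, wK w 4 y * (if Sm c Q y ∧ ∀ i, ¬ B (y i) then 1 else 0) := by
    unfold Pw
    refine Finset.sum_congr rfl fun y _ => ?_
    split_ifs <;> simp
  have e2 : ∑ y : Fin 4 → Ω, wK w 4 y * (if Sm c Q y ∧ ∀ i, ¬ B (y i) then 1 else 0) =
      ∑ ω, w ω * ∑ x : Fin 3 → Ω, wK w 3 x * (if Sm c Q (cn ω x) ∧ ∀ i, ¬ B (cn ω x i) then 1 else 0) := by
    rw [sum_wK_resample (K := 3) w (fun y => if Sm c Q y ∧ ∀ i, ¬ B (y i) then 1 else 0) 0]
    simp only [Finset.mul_sum]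
    rw [Finset.sum_comm]
    refine Finset.sum_congr rfl fun ω _ => Finset.sum_congr rfl fun x _ => ?_
    exact mul_left_comm _ _ _
  rw [e1, e2]
  have h1 : ∀ ω, w ω * ((if B ω then 0 else 1) * (1 / (1024 * (n : ℝ)))) ≤
      w ω * ∑ x : Fin 3 → Ω, wK w 3 x * (if Sm c Q (cn ω x) ∧ ∀ i, ¬ B (cn ω x i) then 1 else 0) := by
    intro ω
    by_cases h0 : w ω = 0
    · simp [h0]
    refine mul_le_mul_of_nonneg_left ?_ (hN.hw ω)
    by_cases hb : B ω
    · rw [if_pos hb, zero_mul]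
      refine Finset.sum_nonneg fun x _ => mul_nonneg (wK_nonneg hN.hw _ _) ?_
      split_ifs <;> norm_num
    · rw [if_neg hb, one_mul]
      refine (hN.low_tube hk hn ω h0 B hB).trans (le_of_eq ?_)
      unfold Pw
      refine Finset.sum_congr rfl fun x _ => ?_
      have e3 : (Sm c Q (cn ω x) ∧ ∀ i, ¬ B (x i)) ↔ (Sm c Q (cn ω x) ∧ ∀ i, ¬ B (cn ω x i)) := by
        constructor
        · rintro ⟨a, b⟩
          refine ⟨a, ?_⟩
          intro i
          fin_cases i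
          · exact hb
          · exact b 0
          · exact b 1
          · exact b 2
        · rintro ⟨a, b⟩
          refine ⟨a, ?_⟩
          intro i
          fin_cases i
          · exact b 1
          · exact b 2
          · exact b 3
      by_cases hs : Sm c Q (cn ω x) ∧ ∀ i, ¬ B (x i)
      · rw [if_pos hs, if_pos (e3.mp hs), mul_one]
      · rw [if_neg hs, if_neg (fun h => hs (e3.mpr h)), mul_zero]
  refine le_trans ?_ (Finset.sum_le_sum fun ω _ => h1 ω)
  have e4 : ∑ ω, w ω * ((if B ω then 0 else 1) * (1 / (1024 * (n : ℝ)))) =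
      (1 - Pw w B) * (1 / (1024 * (n : ℝ))) := by
    simp only [← mul_assoc]
    rw [← Finset.sum_mul]
    congr 1
    have e5 : ∑ ω, w ω * (if B ω then (0 : ℝ) else 1) = ∑ ω, w ω - Pw w B := by
      unfold Pw
      rw [← Finset.sum_sub_distrib]
      refine Finset.sum_congr rfl fun ω _ => ?_
      by_cases hb : B ω <;> simp [hb]
    rw [e5, hN.hm]
  rw [e4]
  have h9 : (1 : ℝ) / (2048 * n) = 1 / 2 * (1 / (1024 * n)) := by
    field_simp
    norm_num
  rw [h9]
  refine mul_le_mul_of_nonneg_right ?_ (by positivity)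
  have : (1 : ℝ) / 159744 ≤ 1 / 2 := by norm_num
  linarith

end

end Pool.Agent.Helper9.ND
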