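import Pool.Agent.Helper58.VW.Exch
import Pool.Agent.Helper58.VW.LemA

/-!
# Quadruples of a node (theorem FW, row T2)

`Fin 4 → Ω` with the product law `wK w 4`; signs `+ - + -`.  A small quadruple has `h / 2 ≤ |η| ≤ 12 h` (η computed from
the rounded values).  Upper bounds: given all points but one the probability of a small quadruple is `≤ 52 / n`, hence
two prescribed events for two different points of a small quadruple have joint probability `≤ 52 / n * P * P'`.
-/

set_option autoImplicit false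

namespace Pool.Agent.Helper9.ND

open Finset Pool.Agent.Helper46.WF Pool.Agent.Helper58.VW

noncomputable section

variable {Ω : Type} [Fintype Ω]

/-- product functions -/
theorem sum_wK_prod (w : Ω → ℝ) (K : ℕ) (f : Fin K → Ω → ℝ) :
    ∑ x : Fin K → Ω, wK w K x * ∏ k, f k (x k) = ∏ k, ∑ ω, w ω * f k ω := by
  classical
  rw [Finset.prod_univ_sum]
  rw [Fintype.piFinset_univ]
  refine Finset.sum_congr rfl fun x _ => ?_
  unfold wK
  rw [← Finset.prod_mul_distrib]

/-- one coordinate -/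
theorem sum_wK_one (w : Ω → ℝ) (hm : ∑ ω, w ω = 1) (K : ℕ) (i : Fin K) (f : Ω → ℝ) :
    ∑ x : Fin K → Ω, wK w K x * f (x i) = ∑ ω, w ω * f ω := by
  classical
  have h := sum_wK_prod w K (fun k ω => if k = i then f ω else 1)
  have e1 : ∀ x : Fin K → Ω, ∏ k, (if k = i then f (x k) else 1) = f (x i) := by
    intro x
    rw [Finset.prod_ite_eq' univ i (fun k => f (x k)), if_pos (mem_univ i)]
  simp only [e1] at h
  rw [h, Finset.prod_eq_single i]
  · simp
  · intro k _ hk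
    simp [hk, hm]
  · intro hi
    exact absurd (mem_univ i) hi

/-- two different coordinates -/
theorem sum_wK_two (w : Ω → ℝ) (hm : ∑ ω, w ω = 1) (K : ℕ) {i j : Fin K} (hij : i ≠ j) (f g : Ω → ℝ) :
    ∑ x : Fin K → Ω, wK w K x * (f (x i) * g (x j)) = (∑ ω, w ω * f ω) * ∑ ω, w ω * g ω := by
  classical
  have h := sum_wK_prod w K (fun k ω => (if k = i then f ω else 1) * (if k = j then g ω else 1))
  have e1 : ∀ x : Fin K → Ω, ∏ k, ((if k = i then f (x k) else 1) * (if k = j then g (x k) else 1)) =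
      f (x i) * g (x j) := by
    intro x
    rw [Finset.prod_mul_distrib, Finset.prod_ite_eq' univ i (fun k => f (x k)), if_pos (mem_univ i),
      Finset.prod_ite_eq' univ j (fun k => g (x k)), if_pos (mem_univ j)]
  simp only [e1] at h
  rw [h, ← Finset.mul_prod_erase univ _ (mem_univ i),
    ← Finset.mul_prod_erase (univ.erase i) _ (mem_erase.mpr ⟨hij.symm, mem_univ j⟩),
    Finset.prod_eq_one, mul_one]
  · simp [hij, hij.symm]
  · intro k hk
    rw [mem_erase, mem_erase] at hk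
    simp [hk.1, hk.2.1, hm]

/-- resampling one coordinate -/
theorem sum_wK_resample (w : Ω → ℝ) {K : ℕ} (F : (Fin (K + 1) → Ω) → ℝ) (k : Fin (K + 1)) :
    ∑ y : Fin (K + 1) → Ω, wK w (K + 1) y * F y =
      ∑ x : Fin K → Ω, wK w K x * ∑ ω, w ω * F (k.insertNth ω x) := by
  have h := sum_insert (w := w) (fun x ω => F (k.insertNth ω x)) k
  rw [← h]
  refine Finset.sum_congr rfl fun y _ => ?_
  have e1 : k.insertNth (y k) (fun j => y (k.succAbove j)) = y := by
    have := Fin.insertNth_self_removeNth k y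
    exact this
  rw [e1]

/-- two events for two different points of a rare configuration -/
theorem two_events (w : Ω → ℝ) (hw : ∀ ω, 0 ≤ w ω) (hm : ∑ ω, w ω = 1) {K : ℕ} {i j k : Fin (K + 1)}
    (hij : i ≠ j) (hik : i ≠ k) (hjk : j ≠ k) (S : (Fin (K + 1) → Ω) → Prop) (P P' : Ω → Prop) {θ : ℝ}
    (hS : ∀ x : Fin K → Ω, (∀ l, w (x l) ≠ 0) → Pw w (fun ω => S (k.insertNth ω x)) ≤ θ) :
    Pw (wK w (K + 1)) (fun y => P (y i) ∧ P' (y j) ∧ S y) ≤ θ * (Pw w P * Pw w P') := by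
  classical
  have e1 : Pw (wK w (K + 1)) (fun y => P (y i) ∧ P' (y j) ∧ S y) =
      ∑ y : Fin (K + 1) → Ω, wK w (K + 1) y * (if P (y i) ∧ P' (y j) ∧ S y then 1 else 0) := by
    unfold Pw
    refine Finset.sum_congr rfl fun y _ => ?_
    split_ifs <;> simp
  rw [e1, sum_wK_resample w _ k]
  obtain ⟨i', hi'⟩ := Fin.exists_succAbove_eq hik
  obtain ⟨j', hj'⟩ := Fin.exists_succAbove_eq hjk
  have hij' : i' ≠ j' := by
    intro h
    rw [h] at hi'
    exact hij (hi'.symm.trans hj')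
  have e2 : ∀ (x : Fin K → Ω) (ω : Ω), k.insertNth (α := fun _ => Ω) ω x i = x i' := by
    intro x ω
    rw [← hi', Fin.insertNth_apply_succAbove]
  have e3 : ∀ (x : Fin K → Ω) (ω : Ω), k.insertNth (α := fun _ => Ω) ω x j = x j' := by
    intro x ω
    rw [← hj', Fin.insertNth_apply_succAbove]
  have h1 : ∀ x : Fin K → Ω, wK w K x * ∑ ω, w ω * (if P ((k.insertNth ω x : Fin (K + 1) → Ω) i) ∧
      P' ((k.insertNth ω x : Fin (K + 1) → Ω) j) ∧ S (k.insertNth ω x) then 1 else 0) ≤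
      wK w K x * (((if P (x i') then 1 else 0) * (if P' (x j') then 1 else 0)) * θ) := by
    intro x
    by_cases h0 : ∀ l, w (x l) ≠ 0
    · refine mul_le_mul_of_nonneg_left ?_ (wK_nonneg hw _ _)
      simp only [e2, e3]
      by_cases hP : P (x i')
      · by_cases hP' : P' (x j')
        · rw [if_pos hP, if_pos hP', one_mul, one_mul]
          refine le_trans (le_of_eq ?_) (hS x h0)
          unfold Pw
          refine Finset.sum_congr rfl fun ω _ => ?_
          by_cases hs : S (k.insertNth ω x) <;> simp [hP, hP', hs]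
        · simp [hP']
      · simp [hP]
    · push Not at h0
      obtain ⟨l, hl⟩ := h0
      have : wK w K x = 0 := by
        unfold wK
        exact Finset.prod_eq_zero (mem_univ l) hl
      rw [this, zero_mul, zero_mul]
  refine (Finset.sum_le_sum fun x _ => h1 x).trans (le_of_eq ?_)
  have e4 : ∀ x : Fin K → Ω, wK w K x * (((if P (x i') then (1 : ℝ) else 0) * (if P' (x j') then 1 else 0)) * θ) =
      θ * (wK w K x * ((if P (x i') then (1 : ℝ) else 0) * (if P' (x j') then 1 else 0))) := fun x => by ring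
  simp only [e4]
  rw [← Finset.mul_sum]
  have e5 := sum_wK_two w hm K hij' (fun ω => if P ω then (1 : ℝ) else 0) (fun ω => if P' ω then (1 : ℝ) else 0)
  rw [e5]
  congr 1
  unfold Pw
  congr 1
  · refine Finset.sum_congr rfl fun ω _ => ?_
    split_ifs <;> simp
  · refine Finset.sum_congr rfl fun ω _ => ?_
    split_ifs <;> simp

/-- the signs of a quadruple -/
def sg : Fin 4 → ℝ := ![1, -1, 1, -1]

/-- the alternating sum of a quadruple -/
def q4 {E : Type*} [AddCommGroup E] [Module ℝ E] (f : Ω → E) (x : Fin 4 → Ω) : E :=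
  f (x 0) - f (x 1) + f (x 2) - f (x 3)

theorem q4_sub {E : Type*} [AddCommGroup E] [Module ℝ E] (f g : Ω → E) (x : Fin 4 → Ω) :
    q4 (fun ω => f ω - g ω) x = q4 f x - q4 g x := by
  simp only [q4]
  abel

theorem q4_add {E : Type*} [AddCommGroup E] [Module ℝ E] (f g : Ω → E) (x : Fin 4 → Ω) :
    q4 (fun ω => f ω + g ω) x = q4 f x + q4 g x := by
  simp only [q4]
  abel

theorem q4_const {E : Type*} [AddCommGroup E] [Module ℝ E] (o : E) (x : Fin 4 → Ω) :
    q4 (fun _ => o) x = 0 := by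
  unfold q4
  abel

theorem q4_smul {E : Type*} [AddCommGroup E] [Module ℝ E] (T : Ω → ℝ) (a : E) (x : Fin 4 → Ω) :
    q4 (fun ω => T ω • a) x = q4 T x • a := by
  unfold q4
  rw [sub_smul, add_smul, sub_smul]

/-- the node: fine cells of width `δ = h / Q`, blocks of `Q` cells (subcells of width `h`), `n` blocks, every block has
probability between `1 / (2 n)` and `2 / n` -/
structure Nd (w : Ω → ℝ) (T : Ω → ℝ) (c : Ω → ℤ) (x0 h : ℝ) (n Q : ℕ) : Prop where
  hw : ∀ ω, 0 ≤ w ω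
  hm : ∑ ω, w ω = 1
  hh : 0 < h
  hQ : 0 < Q
  hn : 0 < n
  cell : ∀ ω, w ω ≠ 0 → x0 + c ω * (h / Q) ≤ T ω ∧ T ω < x0 + (c ω + 1) * (h / Q)
  rg : ∀ ω, w ω ≠ 0 → 0 ≤ c ω ∧ c ω < n * Q
  lo : ∀ i : ℤ, 0 ≤ i → i < n → 1 / (2 * (n : ℝ)) ≤ Pw w (fun ω => c ω / (Q : ℤ) = i)
  up : ∀ i : ℤ, Pw w (fun ω => c ω / (Q : ℤ) = i) ≤ 2 / n

/-- small quadruples, in units of fine cells -/
def Sm (c : Ω → ℤ) (Q : ℕ) (x : Fin 4 → Ω) : Prop :=
  (Q : ℤ) ≤ 2 * |c (x 0) - c (x 1) + c (x 2) - c (x 3)| ∧ |c (x 0) - c (x 1) + c (x 2) - c (x 3)| ≤ 12 * Q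

variable {w : Ω → ℝ} {T : Ω → ℝ} {c : Ω → ℤ} {x0 h : ℝ} {n Q : ℕ}

/-- an interval of `24 Q + 1` fine cells meets at most `26` blocks -/
theorem Nd.interval (hN : Nd w T c x0 h n Q) (a : ℤ) :
    Pw w (fun ω => |c ω - a| ≤ 12 * Q) ≤ 52 / n := by
  classical
  have hQ : (0 : ℤ) < Q := by exact_mod_cast hN.hQ
  obtain ⟨b, hb⟩ : ∃ b, b = (a - 12 * Q) / (Q : ℤ) := ⟨_, rfl⟩
  have h1 : Pw w (fun ω => |c ω - a| ≤ 12 * Q) ≤ Pw w (fun ω => ∃ i ∈ range 26, c ω / (Q : ℤ) = b + i) := by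
    apply Pw_mono w hN.hw
    intro ω _ hω
    rw [abs_le] at hω
    have h2 : b * Q ≤ a - 12 * Q := by
      rw [hb]
      exact Int.ediv_mul_le _ hQ.ne'
    have h3 : a - 12 * Q < (b + 1) * Q := by
      rw [hb]
      exact Int.lt_ediv_add_one_mul_self _ hQ
    have h4 : b ≤ c ω / (Q : ℤ) := by
      rw [Int.le_ediv_iff_mul_le hQ]
      linarith
    have h5 : c ω / (Q : ℤ) < b + 26 := by
      rw [Int.ediv_lt_iff_lt_mul hQ]
      nlinarith
    refine ⟨(c ω / (Q : ℤ) - b).toNat, ?_, ?_⟩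
    · rw [mem_range]
      omega
    · omega
  refine h1.trans ?_
  have h2 : ∀ s : Finset ℕ, Pw w (fun ω => ∃ i ∈ s, c ω / (Q : ℤ) = b + i) ≤ s.card * (2 / n) := by
    intro s
    induction s using Finset.induction_on with
    | empty =>
      simp [Pw]
    | insert i s hi ih =>
      rw [card_insert_of_notMem hi]
      have h3 : Pw w (fun ω => ∃ j ∈ insert i s, c ω / (Q : ℤ) = b + j) ≤
          Pw w (fun ω => c ω / (Q : ℤ) = b + i) + Pw w (fun ω => ∃ j ∈ s, c ω / (Q : ℤ) = b + j) := by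
        refine le_trans (Pw_mono w hN.hw ?_) (Pw_or w hN.hw _ _)
        rintro ω _ ⟨j, hj, hc⟩
        rcases mem_insert.mp hj with rfl | hj
        · exact Or.inl hc
        · exact Or.inr ⟨j, hj, hc⟩
      have h4 := hN.up (b + i)
      push_cast
      linarith
  have h3 := h2 (range 26)
  rw [card_range] at h3
  refine h3.trans (le_of_eq ?_)
  push_cast
  ring

/-- given three points, the fourth makes the quadruple small with probability `≤ 52 / n` -/
theorem Nd.section_le (hN : Nd w T c x0 h n Q) (k : Fin 4) (x : Fin 3 → Ω) :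
    Pw w (fun ω => Sm c Q (k.insertNth ω x)) ≤ 52 / n := by
  have key : ∀ a : ℤ, (∀ ω, Sm c Q (k.insertNth ω x) → |c ω - a| ≤ 12 * Q) →
      Pw w (fun ω => Sm c Q (k.insertNth ω x)) ≤ 52 / n := by
    intro a ha
    exact (Pw_mono w hN.hw fun ω _ hω => ha ω hω).trans (hN.interval a)
  fin_cases k
  · apply key (c (x 0) - c (x 1) + c (x 2))
    intro ω hω
    have h1 := hω.2
    have e0 : (Fin.insertNth (α := fun _ => Ω) (0 : Fin 4) ω x) 0 = ω := rfl
    have e1 : (Fin.insertNth (α := fun _ => Ω) (0 : Fin 4) ω x) 1 = x 0 := rfl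
    have e2 : (Fin.insertNth (α := fun _ => Ω) (0 : Fin 4) ω x) 2 = x 1 := rfl
    have e3 : (Fin.insertNth (α := fun _ => Ω) (0 : Fin 4) ω x) 3 = x 2 := rfl
    change |c ((Fin.insertNth (α := fun _ => Ω) (0 : Fin 4) ω x) 0) -
      c ((Fin.insertNth (α := fun _ => Ω) (0 : Fin 4) ω x) 1) +
      c ((Fin.insertNth (α := fun _ => Ω) (0 : Fin 4) ω x) 2) -
      c ((Fin.insertNth (α := fun _ => Ω) (0 : Fin 4) ω x) 3)| ≤ 12 * Q at h1
    rw [e0, e1, e2, e3] at h1
    rw [abs_le] at h1 ⊢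
    constructor <;> linarith
  · apply key (c (x 0) + c (x 1) - c (x 2))
    intro ω hω
    have h1 := hω.2
    have e0 : (Fin.insertNth (α := fun _ => Ω) (1 : Fin 4) ω x) 0 = x 0 := rfl
    have e1 : (Fin.insertNth (α := fun _ => Ω) (1 : Fin 4) ω x) 1 = ω := rfl
    have e2 : (Fin.insertNth (α := fun _ => Ω) (1 : Fin 4) ω x) 2 = x 1 := rfl
    have e3 : (Fin.insertNth (α := fun _ => Ω) (1 : Fin 4) ω x) 3 = x 2 := rfl
    change |c ((Fin.insertNth (α := fun _ => Ω) (1 : Fin 4) ω x) 0) -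
      c ((Fin.insertNth (α := fun _ => Ω) (1 : Fin 4) ω x) 1) +
      c ((Fin.insertNth (α := fun _ => Ω) (1 : Fin 4) ω x) 2) -
      c ((Fin.insertNth (α := fun _ => Ω) (1 : Fin 4) ω x) 3)| ≤ 12 * Q at h1
    rw [e0, e1, e2, e3] at h1
    rw [abs_le] at h1 ⊢
    constructor <;> linarith
  · apply key (-c (x 0) + c (x 1) + c (x 2))
    intro ω hω
    have h1 := hω.2
    have e0 : (Fin.insertNth (α := fun _ => Ω) (2 : Fin 4) ω x) 0 = x 0 := rfl
    have e1 : (Fin.insertNth (α := fun _ => Ω) (2 : Fin 4) ω x) 1 = x 1 := rfl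
    have e2 : (Fin.insertNth (α := fun _ => Ω) (2 : Fin 4) ω x) 2 = ω := rfl
    have e3 : (Fin.insertNth (α := fun _ => Ω) (2 : Fin 4) ω x) 3 = x 2 := rfl
    change |c ((Fin.insertNth (α := fun _ => Ω) (2 : Fin 4) ω x) 0) -
      c ((Fin.insertNth (α := fun _ => Ω) (2 : Fin 4) ω x) 1) +
      c ((Fin.insertNth (α := fun _ => Ω) (2 : Fin 4) ω x) 2) -
      c ((Fin.insertNth (α := fun _ => Ω) (2 : Fin 4) ω x) 3)| ≤ 12 * Q at h1
    rw [e0, e1, e2, e3] at h1
    rw [abs_le] at h1 ⊢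
    constructor <;> linarith
  · apply key (c (x 0) - c (x 1) + c (x 2))
    intro ω hω
    have h1 := hω.2
    have e0 : (Fin.insertNth (α := fun _ => Ω) (3 : Fin 4) ω x) 0 = x 0 := rfl
    have e1 : (Fin.insertNth (α := fun _ => Ω) (3 : Fin 4) ω x) 1 = x 1 := rfl
    have e2 : (Fin.insertNth (α := fun _ => Ω) (3 : Fin 4) ω x) 2 = x 2 := rfl
    have e3 : (Fin.insertNth (α := fun _ => Ω) (3 : Fin 4) ω x) 3 = ω := rfl
    change |c ((Fin.insertNth (α := fun _ => Ω) (3 : Fin 4) ω x) 0) -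
      c ((Fin.insertNth (α := fun _ => Ω) (3 : Fin 4) ω x) 1) +
      c ((Fin.insertNth (α := fun _ => Ω) (3 : Fin 4) ω x) 2) -
      c ((Fin.insertNth (α := fun _ => Ω) (3 : Fin 4) ω x) 3)| ≤ 12 * Q at h1
    rw [e0, e1, e2, e3] at h1
    rw [abs_le] at h1 ⊢
    constructor <;> linarith

theorem exists_third (i j : Fin 4) : ∃ k : Fin 4, i ≠ k ∧ j ≠ k := by
  revert i j
  decide

/-- two events for two different points of a small quadruple -/
theorem Nd.two (hN : Nd w T c x0 h n Q) {i j : Fin 4} (hij : i ≠ j) (P P' : Ω → Prop) :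
    Pw (wK w 4) (fun y => P (y i) ∧ P' (y j) ∧ Sm c Q y) ≤ 52 / n * (Pw w P * Pw w P') := by
  obtain ⟨k, hik, hjk⟩ := exists_third i j
  exact two_events w hN.hw hN.hm hij hik hjk (Sm c Q) P P' fun x _ => hN.section_le k x

/-- one event -/
theorem Nd.one (hN : Nd w T c x0 h n Q) (i : Fin 4) (P : Ω → Prop) :
    Pw (wK w 4) (fun y => P (y i) ∧ Sm c Q y) ≤ 52 / n * Pw w P := by
  obtain ⟨j, hij, -⟩ := exists_third i i
  have h1 := hN.two hij P (fun _ => True)
  have h2 : Pw w (fun _ => True) = 1 := by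
    unfold Pw
    simp [hN.hm]
  rw [h2, mul_one] at h1
  refine le_trans (Pw_mono _ (wK_nonneg hN.hw 4) ?_) h1
  rintro y _ ⟨a, b⟩
  exact ⟨a, trivial, b⟩

/-- the probability of a small quadruple -/
theorem Nd.sm_le (hN : Nd w T c x0 h n Q) : Pw (wK w 4) (Sm c Q) ≤ 52 / n := by
  have h1 := hN.one 0 (fun _ => True)
  have h2 : Pw w (fun _ => True) = 1 := by
    unfold Pw
    simp [hN.hm]
  rw [h2, mul_one] at h1
  refine le_trans (Pw_mono _ (wK_nonneg hN.hw 4) ?_) h1
  intro y _ hy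
  exact ⟨trivial, hy⟩

end

end Pool.Agent.Helper9.ND
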