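import Pool.Agent.Helper9.ND.Node
import Pool.Agent.Helper58.TR.Tree
import Pool.Agent.Helper92.FW.Spn

/-!
# The recorder of the tree (theorem FW, row T2)

`μ` a law on `Ω`, `p : Ω → Pt`, `T : Pt → ℝ`, `A : Pt → ℝ^N`, `lab : Pt → γ` the labels of the nodes of level `m`.

* `UnifL` : the window of `ρ` digits is uniform up to a factor `2` in the node of `ω`; `unifL_of` : the mass of the other
  points is at most `8 2^ρ` (entropy deficit of the window given the labels);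
* `ndat` : the frame and the tube of a node (a function of the level, the labelling and the label);
* `rcE` : the recorder `ℕ → (Pt → γ) → Pt → Rc N r` (to be used in `Helper58.TR`);
* `Vw ρ N r = Fin (2 ^ ρ) × Rc N r` : windows; `fwin` the window of a point; `nlw` the law of the windows of a node;
  `ThF` the window function;
* `node_tree`, `thF_spec`, `see_node` : the theorem.
-/

set_option autoImplicit false

namespace Pool.Agent.Helper9.ND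

open Finset Matrix Pool.Agent.Helper69.RK Pool.Agent.Helper61.GL Pool.Agent.Helper46.WF Pool.Agent.Helper58.VW
  Pool.Agent.Helper9.VB

noncomputable section

/-! ### windows of a real variable given a label -/

/-- the relative fine cell -/
def rel (m ρ : ℕ) (x : ℝ) : ℤ := cl (m + ρ) x - cl m x * 2 ^ ρ

theorem rel_range (m ρ : ℕ) (x : ℝ) : 0 ≤ rel m ρ x ∧ rel m ρ x < 2 ^ ρ := by
  have h := cl_window m ρ x
  rw [Finset.mem_image] at h
  obtain ⟨k, hk, h⟩ := h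
  rw [Finset.mem_range] at hk
  unfold rel
  have h2 : (k : ℤ) < 2 ^ ρ := by exact_mod_cast hk
  constructor <;> omega

theorem rel_mod (m ρ : ℕ) (x : ℝ) : cl (m + ρ) x % 2 ^ ρ = rel m ρ x := by
  obtain ⟨h1, h2⟩ := rel_range m ρ x
  have h3 : cl (m + ρ) x = rel m ρ x + 2 ^ ρ * cl m x := by
    unfold rel
    ring
  rw [h3, Int.add_mul_emod_self_left]
  exact Int.emod_eq_of_lt h1 h2

theorem rel_cell (m D R0 : ℕ) (x : ℝ) :
    (cl m x : ℝ) / 2 ^ m + (rel m (D + R0) x : ℝ) * (1 / 2 ^ (m + D) / ((2 ^ R0 : ℕ) : ℝ)) ≤ x ∧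
    x < (cl m x : ℝ) / 2 ^ m + ((rel m (D + R0) x : ℝ) + 1) * (1 / 2 ^ (m + D) / ((2 ^ R0 : ℕ) : ℝ)) := by
  have e1 : (1 : ℝ) / 2 ^ (m + D) / ((2 ^ R0 : ℕ) : ℝ) = 1 / 2 ^ (m + (D + R0)) := by
    push_cast
    rw [div_div, ← pow_add, add_assoc]
  rw [e1]
  have e2 : ∀ z : ℤ, (cl m x : ℝ) / 2 ^ m + (z : ℝ) * (1 / 2 ^ (m + (D + R0))) =
      ((cl m x : ℝ) * 2 ^ (D + R0) + z) / 2 ^ (m + (D + R0)) := by
    intro z
    rw [pow_add 2 m]
    field_simp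
  have e3 : ((cl m x : ℝ) * 2 ^ (D + R0) + (rel m (D + R0) x : ℝ)) = (cl (m + (D + R0)) x : ℝ) := by
    unfold rel
    push_cast
    ring
  have h4 := Int.floor_le ((2 : ℝ) ^ (m + (D + R0)) * x)
  have h5 := Int.lt_floor_add_one ((2 : ℝ) ^ (m + (D + R0)) * x)
  constructor
  · rw [e2, e3, div_le_iff₀ (by positivity)]
    unfold cl
    linarith
  · have e4 := e2 (rel m (D + R0) x + 1)
    push_cast at e4
    rw [e4, ← add_assoc, e3, lt_div_iff₀ (by positivity)]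
    unfold cl
    linarith

section unif

variable {Ω γ : Type} [Fintype Ω]

/-- the window after the node of `ω` is uniform up to a factor `2` -/
def UnifL (μ : Ω → ℝ) (Y : Ω → γ) (T : Ω → ℝ) (m ρ : ℕ) (ω : Ω) : Prop :=
  ∀ k : ℕ, k < 2 ^ ρ → 1 / (2 * (2 : ℝ) ^ ρ) ≤ Pw (cw μ Y ω) (fun ω' => rel m ρ (T ω') = k) ∧
    Pw (cw μ Y ω) (fun ω' => rel m ρ (T ω') = k) ≤ 2 / 2 ^ ρ

theorem ent_win_le (μ : Ω → ℝ) (hμ : ∀ ω, 0 ≤ μ ω) (Y : Ω → γ) (T : Ω → ℝ) (m ρ : ℕ)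
    (hY : ∀ ω ω', μ ω ≠ 0 → μ ω' ≠ 0 → Y ω = Y ω' → cl m (T ω) = cl m (T ω')) (ω : Ω) (h0 : μ ω ≠ 0) :
    Hh (cw μ Y ω) (fun ω' => cl (m + ρ) (T ω')) ≤ ρ := by
  have h1 := Hh_le_card (cw μ Y ω) (fun ω' => cw_nonneg μ _ hμ ω ω')
    (cw_sum μ _ hμ ω h0) (fun ω' => cl (m + ρ) (T ω'))
    ((Finset.range (2 ^ ρ)).image (fun k : ℕ => cl m (T ω) * 2 ^ ρ + (k : ℤ))) (by
      intro ω' h
      obtain ⟨h2, h3⟩ := cw_ne_zero μ _ h
      have h4 := cl_window m ρ (T ω')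
      rw [hY ω' ω h3 h0 h2] at h4
      exact h4) (2 ^ ρ) (card_window _ _).le (by positivity)
  rw [logb_two_pow] at h1
  exact h1

theorem unifL_of_ent (μ : Ω → ℝ) (hμ : ∀ ω, 0 ≤ μ ω) (Y : Ω → γ) (T : Ω → ℝ) (m ρ : ℕ)
    (hY : ∀ ω ω', μ ω ≠ 0 → μ ω' ≠ 0 → Y ω = Y ω' → cl m (T ω) = cl m (T ω')) (ω : Ω) (h0 : μ ω ≠ 0)
    (h : (ρ : ℝ) - 1 / (8 * 2 ^ ρ) ≤ Hh (cw μ Y ω) (fun ω' => cl (m + ρ) (T ω'))) : UnifL μ Y T m ρ ω := by
  have h1 := mass_of_ent (cw μ Y ω) (fun ω' => cw_nonneg μ _ hμ ω ω')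
    (cw_sum μ _ hμ ω h0) (fun ω' => cl (m + ρ) (T ω'))
    ((Finset.range (2 ^ ρ)).image (fun k : ℕ => cl m (T ω) * 2 ^ ρ + (k : ℤ))) (by
      intro ω' h
      obtain ⟨h2, h3⟩ := cw_ne_zero μ _ h
      have h4 := cl_window m ρ (T ω')
      rw [hY ω' ω h3 h0 h2] at h4
      exact h4) (2 ^ ρ) (card_window _ _) (by positivity) (by
        rw [logb_two_pow]
        push_cast
        exact h)
  intro k hk
  have h2 := h1 (cl m (T ω) * 2 ^ ρ + (k : ℤ)) (Finset.mem_image.mpr ⟨k, Finset.mem_range.mpr hk, rfl⟩)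
  push_cast at h2
  have e : Pw (cw μ Y ω) (fun ω' => rel m ρ (T ω') = k) =
      Pw (cw μ Y ω) (fun ω' => cl (m + ρ) (T ω') = cl m (T ω) * 2 ^ ρ + (k : ℤ)) := by
    apply le_antisymm
    · refine Pw_mono _ (fun ω' => cw_nonneg μ _ hμ ω ω') ?_
      intro ω' h3 h4
      obtain ⟨h5, h6⟩ := cw_ne_zero μ _ h3
      rw [← hY ω' ω h6 h0 h5]
      unfold rel at h4
      linarith
    · refine Pw_mono _ (fun ω' => cw_nonneg μ _ hμ ω ω') ?_
      intro ω' h3 h4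
      obtain ⟨h5, h6⟩ := cw_ne_zero μ _ h3
      rw [← hY ω' ω h6 h0 h5] at h4
      unfold rel
      linarith
  rw [e]
  exact h2

/-- **most nodes have uniform windows** -/
theorem unifL_of (μ : Ω → ℝ) (hμ : ∀ ω, 0 ≤ μ ω) (Y : Ω → γ) (T : Ω → ℝ) (m ρ : ℕ)
    (hY : ∀ ω ω', μ ω ≠ 0 → μ ω' ≠ 0 → Y ω = Y ω' → cl m (T ω) = cl m (T ω')) :
    Pw μ (fun ω => ¬ UnifL μ Y T m ρ ω) ≤
      8 * 2 ^ ρ * (ρ * mass μ - CH μ (fun ω => cl (m + ρ) (T ω)) Y) := by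
  have h2 : ∑ ω, μ ω * ((ρ : ℝ) - Hh (cw μ Y ω) (fun ω' => cl (m + ρ) (T ω')))
      = ρ * mass μ - CH μ (fun ω => cl (m + ρ) (T ω)) Y := by
    rw [CH_disint μ hμ]
    simp only [mul_sub]
    rw [Finset.sum_sub_distrib, ← Finset.sum_mul, mul_comm (ρ : ℝ)]
    rfl
  have hpos : (0 : ℝ) < 1 / (8 * 2 ^ ρ) := by positivity
  have h3 := Pw_markov μ hμ (fun ω => (ρ : ℝ) - Hh (cw μ Y ω)
    (fun ω' => cl (m + ρ) (T ω'))) (fun ω h0 => by
      have := ent_win_le μ hμ Y T m ρ hY ω h0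
      linarith) hpos h2.le
  refine le_trans (le_trans (Pw_mono μ hμ ?_) h3) (le_of_eq ?_)
  · intro ω h0 hω
    by_contra hcon
    push Not at hcon
    exact hω (unifL_of_ent μ hμ Y T m ρ hY ω h0 (by linarith))
  · field_simp

/-- a uniform window makes the node law a node in the sense of `Nd` -/
theorem nd_of_unif (μ : Ω → ℝ) (hμ : ∀ ω, 0 ≤ μ ω) (Y : Ω → γ) (T : Ω → ℝ) (m D R0 : ℕ)
    (hY : ∀ ω ω', μ ω ≠ 0 → μ ω' ≠ 0 → Y ω = Y ω' → cl m (T ω) = cl m (T ω')) (ω : Ω) (h0 : μ ω ≠ 0)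
    (hU : UnifL μ Y T m (D + R0) ω) :
    Nd (cw μ Y ω) T (fun ω' => rel m (D + R0) (T ω')) ((cl m (T ω) : ℝ) / 2 ^ m) (1 / 2 ^ (m + D)) (2 ^ D) (2 ^ R0) := by
  classical
  have hQz : (0 : ℤ) < ((2 ^ R0 : ℕ) : ℤ) := by positivity
  -- one block
  have hblock : ∀ i : ℤ, 0 ≤ i → i < ((2 ^ D : ℕ) : ℤ) →
      Pw (cw μ Y ω) (fun ω' => rel m (D + R0) (T ω') / ((2 ^ R0 : ℕ) : ℤ) = i) =
        ∑ k ∈ Finset.range (2 ^ R0), Pw (cw μ Y ω) (fun ω' => rel m (D + R0) (T ω') =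
          ((i.toNat * 2 ^ R0 + k : ℕ) : ℤ)) := by
    intro i hi0 hi1
    unfold Pw
    rw [Finset.sum_comm]
    refine Finset.sum_congr rfl fun ω' _ => ?_
    set x := rel m (D + R0) (T ω') with hx
    have hx0 : 0 ≤ x := (rel_range m (D + R0) (T ω')).1
    by_cases hxi : x / ((2 ^ R0 : ℕ) : ℤ) = i
    · rw [if_pos hxi, Finset.sum_eq_single (x % ((2 ^ R0 : ℕ) : ℤ)).toNat]
      · rw [if_pos]
        have h1 := Int.emod_nonneg x hQz.ne'
        have h2 := Int.mul_ediv_add_emod x ((2 ^ R0 : ℕ) : ℤ)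
        rw [hxi] at h2
        push_cast
        push_cast at h1 h2
        rw [Int.toNat_of_nonneg hi0, Int.toNat_of_nonneg h1, mul_comm i]
        exact h2.symm
      · intro k hk hne
        rw [if_neg]
        intro hxk
        apply hne
        rw [Finset.mem_range] at hk
        have h1 : x % ((2 ^ R0 : ℕ) : ℤ) = k := by
          rw [← hx] at hxk
          rw [hxk]
          push_cast
          rw [add_comm, mul_comm, Int.add_mul_emod_self_left]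
          exact Int.emod_eq_of_lt (by positivity) (by exact_mod_cast hk)
        rw [h1]
        simp
      · intro hk
        exfalso
        apply hk
        rw [Finset.mem_range]
        have h1 := Int.emod_nonneg x hQz.ne'
        have h2 := Int.emod_lt_of_pos x hQz
        omega
    · rw [if_neg hxi]
      symm
      refine Finset.sum_eq_zero fun k hk => ?_
      rw [if_neg]
      intro hxk
      apply hxi
      rw [Finset.mem_range] at hk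
      rw [← hx] at hxk
      rw [hxk]
      push_cast
      rw [Int.toNat_of_nonneg hi0, add_comm, Int.add_mul_ediv_right _ _ (by positivity)]
      rw [Int.ediv_eq_zero_of_lt (by positivity) (by exact_mod_cast hk), zero_add]
  have hlt : ∀ i : ℤ, 0 ≤ i → i < ((2 ^ D : ℕ) : ℤ) → ∀ k ∈ Finset.range (2 ^ R0),
      i.toNat * 2 ^ R0 + k < 2 ^ (D + R0) := by
    intro i hi0 hi1 k hk
    rw [Finset.mem_range] at hk
    have h1 : i.toNat < 2 ^ D := by omega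
    have h2 : (i.toNat + 1) * 2 ^ R0 ≤ 2 ^ D * 2 ^ R0 := Nat.mul_le_mul_right _ h1
    rw [pow_add]
    nlinarith
  have hDR : (2 : ℝ) ^ (D + R0) = 2 ^ D * 2 ^ R0 := pow_add _ _ _
  refine ⟨fun ω' => cw_nonneg μ _ hμ ω ω', cw_sum μ _ hμ ω h0, by positivity, by positivity, by positivity, ?_, ?_, ?_, ?_⟩
  · intro ω' hω'
    obtain ⟨h1, h2⟩ := cw_ne_zero μ _ hω'
    have h3 := hY ω' ω h2 h0 h1
    rw [← h3]
    exact rel_cell m D R0 (T ω')
  · intro ω' _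
    obtain ⟨h1, h2⟩ := rel_range m (D + R0) (T ω')
    refine ⟨h1, lt_of_lt_of_le h2 (le_of_eq ?_)⟩
    push_cast
    rw [pow_add]
  · intro i hi0 hi1
    rw [hblock i hi0 hi1]
    have h1 : ∀ k ∈ Finset.range (2 ^ R0), 1 / (2 * (2 : ℝ) ^ (D + R0)) ≤
        Pw (cw μ Y ω) (fun ω' => rel m (D + R0) (T ω') = ((i.toNat * 2 ^ R0 + k : ℕ) : ℤ)) :=
      fun k hk => (hU _ (hlt i hi0 hi1 k hk)).1
    refine le_trans (le_of_eq ?_) (Finset.sum_le_sum h1)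
    rw [Finset.sum_const, card_range, nsmul_eq_mul, hDR]
    push_cast
    field_simp
  · intro i
    by_cases hi : 0 ≤ i ∧ i < ((2 ^ D : ℕ) : ℤ)
    · rw [hblock i hi.1 hi.2]
      have h1 : ∀ k ∈ Finset.range (2 ^ R0),
          Pw (cw μ Y ω) (fun ω' => rel m (D + R0) (T ω') = ((i.toNat * 2 ^ R0 + k : ℕ) : ℤ)) ≤ 2 / 2 ^ (D + R0) :=
        fun k hk => (hU _ (hlt i hi.1 hi.2 k hk)).2
      refine le_trans (Finset.sum_le_sum h1) (le_of_eq ?_)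
      rw [Finset.sum_const, card_range, nsmul_eq_mul, hDR]
      push_cast
      field_simp
    · have h1 : Pw (cw μ Y ω) (fun ω' => rel m (D + R0) (T ω') / ((2 ^ R0 : ℕ) : ℤ) = i) = 0 := by
        unfold Pw
        refine Finset.sum_eq_zero fun ω' _ => ?_
        rw [if_neg]
        intro h2
        obtain ⟨h3, h4⟩ := rel_range m (D + R0) (T ω')
        apply hi
        rw [← h2]
        refine ⟨Int.ediv_nonneg h3 hQz.le, Int.ediv_lt_of_lt_mul hQz ?_⟩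
        push_cast
        rw [← pow_add]
        exact h4
      rw [h1]
      positivity

end unif

/-! ### the deterministic statement -/

section det

variable {Pt : Type} {N : ℕ}

theorem dl_spec {x0 h : ℝ} {Q r : ℕ} (hh : 0 < h) (hr : 2184 ≤ r) (hQ : r ^ 3 ≤ Q) (T : Pt → ℝ) (c : Pt → ℤ)
    (A : Pt → Fin N → ℝ) (F : Matrix (Fin N) (Fin N) ℝ) (a o : Fin N → ℝ) (q : Fin 8 → Pt)
    (hc : ∀ i, x0 + c (q i) * (h / Q) ≤ T (q i) ∧ T (q i) < x0 + (c (q i) + 1) * (h / Q))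
    (hG : Gdw Q r (fun i => wd r F a o T c A (q i))) :
    ((|h / al4 (fun i => T (lft q i))| ≤ 4 ∧ 1 / 13 ≤ |h / al4 (fun i => T (lft q i))| ∧
      al4 (fun i => T (lft q i)) ≠ 0) ∧
     (|h / al4 (fun i => T (rgt q i))| ≤ 4 ∧ 1 / 13 ≤ |h / al4 (fun i => T (rgt q i))| ∧
      al4 (fun i => T (rgt q i)) ≠ 0)) ∧
    ‖tr (F *ᵥ Dl h T A q) - Tht Q r (fun i => wd r F a o T c A (q i))‖ ≤ 6000 / r := by
  have hQ8 : 8 ≤ Q := by
    have : 2184 ≤ r ^ 3 := hr.trans (Nat.le_self_pow (by norm_num) r)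
    omega
  have hl : Sm c Q (lft q) := hG.1
  have hrr : Sm c Q (rgt q) := hG.2.1
  have b := sm_coef hh hQ8 (lft q) (fun i => hc _) hl
  have b' := sm_coef hh hQ8 (rgt q) (fun i => hc _) hrr
  refine ⟨⟨b, b'⟩, ?_⟩
  have h1 := tht_spec hh hr hQ (fun i => T (q i)) (fun i => c (q i)) (fun i => dev F a o (T (q i)) (A (q i))) hc hG
  have e1 : F *ᵥ Dl h T A q = Yq h (lft (fun i => T (q i))) (lft (fun i => dev F a o (T (q i)) (A (q i)))) -
      Yq h (rgt (fun i => T (q i))) (rgt (fun i => dev F a o (T (q i)) (A (q i)))) := by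
    unfold Dl
    rw [Matrix.mulVec_sub, Sl_dev F a o T A (lft q) b.2.2, Sl_dev F a o T A (rgt q) b'.2.2]
    rw [add_sub_add_right_eq_sub]
    rfl
  rw [e1]
  exact h1

/-- the finite windows -/
abbrev Vw (ρ N r : ℕ) := Fin (2 ^ ρ) × Rc N r

/-- a cell modulo `2 ^ ρ` -/
def fz (ρ : ℕ) (z : ℤ) : Fin (2 ^ ρ) := ⟨(z % 2 ^ ρ).toNat, by
  have h1 := Int.emod_nonneg z (b := (2 : ℤ) ^ ρ) (by positivity)
  have h2 := Int.emod_lt_of_pos z (b := (2 : ℤ) ^ ρ) (by positivity)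
  have h3 : ((2 ^ ρ : ℕ) : ℤ) = 2 ^ ρ := by push_cast; rfl
  omega⟩

theorem fz_rel (m ρ : ℕ) (x : ℝ) : (((fz ρ (cl (m + ρ) x) : Fin (2 ^ ρ)) : ℕ) : ℤ) = rel m ρ x := by
  unfold fz
  simp only
  rw [rel_mod, Int.toNat_of_nonneg (rel_range m ρ x).1]

/-- the finite window of a window of the tree -/
def vwin (ρ : ℕ) {N r : ℕ} (W : ℤ × Rc N r) : Vw ρ N r := (fz ρ W.1, W.2)

/-- the integer window of a finite window -/
def zwin {ρ N r : ℕ} (v : Vw ρ N r) : ℤ × Rc N r := (((v.1 : ℕ) : ℤ), v.2)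

theorem zwin_vwin (m ρ : ℕ) {N r : ℕ} (x : ℝ) (e : Rc N r) : zwin (vwin ρ (cl (m + ρ) x, e)) = (rel m ρ x, e) := by
  unfold zwin vwin
  rw [fz_rel]

/-- **the window function on finite windows** -/
def ThF (R0 : ℕ) {ρ N r : ℕ} (v : Fin 8 → Vw ρ N r) : Fin N → ℝ := Tht (2 ^ R0) r (fun i => zwin (v i))

theorem thF_norm (R0 : ℕ) {ρ N r : ℕ} (v : Fin 8 → Vw ρ N r) : ‖ThF R0 v‖ ≤ 1 := tht_norm _ _ _

/-- the finite window of a point, given the data `X` of the node -/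
def pw (m ρ : ℕ) {N : ℕ} (r : ℕ) (T : Pt → ℝ) (A : Pt → Fin N → ℝ)
    (X : Matrix (Fin N) (Fin N) ℝ × (Fin N → ℝ) × (Fin N → ℝ)) (q : Pt) : Vw ρ N r :=
  vwin ρ (cl (m + ρ) (T q), rc r (dev X.1 X.2.1 X.2.2 (T q) (A q)))

/-- **the window function approximates the truncated difference of slopes** (all points in one cell of level `m`) -/
theorem thF_spec {m D R0 r : ℕ} (hN0 : 0 < N) (hr : 300000 * N ^ 2 ≤ r) (hQ : r ^ 3 ≤ 2 ^ R0) (T : Pt → ℝ)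
    (A : Pt → Fin N → ℝ) (X : Matrix (Fin N) (Fin N) ℝ × (Fin N → ℝ) × (Fin N → ℝ)) (q : Fin 8 → Pt) (z0 : ℤ)
    (hq : ∀ i, cl m (T (q i)) = z0) (hne : ThF R0 (fun i => pw m (D + R0) r T A X (q i)) ≠ 0) :
    ((|1 / 2 ^ (m + D) / al4 (fun i => T (lft q i))| ≤ 4 ∧ 1 / 13 ≤ |1 / 2 ^ (m + D) / al4 (fun i => T (lft q i))| ∧
      al4 (fun i => T (lft q i)) ≠ 0) ∧
     (|1 / 2 ^ (m + D) / al4 (fun i => T (rgt q i))| ≤ 4 ∧ 1 / 13 ≤ |1 / 2 ^ (m + D) / al4 (fun i => T (rgt q i))| ∧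
      al4 (fun i => T (rgt q i)) ≠ 0)) ∧
    ‖tr (X.1 *ᵥ Dl (1 / 2 ^ (m + D)) T A q) - ThF R0 (fun i => pw m (D + R0) r T A X (q i))‖ ≤
      1 / (8 * N) / (4 * N + 2) := by
  have hNr : (1 : ℝ) ≤ N := by exact_mod_cast hN0
  have hN2 : 1 ≤ N ^ 2 := Nat.one_le_pow _ _ hN0
  have hr1 : 2184 ≤ r := by nlinarith
  have hr0 : (0 : ℝ) < r := by
    have : 0 < r := by omega
    exact_mod_cast this
  have hrN : 300000 * (N : ℝ) ^ 2 ≤ r := by exact_mod_cast hr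
  have hε : 6000 / (r : ℝ) ≤ 1 / (8 * N) / (4 * N + 2) := by
    rw [div_div, div_le_div_iff₀ hr0 (by positivity)]
    nlinarith
  have e : (fun i => zwin (pw m (D + R0) r T A X (q i))) =
      fun i => wd r X.1 X.2.1 X.2.2 T (fun q => rel m (D + R0) (T q)) A (q i) := by
    funext i
    unfold pw wd
    rw [zwin_vwin]
  unfold ThF at hne ⊢
  rw [e] at hne ⊢
  have hG : Gdw (2 ^ R0) r (fun i => wd r X.1 X.2.1 X.2.2 T (fun q => rel m (D + R0) (T q)) A (q i)) := by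
    by_contra hcon
    apply hne
    unfold Tht
    rw [if_neg hcon]
  obtain ⟨h1, h2⟩ := dl_spec (x0 := (z0 : ℝ) / 2 ^ m) (h := 1 / 2 ^ (m + D)) (Q := 2 ^ R0) (by positivity) hr1 hQ T
    (fun q => rel m (D + R0) (T q)) A X.1 X.2.1 X.2.2 q (fun i => by
      rw [← hq i]
      exact rel_cell m D R0 (T (q i))) hG
  exact ⟨h1, h2.trans hε⟩

end det

/-! ### the law of a node -/

section tree

variable {Ω Pt γ : Type} [Fintype Ω] {N : ℕ}

open Classical in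
/-- the law of the elements with label `y` -/
def nlw (μ : Ω → ℝ) (p : Ω → Pt) (lab : Pt → γ) (y : γ) : Ω → ℝ :=
  fun ω => (if lab (p ω) = y then μ ω else 0) / Pw μ (fun ω' => lab (p ω') = y)

theorem nlw_eq (μ : Ω → ℝ) (p : Ω → Pt) (lab : Pt → γ) (ω : Ω) :
    nlw μ p lab (lab (p ω)) = cw μ (fun ω' => lab (p ω')) ω := by
  classical
  funext ω'
  unfold nlw cw
  rw [pr_eq_Pw]

/-- the properties of the frame and the tube of a node -/
structure NP (w : Ω → ℝ) (p : Ω → Pt) (T : Pt → ℝ) (A : Pt → Fin N → ℝ) (m D R0 r : ℕ) (κ g : ℝ)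
    (X : Matrix (Fin N) (Fin N) ℝ × (Fin N → ℝ) × (Fin N → ℝ)) : Prop where
  det : X.1.det ≠ 0
  floor : ∀ i, ‖X.1 *ᵥ (Pi.single i g : Fin N → ℝ)‖ ≤ 1
  bd : ∀ v, ‖v‖ ≤ 128 * (N : ℝ) ^ 2 * ‖X.1 *ᵥ v‖
  sl : ‖X.2.1‖ ≤ 2 ^ 22 * (N : ℝ) ^ 2 * 2 ^ (m + D)
  fa : ‖(1 / (2 : ℝ) ^ (m + D)) • (X.1 *ᵥ X.2.1)‖ ≤ 19969 + 16 * N / g
  ob : ‖X.2.2‖ ≤ 2 ^ 26 * (N : ℝ) ^ 2 * 2 ^ (m + D)
  tube : Pw w (fun ω => 270000 < ‖dev X.1 X.2.1 X.2.2 (T (p ω)) (A (p ω))‖) ≤ 53248 * (((N : ℝ) + 1) * κ)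
  seen : ∀ ν ∈ Sph N, (∃ i, 1 / (8 * (N : ℝ)) ≤ |ν ⬝ᵥ (X.1 *ᵥ (Pi.single i g : Fin N → ℝ))|) ∨
    κ / (2 ^ 25 * ((N : ℝ) + 1) * ((2 : ℝ) ^ D) ^ 2) ≤
      Pw (wK w 8) (fun y => 1 / (8 * (N : ℝ)) ≤ |ν ⬝ᵥ ThF R0 (fun i => pw m (D + R0) r T A X (p (y i)))|)

/-- the constants of the nodes -/
structure Cok (N D R0 r : ℕ) (κ g : ℝ) : Prop where
  hN : 0 < N
  hD : 6 ≤ D
  hκ : 0 < κ
  hκ1 : 2 ^ 74 * ((N : ℝ) + 1) ^ 3 * ((2 : ℝ) ^ D) ^ 4 * κ ≤ 1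
  hr : 300000 * N ^ 2 ≤ r
  hQ : r ^ 3 ≤ 2 ^ R0
  hg : 0 < g
  hg1 : g ≤ 1

/-- a good node has data -/
theorem exists_np (μ : Ω → ℝ) (hμ : ∀ ω, 0 ≤ μ ω) (p : Ω → Pt) (T : Pt → ℝ) (A : Pt → Fin N → ℝ)
    {m D R0 r : ℕ} {κ g : ℝ} (hC : Cok N D R0 r κ g) (lab : Pt → γ)
    (hA1 : ∀ ω, μ ω ≠ 0 → ‖A (p ω)‖ ≤ 1) (hT1 : ∀ ω, μ ω ≠ 0 → |T (p ω)| ≤ 1)
    (hY : ∀ ω ω', μ ω ≠ 0 → μ ω' ≠ 0 → lab (p ω) = lab (p ω') → cl m (T (p ω)) = cl m (T (p ω'))) (ω : Ω)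
    (h0 : μ ω ≠ 0) (hU : UnifL μ (fun ω => lab (p ω)) (fun ω => T (p ω)) m (D + R0) ω) :
    ∃ X, NP (cw μ (fun ω => lab (p ω)) ω) p T A m D R0 r κ g X := by
  have hN := nd_of_unif μ hμ (fun ω => lab (p ω)) (fun ω => T (p ω)) m D R0 hY ω h0 hU
  have hD : (2 : ℕ) ^ D = 4 * 2 ^ (D - 2) := by
    have : D = 2 + (D - 2) := by have := hC.hD; omega
    conv_lhs => rw [this]
    rw [pow_add]
    norm_num
  have hk : 16 ≤ 2 ^ (D - 2) := by
    have h1 : 4 ≤ D - 2 := by have := hC.hD; omega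
    calc 16 = 2 ^ 4 := by norm_num
      _ ≤ 2 ^ (D - 2) := Nat.pow_le_pow_right (by norm_num) h1
  obtain ⟨F, a, o, h1, h2, h6, h7, h8, h9, h3, -, h5⟩ := exists_node hC.hN hN hk hD (fun ω => A (p ω)) hC.hg hC.hκ
    (by push_cast; exact hC.hκ1) hC.hr hC.hQ hC.hg1 (by
      rw [div_le_one (by positivity)]
      exact one_le_pow₀ (by norm_num))
    (fun ω' h => hA1 ω' (cw_ne_zero μ _ h).2) (fun ω' h => hT1 ω' (cw_ne_zero μ _ h).2)
  refine ⟨(F, a, o), h1, h2, h6, ?_, h8, ?_, h3, ?_⟩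
  · refine h7.trans (le_of_eq ?_)
    rw [div_div_eq_mul_div, div_one]
  · refine h9.trans (le_of_eq ?_)
    rw [div_div_eq_mul_div, div_one]
  intro ν hν
  rcases h5 ν hν with h | h
  · exact Or.inl h
  · refine Or.inr ?_
    push_cast at h
    refine h.trans (le_of_eq ?_)
    congr 1
    funext y
    have e : (fun i => zwin (pw m (D + R0) r T A (F, a, o) (p (y i)))) =
        fun i => wd r F a o (fun ω => T (p ω)) (fun ω' => rel m (D + R0) (T (p ω'))) (fun ω => A (p ω)) (y i) := by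
      funext i
      unfold pw wd
      rw [zwin_vwin]
    unfold ThF
    rw [e]

open Classical in
/-- **the data of the node of level `m` with label `y`** -/
def ndat (μ : Ω → ℝ) (p : Ω → Pt) (T : Pt → ℝ) (A : Pt → Fin N → ℝ) (D R0 r : ℕ) (κ g : ℝ) (m : ℕ) (lab : Pt → γ)
    (y : γ) : Matrix (Fin N) (Fin N) ℝ × (Fin N → ℝ) × (Fin N → ℝ) :=
  if h : ∃ X, NP (nlw μ p lab y) p T A m D R0 r κ g X then h.choose else ((1 / g) • 1, 0, 0)

/-- the frame has nonzero determinant, contains the floor and is bounded, at EVERY node -/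
theorem ndat_det (μ : Ω → ℝ) (p : Ω → Pt) (T : Pt → ℝ) (A : Pt → Fin N → ℝ) (D R0 r : ℕ) (κ g : ℝ) (hN : 0 < N)
    (hg : 0 < g) (hg1 : g ≤ 1)
    (m : ℕ) (lab : Pt → γ) (y : γ) : (ndat μ p T A D R0 r κ g m lab y).1.det ≠ 0 ∧
      (∀ i, ‖(ndat μ p T A D R0 r κ g m lab y).1 *ᵥ (Pi.single i g : Fin N → ℝ)‖ ≤ 1) ∧
      (∀ v, ‖v‖ ≤ 128 * (N : ℝ) ^ 2 * ‖(ndat μ p T A D R0 r κ g m lab y).1 *ᵥ v‖) ∧
      ‖(ndat μ p T A D R0 r κ g m lab y).2.1‖ ≤ 2 ^ 22 * (N : ℝ) ^ 2 * 2 ^ (m + D) ∧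
      ‖(1 / (2 : ℝ) ^ (m + D)) • ((ndat μ p T A D R0 r κ g m lab y).1 *ᵥ (ndat μ p T A D R0 r κ g m lab y).2.1)‖ ≤
        19969 + 16 * N / g ∧
      ‖(ndat μ p T A D R0 r κ g m lab y).2.2‖ ≤ 2 ^ 26 * (N : ℝ) ^ 2 * 2 ^ (m + D) := by
  classical
  have hNr : (1 : ℝ) ≤ N := by exact_mod_cast hN
  unfold ndat
  split_ifs with h
  · have h1 := h.choose_spec
    exact ⟨h1.det, h1.floor, h1.bd, h1.sl, h1.fa, h1.ob⟩
  · refine ⟨?_, ?_, ?_, ?_, ?_, ?_⟩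
    · simp only [Matrix.det_smul, Matrix.det_one, mul_one]
      positivity
    rotate_left
    · intro v
      simp only [Matrix.smul_mulVec, Matrix.one_mulVec]
      rw [norm_smul, norm_div, norm_one, Real.norm_eq_abs, abs_of_pos hg]
      have h1 : ‖v‖ ≤ 1 / g * ‖v‖ := by
        have : 1 ≤ 1 / g := by
          rw [le_div_iff₀ hg]
          linarith
        exact le_mul_of_one_le_left (norm_nonneg _) this
      refine h1.trans ?_
      have h2 : (1 : ℝ) ≤ 128 * (N : ℝ) ^ 2 := by nlinarith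
      exact le_mul_of_one_le_left (by positivity) h2
    · rw [norm_zero]
      positivity
    · rw [Matrix.mulVec_zero, smul_zero, norm_zero]
      positivity
    · rw [norm_zero]
      positivity
    · intro i
      simp only [Matrix.smul_mulVec, Matrix.one_mulVec]
      rw [pi_norm_le_iff_of_nonneg (by norm_num)]
      intro k
      rw [Pi.smul_apply, smul_eq_mul, Real.norm_eq_abs]
      by_cases hk : k = i
      · subst hk
        rw [Pi.single_eq_same, one_div, inv_mul_cancel₀ hg.ne', abs_one]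
      · rw [Pi.single_eq_of_ne hk, mul_zero, abs_zero]
        norm_num

/-- **the node theorem for labels** -/
theorem node_tree (μ : Ω → ℝ) (hμ : ∀ ω, 0 ≤ μ ω) (p : Ω → Pt) (T : Pt → ℝ) (A : Pt → Fin N → ℝ)
    {m D R0 r : ℕ} {κ g : ℝ} (hC : Cok N D R0 r κ g) (lab : Pt → γ)
    (hA1 : ∀ ω, μ ω ≠ 0 → ‖A (p ω)‖ ≤ 1) (hT1 : ∀ ω, μ ω ≠ 0 → |T (p ω)| ≤ 1)
    (hY : ∀ ω ω', μ ω ≠ 0 → μ ω' ≠ 0 → lab (p ω) = lab (p ω') → cl m (T (p ω)) = cl m (T (p ω'))) (ω : Ω)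
    (h0 : μ ω ≠ 0) (hU : UnifL μ (fun ω => lab (p ω)) (fun ω => T (p ω)) m (D + R0) ω) :
    NP (cw μ (fun ω => lab (p ω)) ω) p T A m D R0 r κ g (ndat μ p T A D R0 r κ g m lab (lab (p ω))) := by
  have h := exists_np μ hμ p T A hC lab hA1 hT1 hY ω h0 hU
  rw [← nlw_eq] at h ⊢
  unfold ndat
  rw [dif_pos h]
  exact h.choose_spec

/-- **the recorder** -/
def rcE (μ : Ω → ℝ) (p : Ω → Pt) (T : Pt → ℝ) (A : Pt → Fin N → ℝ) (D R0 r : ℕ) (κ g : ℝ) (m : ℕ) (lab : Pt → γ)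
    (q : Pt) : Rc N r :=
  rc r (dev (ndat μ p T A D R0 r κ g m lab (lab q)).1 (ndat μ p T A D R0 r κ g m lab (lab q)).2.1
    (ndat μ p T A D R0 r κ g m lab (lab q)).2.2 (T q) (A q))

/-- the window of a point of the tree is `pw` -/
theorem vwin_rcE (μ : Ω → ℝ) (p : Ω → Pt) (T : Pt → ℝ) (A : Pt → Fin N → ℝ) (D R0 r : ℕ) (κ g : ℝ) (m ρ : ℕ)
    (lab : Pt → γ) (q : Pt) :
    vwin ρ (cl (m + ρ) (T q), rcE μ p T A D R0 r κ g m lab q) =
      pw m ρ r T A (ndat μ p T A D R0 r κ g m lab (lab q)) q := rfl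

/-- the law of the windows of the node with label `y` -/
def nvw (μ : Ω → ℝ) (p : Ω → Pt) (T : Pt → ℝ) (A : Pt → Fin N → ℝ) (D R0 r : ℕ) (κ g : ℝ) (m : ℕ)
    (lab : Pt → γ) (y : γ) (v : Vw (D + R0) N r) : ℝ :=
  Pw (nlw μ p lab y) (fun ω => pw m (D + R0) r T A (ndat μ p T A D R0 r κ g m lab y) (p ω) = v)

end tree

/-! ### push forward of independent copies -/

theorem Pw_push {Ω V : Type} [Fintype Ω] [Fintype V] (w : Ω → ℝ) (f : Ω → V) (K : ℕ) (P : (Fin K → V) → Prop) :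
    Pw (wK (fun v => Pw w (fun ω => f ω = v)) K) P = Pw (wK w K) (fun y => P (fun i => f (y i))) := by
  classical
  have h1 : ∀ v : Fin K → V, wK (fun v => Pw w (fun ω => f ω = v)) K v =
      ∑ y : Fin K → Ω, wK w K y * (if (fun i => f (y i)) = v then 1 else 0) := by
    intro v
    have h2 := sum_wK_prod w K (fun k ω => if f ω = v k then 1 else 0)
    have e1 : ∀ y : Fin K → Ω, ∏ k, (if f (y k) = v k then (1 : ℝ) else 0) = if (fun i => f (y i)) = v then 1 else 0 := by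
      intro y
      by_cases hy : (fun i => f (y i)) = v
      · rw [if_pos hy]
        refine Finset.prod_eq_one fun k _ => ?_
        rw [if_pos (congrFun hy k)]
      · rw [if_neg hy]
        obtain ⟨k, hk⟩ : ∃ k, f (y k) ≠ v k := by
          by_contra hcon
          push Not at hcon
          exact hy (funext hcon)
        refine Finset.prod_eq_zero (mem_univ k) ?_
        rw [if_neg hk]
    simp only [e1] at h2
    rw [h2]
    unfold wK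
    refine Finset.prod_congr rfl fun k _ => ?_
    unfold Pw
    refine Finset.sum_congr rfl fun ω _ => ?_
    by_cases h : f ω = v k <;> simp [h]
  have e0 : Pw (wK (fun v => Pw w (fun ω => f ω = v)) K) P =
      ∑ v : Fin K → V, (if P v then ∑ y : Fin K → Ω, wK w K y * (if (fun i => f (y i)) = v then 1 else 0) else 0) := by
    unfold Pw
    refine Finset.sum_congr rfl fun v _ => ?_
    rw [← h1 v]
    rfl
  rw [e0]
  have e2 : ∀ v : Fin K → V, (if P v then ∑ y : Fin K → Ω, wK w K y * (if (fun i => f (y i)) = v then 1 else 0) else 0) =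
      ∑ y : Fin K → Ω, (if (fun i => f (y i)) = v then (if P v then wK w K y else 0) else 0) := by
    intro v
    by_cases hv : P v
    · rw [if_pos hv]
      refine Finset.sum_congr rfl fun y _ => ?_
      by_cases hy : (fun i => f (y i)) = v <;> simp [hy, hv]
    · rw [if_neg hv]
      symm
      refine Finset.sum_eq_zero fun y _ => ?_
      by_cases hy : (fun i => f (y i)) = v <;> simp [hy, hv]
  simp only [e2]
  rw [Finset.sum_comm]
  unfold Pw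
  refine Finset.sum_congr rfl fun y _ => ?_
  rw [Finset.sum_ite_eq]
  simp

section see

open Pool.Agent.Helper92.FW

variable {Ω Pt γ : Type} [Fintype Ω] {N : ℕ}

theorem nvw_nonneg (μ : Ω → ℝ) (hμ : ∀ ω, 0 ≤ μ ω) (p : Ω → Pt) (T : Pt → ℝ) (A : Pt → Fin N → ℝ) (D R0 r : ℕ)
    (κ g : ℝ) (m : ℕ) (lab : Pt → γ) (y : γ) (v : Vw (D + R0) N r) : 0 ≤ nvw μ p T A D R0 r κ g m lab y v := by
  classical
  refine Pw_nonneg _ (fun ω => ?_) _
  unfold nlw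
  refine div_nonneg ?_ (Pw_nonneg _ hμ _)
  split_ifs
  · exact hμ ω
  · exact le_rfl

theorem nvw_sum (μ : Ω → ℝ) (hμ : ∀ ω, 0 ≤ μ ω) (p : Ω → Pt) (T : Pt → ℝ) (A : Pt → Fin N → ℝ) (D R0 r : ℕ)
    (κ g : ℝ) (m : ℕ) (lab : Pt → γ) (ω : Ω) (h0 : μ ω ≠ 0) :
    ∑ v, nvw μ p T A D R0 r κ g m lab (lab (p ω)) v = 1 := by
  classical
  unfold nvw
  rw [nlw_eq, sum_Pw_values _ _ univ (fun _ _ => mem_univ _)]
  exact cw_sum μ _ hμ ω h0

/-- **(R2) in the form of `Helper92.FW.Spn`**, blocks of eight independent windows of the node -/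
theorem see_node (μ : Ω → ℝ) (hμ : ∀ ω, 0 ≤ μ ω) (p : Ω → Pt) (T : Pt → ℝ) (A : Pt → Fin N → ℝ)
    {m D R0 r : ℕ} {κ g : ℝ} (hC : Cok N D R0 r κ g) (lab : Pt → γ)
    (hA1 : ∀ ω, μ ω ≠ 0 → ‖A (p ω)‖ ≤ 1) (hT1 : ∀ ω, μ ω ≠ 0 → |T (p ω)| ≤ 1)
    (hY : ∀ ω ω', μ ω ≠ 0 → μ ω' ≠ 0 → lab (p ω) = lab (p ω') → cl m (T (p ω)) = cl m (T (p ω'))) (ω : Ω)
    (h0 : μ ω ≠ 0) (hU : UnifL μ (fun ω => lab (p ω)) (fun ω => T (p ω)) m (D + R0) ω) :
    See (ThF R0) (fun i => (ndat μ p T A D R0 r κ g m lab (lab (p ω))).1 *ᵥ (Pi.single i g : Fin N → ℝ))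
      (wK (nvw μ p T A D R0 r κ g m lab (lab (p ω))) 8) (1 / (8 * (N : ℝ)))
      (κ / (2 ^ 25 * ((N : ℝ) + 1) * ((2 : ℝ) ^ D) ^ 2)) := by
  intro ν hν
  rcases (node_tree μ hμ p T A hC lab hA1 hT1 hY ω h0 hU).seen ν hν with h | h
  · exact Or.inl h
  · refine Or.inr (h.trans (le_of_eq ?_))
    unfold nvw
    rw [Pw_push (nlw μ p lab (lab (p ω)))
      (fun ω' => pw m (D + R0) r T A (ndat μ p T A D R0 r κ g m lab (lab (p ω))) (p ω')) 8, nlw_eq]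

end see

end

end Pool.Agent.Helper9.ND
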