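import Pool.Agent.Helper9.VB.Span
import Pool.Agent.Helper9.ND.Quad

/-!
# The recorder and the window function of a node (theorem FW, row T2)

* `Rc N r` : the finite alphabet (flag, rounded vector); `rc r v` : the record of the deviation `v`; the flag is `true`
  iff `r ^ 2 < ‖v‖`, then the direction of `v` is recorded;
* `dcv` : the decoded deviation (a flagged one gets the length `r ^ 2`);
* a window of a point: `(fine cell, record)`; `Tht Q V` for eight windows `V` (two quadruples);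
* `tht_spec` : if `Tht Q V ≠ 0` then both quadruples are small and `‖tr (F Δ) - Tht Q V‖ ≤ C / r`;
* `tht_ne` : two small quadruples with at most one deviation of norm `> r`: `Tht` is the truncation.
-/

set_option autoImplicit false

namespace Pool.Agent.Helper9.ND

open Finset Pool.Agent.Helper9.VB

noncomputable section

/-- the finite alphabet -/
abbrev Rc (N r : ℕ) := Bool × (Fin N → Fin (2 * r ^ 3 + 1))

/-- rounding of a number -/
def enc (r : ℕ) (x : ℝ) : Fin (2 * r ^ 3 + 1) :=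
  ⟨min (⌊(r : ℝ) * x⌋ + (r : ℤ) ^ 3).toNat (2 * r ^ 3), Nat.lt_succ_of_le (min_le_right _ _)⟩

/-- decoding -/
def dec (r : ℕ) (k : Fin (2 * r ^ 3 + 1)) : ℝ := (((k : ℕ) : ℝ) - (r : ℝ) ^ 3) / r

theorem dec_enc {r : ℕ} (hr : 0 < r) {x : ℝ} (hx : |x| ≤ (r : ℝ) ^ 2) : |x - dec r (enc r x)| ≤ 1 / r := by
  have hr0 : (0 : ℝ) < r := by exact_mod_cast hr
  rw [abs_le] at hx
  have h1 : -(r : ℤ) ^ 3 ≤ ⌊(r : ℝ) * x⌋ := by
    rw [Int.le_floor]
    push_cast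
    nlinarith [hx.1]
  have h2 : ⌊(r : ℝ) * x⌋ ≤ (r : ℤ) ^ 3 := by
    have : (⌊(r : ℝ) * x⌋ : ℝ) ≤ (r : ℝ) ^ 3 := by
      refine (Int.floor_le _).trans ?_
      nlinarith [hx.2]
    exact_mod_cast this
  have h3 : (((enc r x : Fin (2 * r ^ 3 + 1)) : ℕ) : ℝ) = (⌊(r : ℝ) * x⌋ : ℝ) + (r : ℝ) ^ 3 := by
    have h4 : ((min (⌊(r : ℝ) * x⌋ + (r : ℤ) ^ 3).toNat (2 * r ^ 3) : ℕ) : ℤ) = ⌊(r : ℝ) * x⌋ + (r : ℤ) ^ 3 := by
      rw [Nat.cast_min, Int.toNat_of_nonneg (by linarith)]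
      apply min_eq_left
      push_cast
      linarith
    unfold enc
    simp only
    have h5 : (((min (⌊(r : ℝ) * x⌋ + (r : ℤ) ^ 3).toNat (2 * r ^ 3) : ℕ) : ℤ) : ℝ) =
        ((⌊(r : ℝ) * x⌋ + (r : ℤ) ^ 3 : ℤ) : ℝ) := by rw [h4]
    rw [Int.cast_natCast] at h5
    rw [h5]
    push_cast
    ring
  unfold dec
  rw [h3]
  have h6 := Int.floor_le ((r : ℝ) * x)
  have h7 := Int.lt_floor_add_one ((r : ℝ) * x)
  have e : x - ((⌊(r : ℝ) * x⌋ : ℝ) + (r : ℝ) ^ 3 - (r : ℝ) ^ 3) / r = ((r : ℝ) * x - ⌊(r : ℝ) * x⌋) / r := by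
    field_simp
    ring
  rw [e, abs_div, abs_of_pos hr0]
  refine div_le_div_of_nonneg_right ?_ hr0.le
  rw [abs_le]
  constructor <;> linarith

variable {N : ℕ}

/-- the record of a vector -/
def rc (r : ℕ) (v : Fin N → ℝ) : Rc N r :=
  if ‖v‖ ≤ (r : ℝ) ^ 2 then (false, fun i => enc r (v i)) else (true, fun i => enc r ((‖v‖⁻¹ • v) i))

/-- the decoded vector of a record; a flagged record gets the length `r ^ 2` -/
def dcv (r : ℕ) (e : Rc N r) : Fin N → ℝ :=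
  if e.1 then ((r : ℝ) ^ 2) • fun i => dec r (e.2 i) else fun i => dec r (e.2 i)

theorem rc_small {r : ℕ} (hr : 0 < r) {v : Fin N → ℝ} (hv : ‖v‖ ≤ (r : ℝ) ^ 2) :
    (rc r v).1 = false ∧ ‖v - dcv r (rc r v)‖ ≤ 1 / r := by
  unfold rc
  rw [if_pos hv]
  refine ⟨rfl, ?_⟩
  unfold dcv
  simp only [Bool.false_eq_true, if_false]
  rw [pi_norm_le_iff_of_nonneg (by positivity)]
  intro i
  rw [Pi.sub_apply, Real.norm_eq_abs]
  apply dec_enc hr
  exact (norm_le_pi_norm v i).trans hv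

theorem rc_big {r : ℕ} (hr : 0 < r) {v : Fin N → ℝ} (hv : (r : ℝ) ^ 2 < ‖v‖) :
    (rc r v).1 = true ∧ ‖((r : ℝ) ^ 2) • (‖v‖⁻¹ • v) - dcv r (rc r v)‖ ≤ r := by
  have hr0 : (0 : ℝ) < r := by exact_mod_cast hr
  have hv0 : 0 < ‖v‖ := lt_trans (by positivity) hv
  unfold rc
  rw [if_neg (not_le.mpr hv)]
  refine ⟨rfl, ?_⟩
  unfold dcv
  simp only [if_true]
  rw [← smul_sub, norm_smul, Real.norm_eq_abs, abs_of_pos (by positivity)]
  have h1 : ‖(‖v‖⁻¹ • v) - fun i => dec r (enc r ((‖v‖⁻¹ • v) i))‖ ≤ 1 / r := by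
    rw [pi_norm_le_iff_of_nonneg (by positivity)]
    intro i
    rw [Pi.sub_apply, Real.norm_eq_abs]
    apply dec_enc hr
    have h2 : ‖(‖v‖⁻¹ • v) i‖ ≤ ‖(‖v‖⁻¹ • v)‖ := norm_le_pi_norm _ i
    rw [norm_smul, norm_inv, norm_norm, inv_mul_cancel₀ hv0.ne', Real.norm_eq_abs] at h2
    have h3 : (1 : ℝ) ≤ (r : ℝ) ^ 2 := by
      have : (1 : ℝ) ≤ r := by exact_mod_cast hr
      nlinarith
    linarith
  calc (r : ℝ) ^ 2 * ‖(‖v‖⁻¹ • v) - fun i => dec r (enc r ((‖v‖⁻¹ • v) i))‖ ≤ (r : ℝ) ^ 2 * (1 / r) :=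
        mul_le_mul_of_nonneg_left h1 (by positivity)
    _ = r := by field_simp

/-- the alternating sum of the fine cells -/
def qc {α : Type} (V : Fin 4 → ℤ × α) : ℤ := (V 0).1 - (V 1).1 + (V 2).1 - (V 3).1

/-- small quadruples of windows -/
def SmW {α : Type} (Q : ℕ) (V : Fin 4 → ℤ × α) : Prop := (Q : ℤ) ≤ 2 * |qc V| ∧ |qc V| ≤ 12 * Q

/-- left and right quadruple -/
def lft {α : Type} (V : Fin 8 → α) : Fin 4 → α := fun i => V (Fin.castAdd 4 i)
def rgt {α : Type} (V : Fin 8 → α) : Fin 4 → α := fun i => V (Fin.natAdd 4 i)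

/-- the decoded slope deviation of a quadruple (times `h`) -/
def slw (Q r : ℕ) (V : Fin 4 → ℤ × Rc N r) : Fin N → ℝ :=
  ((Q : ℝ) / (qc V : ℝ)) • q4 (fun W : ℤ × Rc N r => dcv r W.2) V

/-- the good windows: both quadruples are small, and either no record is flagged or exactly one record is flagged and
the others have norm `≤ 2 r` -/
def Gdw (Q r : ℕ) (V : Fin 8 → ℤ × Rc N r) : Prop :=
  SmW Q (lft V) ∧ SmW Q (rgt V) ∧
    ((∀ i, (V i).2.1 = false) ∨ ∃ i, (V i).2.1 = true ∧ ∀ j, j ≠ i → (V j).2.1 = false ∧ ‖dcv r (V j).2‖ ≤ 2 * r)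

open Classical in
/-- **the window function** -/
def Tht (Q r : ℕ) (V : Fin 8 → ℤ × Rc N r) : Fin N → ℝ :=
  if Gdw Q r V then tr (slw Q r (lft V) - slw Q r (rgt V)) else 0

theorem tht_norm (Q r : ℕ) (V : Fin 8 → ℤ × Rc N r) : ‖Tht Q r V‖ ≤ 1 := by
  unfold Tht
  split_ifs
  · exact tr_norm _
  · simp

/-! ### the truncation -/

theorem tr_lip (x y : Fin N → ℝ) : ‖tr x - tr y‖ ≤ 2 * ‖x - y‖ := by
  unfold tr
  set a := max 1 ‖x‖ with ha
  set b := max 1 ‖y‖ with hb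
  have ha1 : 1 ≤ a := le_max_left _ _
  have hb1 : 1 ≤ b := le_max_left _ _
  have hyb : ‖y‖ ≤ b := le_max_right _ _
  have hab : |b - a| ≤ ‖x - y‖ := by
    have h1 : |b - a| ≤ |‖y‖ - ‖x‖| := by
      have := abs_max_sub_max_le_abs (‖y‖) (‖x‖) 1
      rw [max_comm (‖y‖), max_comm (‖x‖)] at this
      exact this
    have h2 := abs_norm_sub_norm_le y x
    rw [norm_sub_rev] at h2
    exact h1.trans h2
  have e : (1 / a) • x - (1 / b) • y = (1 / a) • (x - y) + ((b - a) / (a * b)) • y := by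
    have ha0 : a ≠ 0 := by positivity
    have hb0 : b ≠ 0 := by positivity
    have : (b - a) / (a * b) = 1 / a - 1 / b := by field_simp
    rw [this, smul_sub, sub_smul]
    abel
  rw [e]
  refine (norm_add_le _ _).trans ?_
  rw [norm_smul, norm_smul, Real.norm_eq_abs, Real.norm_eq_abs, abs_of_pos (by positivity : 0 < 1 / a), abs_div,
    abs_of_pos (by positivity : 0 < a * b)]
  have h3 : 1 / a * ‖x - y‖ ≤ ‖x - y‖ := by
    have : 1 / a ≤ 1 := by
      rw [div_le_one (by positivity)]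
      exact ha1
    calc 1 / a * ‖x - y‖ ≤ 1 * ‖x - y‖ := mul_le_mul_of_nonneg_right this (norm_nonneg _)
      _ = _ := one_mul _
  have h4 : |b - a| / (a * b) * ‖y‖ ≤ ‖x - y‖ := by
    calc |b - a| / (a * b) * ‖y‖ ≤ |b - a| / (a * b) * b :=
          mul_le_mul_of_nonneg_left hyb (by positivity)
      _ = |b - a| / a := by field_simp
      _ ≤ |b - a| := div_le_self (abs_nonneg _) ha1
      _ ≤ _ := hab
  linarith

theorem tr_dir {x u : Fin N → ℝ} {l e : ℝ} (hu : ‖u‖ = 1) (hl : 2 ≤ l) (he : e ≤ l / 2) (hx : ‖x - l • u‖ ≤ e) :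
    ‖tr x - u‖ ≤ 4 * e / l := by
  have he0 : 0 ≤ e := (norm_nonneg _).trans hx
  have h1 : ‖l • u‖ = l := by rw [norm_smul, hu, mul_one, Real.norm_eq_abs, abs_of_nonneg (by linarith)]
  have h2 : |‖x‖ - l| ≤ e := by
    have := abs_norm_sub_norm_le x (l • u)
    rw [h1] at this
    exact this.trans hx
  have h3 := h2
  rw [abs_le] at h3
  have hx1 : l / 2 ≤ ‖x‖ := by linarith [h3.1]
  have hx0 : 0 < ‖x‖ := by linarith
  have hm : max 1 ‖x‖ = ‖x‖ := max_eq_right (by linarith)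
  unfold tr
  rw [hm]
  have e1 : (1 / ‖x‖) • x - u = (1 / ‖x‖) • (x - l • u) + ((l - ‖x‖) / ‖x‖) • u := by
    have : (l - ‖x‖) / ‖x‖ = 1 / ‖x‖ * l - 1 := by field_simp
    rw [this, smul_sub, smul_smul, sub_smul, one_smul]
    abel
  rw [e1]
  refine (norm_add_le _ _).trans ?_
  rw [norm_smul, norm_smul, hu, mul_one, Real.norm_eq_abs, Real.norm_eq_abs, abs_of_pos (by positivity : 0 < 1 / ‖x‖),
    abs_div, abs_of_pos hx0, abs_sub_comm l]
  have h4 : 1 / ‖x‖ * ‖x - l • u‖ ≤ e / ‖x‖ := by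
    rw [one_div, inv_mul_eq_div]
    exact div_le_div_of_nonneg_right hx hx0.le
  have h5 : |‖x‖ - l| / ‖x‖ ≤ e / ‖x‖ := div_le_div_of_nonneg_right h2 hx0.le
  have h6 : e / ‖x‖ ≤ e / (l / 2) := div_le_div_of_nonneg_left he0 (by linarith) hx1
  have h7 : e / (l / 2) = 2 * e / l := by
    have : l ≠ 0 := by linarith
    field_simp
  have h8 : 4 * e / l = 2 * e / l + 2 * e / l := by ring
  rw [h8]
  linarith

/-! ### coefficients of a small quadruple -/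

theorem coef {x0 h : ℝ} {Q : ℕ} (hh : 0 < h) (hQ : 8 ≤ Q) (t : Fin 4 → ℝ) (c : Fin 4 → ℤ)
    (hc : ∀ i, x0 + c i * (h / Q) ≤ t i ∧ t i < x0 + (c i + 1) * (h / Q))
    (h1 : (Q : ℤ) ≤ 2 * |c 0 - c 1 + c 2 - c 3|) (h2 : |c 0 - c 1 + c 2 - c 3| ≤ 12 * Q) :
    |h / (t 0 - t 1 + t 2 - t 3)| ≤ 4 ∧ 1 / 13 ≤ |h / (t 0 - t 1 + t 2 - t 3)| ∧
    |(Q : ℝ) / ((c 0 - c 1 + c 2 - c 3 : ℤ) : ℝ)| ≤ 2 ∧ 1 / 12 ≤ |(Q : ℝ) / ((c 0 - c 1 + c 2 - c 3 : ℤ) : ℝ)| ∧
    |h / (t 0 - t 1 + t 2 - t 3) - (Q : ℝ) / ((c 0 - c 1 + c 2 - c 3 : ℤ) : ℝ)| ≤ 16 / Q ∧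
    0 < h / (t 0 - t 1 + t 2 - t 3) * ((Q : ℝ) / ((c 0 - c 1 + c 2 - c 3 : ℤ) : ℝ)) := by
  have hQ0 : (0 : ℝ) < Q := by
    have : 0 < Q := by omega
    exact_mod_cast this
  have hQ8 : (8 : ℝ) ≤ Q := by exact_mod_cast hQ
  set C : ℤ := c 0 - c 1 + c 2 - c 3 with hC
  set η : ℝ := t 0 - t 1 + t 2 - t 3 with hη
  set a : ℝ := (C : ℝ) / Q with ha
  set b : ℝ := η / h with hb
  have h1' : (Q : ℝ) ≤ 2 * |(C : ℝ)| := by exact_mod_cast h1
  have h2' : |(C : ℝ)| ≤ 12 * Q := by exact_mod_cast h2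
  have ha1 : 1 / 2 ≤ |a| := by
    rw [ha, abs_div, abs_of_pos hQ0, le_div_iff₀ hQ0]
    linarith
  have ha2 : |a| ≤ 12 := by
    rw [ha, abs_div, abs_of_pos hQ0, div_le_iff₀ hQ0]
    exact h2'
  have hd : |b - a| ≤ 2 / Q := by
    have e : b - a = (η - C * (h / Q)) / h := by
      rw [hb, ha]
      field_simp
    rw [e, abs_div, abs_of_pos hh, div_le_iff₀ hh]
    have e2 : 2 / (Q : ℝ) * h = 2 * (h / Q) := by ring
    rw [e2, hη, hC]
    push_cast
    have a0 := hc 0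
    have a1 := hc 1
    have a2 := hc 2
    have a3 := hc 3
    rw [abs_le]
    constructor <;> nlinarith [a0.1, a0.2, a1.1, a1.2, a2.1, a2.2, a3.1, a3.2]
  have hd4 : |b - a| ≤ 1 / 4 := by
    refine hd.trans ?_
    rw [div_le_div_iff₀ hQ0 (by norm_num)]
    linarith
  have hb1 : 1 / 4 ≤ |b| := by
    have := abs_sub_abs_le_abs_sub a b
    rw [abs_sub_comm] at this
    linarith
  have hb2 : |b| ≤ 13 := by
    have := abs_sub_abs_le_abs_sub b a
    linarith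
  have hab : 0 < a * b := by
    rcases abs_cases a with ⟨e1, e2⟩ | ⟨e1, e2⟩
    · rw [e1] at ha1
      rw [abs_le] at hd4
      exact mul_pos (by linarith) (by linarith [hd4.1])
    · rw [e1] at ha1
      rw [abs_le] at hd4
      exact mul_pos_of_neg_of_neg (by linarith) (by linarith [hd4.2])
  have ha0 : a ≠ 0 := fun h0 => by rw [h0, zero_mul] at hab; exact lt_irrefl _ hab
  have hb0 : b ≠ 0 := fun h0 => by rw [h0, mul_zero] at hab; exact lt_irrefl _ hab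
  have hη' : h / η = b⁻¹ := by rw [hb, inv_div]
  have hC' : (Q : ℝ) / (C : ℝ) = a⁻¹ := by rw [ha, inv_div]
  rw [hη', hC']
  have hap : 0 < |a| := abs_pos.mpr ha0
  have hbp : 0 < |b| := abs_pos.mpr hb0
  refine ⟨?_, ?_, ?_, ?_, ?_, ?_⟩
  · rw [abs_inv, inv_le_comm₀ hbp (by norm_num)]
    linarith
  · rw [abs_inv, one_div]
    exact inv_anti₀ hbp hb2
  · rw [abs_inv, inv_le_comm₀ hap (by norm_num)]
    linarith
  · rw [abs_inv, one_div]
    exact inv_anti₀ hap ha2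
  · have e : b⁻¹ - a⁻¹ = (a - b) / (a * b) := by
      field_simp
    rw [e, abs_div, abs_mul, abs_sub_comm]
    have h3 : 1 / 8 ≤ |a| * |b| := by nlinarith
    rw [div_le_iff₀ (by positivity)]
    calc |b - a| ≤ 2 / Q := hd
      _ = 16 / Q * (1 / 8) := by ring
      _ ≤ 16 / Q * (|a| * |b|) := mul_le_mul_of_nonneg_left h3 (by positivity)
  · rw [← mul_inv, inv_pos, mul_comm]
    exact hab

/-! ### one quadruple -/

theorem rc_flag {r : ℕ} (hr : 0 < r) {v : Fin N → ℝ} (h : (rc r v).1 = false) : ‖v‖ ≤ (r : ℝ) ^ 2 := by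
  by_contra hc
  push Not at hc
  have := (rc_big hr hc).1
  rw [h] at this
  exact Bool.noConfusion this

theorem rc_flag' {r : ℕ} (hr : 0 < r) {v : Fin N → ℝ} (h : (rc r v).1 = true) : (r : ℝ) ^ 2 < ‖v‖ := by
  by_contra hc
  push Not at hc
  have := (rc_small hr hc).1
  rw [h] at this
  exact Bool.noConfusion this

/-- the alternating sum -/
def al4 {E : Type*} [AddCommGroup E] (f : Fin 4 → E) : E := f 0 - f 1 + f 2 - f 3

theorem al4_norm (f : Fin 4 → Fin N → ℝ) {b : ℝ} (hf : ∀ j, ‖f j‖ ≤ b) : ‖al4 f‖ ≤ 4 * b := by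
  unfold al4
  have h1 := norm_sub_le (f 0 - f 1 + f 2) (f 3)
  have h2 := norm_add_le (f 0 - f 1) (f 2)
  have h3 := norm_sub_le (f 0) (f 1)
  have := hf 0
  have := hf 1
  have := hf 2
  have := hf 3
  linarith

theorem al4_sub (f g : Fin 4 → Fin N → ℝ) : al4 f - al4 g = al4 (fun j => f j - g j) := by
  funext i
  simp only [al4, Pi.sub_apply, Pi.add_apply]
  ring

theorem sg_abs (i : Fin 4) : |sg i| = 1 := by
  fin_cases i <;> simp [sg]

theorem al4_one (f : Fin 4 → Fin N → ℝ) (i : Fin 4) {b : ℝ} (hf : ∀ j, j ≠ i → ‖f j‖ ≤ b) :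
    ‖al4 f - sg i • f i‖ ≤ 3 * b := by
  fin_cases i
  · have e : al4 f - sg ⟨0, by norm_num⟩ • f ⟨0, by norm_num⟩ = -f 1 + f 2 - f 3 := by
      have : sg ⟨0, by norm_num⟩ = 1 := rfl
      rw [this, one_smul]
      show f 0 - f 1 + f 2 - f 3 - f 0 = _
      abel
    refine le_trans (le_of_eq (congrArg _ e)) ?_
    have h1 := norm_sub_le (-f 1 + f 2) (f 3)
    have h2 := norm_add_le (-f 1) (f 2)
    rw [norm_neg] at h2
    have := hf 1 (by decide)
    have := hf 2 (by decide)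
    have := hf 3 (by decide)
    linarith
  · have e : al4 f - sg ⟨1, by norm_num⟩ • f ⟨1, by norm_num⟩ = f 0 + f 2 - f 3 := by
      have : sg ⟨1, by norm_num⟩ = -1 := rfl
      rw [this, neg_smul, one_smul]
      show f 0 - f 1 + f 2 - f 3 - -f 1 = _
      abel
    refine le_trans (le_of_eq (congrArg _ e)) ?_
    have h1 := norm_sub_le (f 0 + f 2) (f 3)
    have h2 := norm_add_le (f 0) (f 2)
    have := hf 0 (by decide)
    have := hf 2 (by decide)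
    have := hf 3 (by decide)
    linarith
  · have e : al4 f - sg ⟨2, by norm_num⟩ • f ⟨2, by norm_num⟩ = f 0 - f 1 - f 3 := by
      have : sg ⟨2, by norm_num⟩ = 1 := rfl
      rw [this, one_smul]
      show f 0 - f 1 + f 2 - f 3 - f 2 = _
      abel
    refine le_trans (le_of_eq (congrArg _ e)) ?_
    have h1 := norm_sub_le (f 0 - f 1) (f 3)
    have h2 := norm_sub_le (f 0) (f 1)
    have := hf 0 (by decide)
    have := hf 1 (by decide)
    have := hf 3 (by decide)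
    linarith
  · have e : al4 f - sg ⟨3, by norm_num⟩ • f ⟨3, by norm_num⟩ = f 0 - f 1 + f 2 := by
      have : sg ⟨3, by norm_num⟩ = -1 := rfl
      rw [this, neg_smul, one_smul]
      show f 0 - f 1 + f 2 - f 3 - -f 3 = _
      abel
    refine le_trans (le_of_eq (congrArg _ e)) ?_
    have h1 := norm_add_le (f 0 - f 1) (f 2)
    have h2 := norm_sub_le (f 0) (f 1)
    have := hf 0 (by decide)
    have := hf 1 (by decide)
    have := hf 2 (by decide)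
    linarith

/-- windows of four points -/
def wn4 (r : ℕ) (c : Fin 4 → ℤ) (v : Fin 4 → Fin N → ℝ) : Fin 4 → ℤ × Rc N r := fun i => (c i, rc r (v i))

theorem slw_eq (Q r : ℕ) (c : Fin 4 → ℤ) (v : Fin 4 → Fin N → ℝ) :
    slw Q r (wn4 r c v) = ((Q : ℝ) / ((c 0 - c 1 + c 2 - c 3 : ℤ) : ℝ)) • al4 (fun i => dcv r (rc r (v i))) := rfl

/-- the exact quantity: `h s / η` -/
def Yq (h : ℝ) (t : Fin 4 → ℝ) (v : Fin 4 → Fin N → ℝ) : Fin N → ℝ := (h / al4 t) • al4 v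

theorem quad_near {x0 h : ℝ} {Q r : ℕ} (hh : 0 < h) (hr : 2184 ≤ r) (hQ : r ^ 3 ≤ Q) (t : Fin 4 → ℝ) (c : Fin 4 → ℤ)
    (v : Fin 4 → Fin N → ℝ) (hc : ∀ i, x0 + c i * (h / Q) ≤ t i ∧ t i < x0 + (c i + 1) * (h / Q))
    (hS : SmW Q (wn4 r c v)) (hf : ∀ i, (rc r (v i)).1 = false) :
    ‖Yq h t v - slw Q r (wn4 r c v)‖ ≤ 72 / r := by
  have hr0 : 0 < r := by omega
  have hr0' : (0 : ℝ) < r := by exact_mod_cast hr0
  have hQr : (r : ℝ) ^ 3 ≤ Q := by exact_mod_cast hQ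
  have hQ8 : 8 ≤ Q := by
    have : 2184 ≤ r ^ 3 := hr.trans (Nat.le_self_pow (by norm_num) r)
    omega
  have hQ0 : (0 : ℝ) < Q := lt_of_lt_of_le (by positivity) hQr
  obtain ⟨b1, -, b3, -, b5, -⟩ := coef hh hQ8 t c hc hS.1 hS.2
  rw [slw_eq]
  unfold Yq
  set α := h / (t 0 - t 1 + t 2 - t 3) with hα
  set β := (Q : ℝ) / ((c 0 - c 1 + c 2 - c 3 : ℤ) : ℝ) with hβ
  have e : (h / al4 t) • al4 v - β • al4 (fun i => dcv r (rc r (v i))) =
      (α - β) • al4 v + β • al4 (fun i => v i - dcv r (rc r (v i))) := by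
    rw [← al4_sub, sub_smul, smul_sub]
    show α • al4 v - _ = _
    abel
  rw [e]
  refine (norm_add_le _ _).trans ?_
  rw [norm_smul, norm_smul, Real.norm_eq_abs, Real.norm_eq_abs]
  have h1 : ‖al4 v‖ ≤ 4 * (r : ℝ) ^ 2 := al4_norm v fun j => rc_flag hr0 (hf j)
  have h2 : ‖al4 (fun i => v i - dcv r (rc r (v i)))‖ ≤ 4 * (1 / r) :=
    al4_norm _ fun j => (rc_small hr0 (rc_flag hr0 (hf j))).2
  have h3 : |α - β| * ‖al4 v‖ ≤ 16 / Q * (4 * (r : ℝ) ^ 2) := mul_le_mul b5 h1 (norm_nonneg _) (by positivity)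
  have h4 : |β| * ‖al4 (fun i => v i - dcv r (rc r (v i)))‖ ≤ 2 * (4 * (1 / r)) :=
    mul_le_mul b3 h2 (norm_nonneg _) (by norm_num)
  have h5 : 16 / (Q : ℝ) * (4 * (r : ℝ) ^ 2) ≤ 64 / r := by
    have e1 : 16 / (Q : ℝ) * (4 * (r : ℝ) ^ 2) = 64 * (r : ℝ) ^ 2 / Q := by ring
    rw [e1, div_le_div_iff₀ hQ0 hr0']
    nlinarith
  have h6 : (72 : ℝ) / r = 64 / r + 2 * (4 * (1 / r)) := by ring
  rw [h6]
  linarith

theorem quad_small {x0 h : ℝ} {Q r : ℕ} (hh : 0 < h) (hr : 2184 ≤ r) (hQ : r ^ 3 ≤ Q) (t : Fin 4 → ℝ) (c : Fin 4 → ℤ)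
    (v : Fin 4 → Fin N → ℝ) (hc : ∀ i, x0 + c i * (h / Q) ≤ t i ∧ t i < x0 + (c i + 1) * (h / Q))
    (hS : SmW Q (wn4 r c v)) (hf : ∀ i, (rc r (v i)).1 = false ∧ ‖dcv r (rc r (v i))‖ ≤ 2 * r) :
    ‖Yq h t v‖ ≤ 48 * r ∧ ‖slw Q r (wn4 r c v)‖ ≤ 16 * r := by
  have hr0 : 0 < r := by omega
  have hr0' : (0 : ℝ) < r := by exact_mod_cast hr0
  have hr1 : (1 : ℝ) ≤ r := by exact_mod_cast hr0
  have hQr : (r : ℝ) ^ 3 ≤ Q := by exact_mod_cast hQ
  have hQ8 : 8 ≤ Q := by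
    have : 2184 ≤ r ^ 3 := hr.trans (Nat.le_self_pow (by norm_num) r)
    omega
  obtain ⟨b1, -, b3, -, -, -⟩ := coef hh hQ8 t c hc hS.1 hS.2
  have h1 : ∀ j, ‖v j‖ ≤ 3 * r := by
    intro j
    have h2 := (rc_small hr0 (rc_flag hr0 (hf j).1)).2
    have h3 := norm_sub_norm_le (v j) (dcv r (rc r (v j)))
    have h4 := (hf j).2
    have h5 : (1 : ℝ) / r ≤ r := by
      rw [div_le_iff₀ hr0']
      nlinarith
    linarith
  constructor
  · unfold Yq
    rw [norm_smul, Real.norm_eq_abs]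
    calc |h / al4 t| * ‖al4 v‖ ≤ 4 * (4 * (3 * r)) :=
          mul_le_mul b1 (al4_norm v h1) (norm_nonneg _) (by norm_num)
      _ = 48 * r := by ring
  · rw [slw_eq, norm_smul, Real.norm_eq_abs]
    calc _ ≤ 2 * (4 * (2 * (r : ℝ))) :=
          mul_le_mul b3 (al4_norm _ fun j => (hf j).2) (norm_nonneg _) (by norm_num)
      _ = 16 * r := by ring

theorem quad_flag {x0 h : ℝ} {Q r : ℕ} (hh : 0 < h) (hr : 2184 ≤ r) (hQ : r ^ 3 ≤ Q) (t : Fin 4 → ℝ) (c : Fin 4 → ℤ)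
    (v : Fin 4 → Fin N → ℝ) (hc : ∀ i, x0 + c i * (h / Q) ≤ t i ∧ t i < x0 + (c i + 1) * (h / Q))
    (hS : SmW Q (wn4 r c v)) (i : Fin 4) (hi : (rc r (v i)).1 = true)
    (hf : ∀ j, j ≠ i → (rc r (v j)).1 = false ∧ ‖dcv r (rc r (v j))‖ ≤ 2 * r) :
    ∃ (u : Fin N → ℝ) (l l' : ℝ), ‖u‖ = 1 ∧ (r : ℝ) ^ 2 / 13 ≤ l ∧ (r : ℝ) ^ 2 / 12 ≤ l' ∧
      ‖Yq h t v - l • u‖ ≤ 36 * r ∧ ‖slw Q r (wn4 r c v) - l' • u‖ ≤ 14 * r := by
  have hr0 : 0 < r := by omega
  have hr0' : (0 : ℝ) < r := by exact_mod_cast hr0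
  have hr1 : (1 : ℝ) ≤ r := by exact_mod_cast hr0
  have hQr : (r : ℝ) ^ 3 ≤ Q := by exact_mod_cast hQ
  have hQ8 : 8 ≤ Q := by
    have : 2184 ≤ r ^ 3 := hr.trans (Nat.le_self_pow (by norm_num) r)
    omega
  obtain ⟨b1, b2, b3, b4, -, b6⟩ := coef hh hQ8 t c hc hS.1 hS.2
  have h1 : ∀ j, j ≠ i → ‖v j‖ ≤ 3 * r := by
    intro j hj
    have h2 := (rc_small hr0 (rc_flag hr0 (hf j hj).1)).2
    have h3 := norm_sub_norm_le (v j) (dcv r (rc r (v j)))
    have h4 := (hf j hj).2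
    have h5 : (1 : ℝ) / r ≤ r := by
      rw [div_le_iff₀ hr0']
      nlinarith
    linarith
  have hv := rc_flag' hr0 hi
  have hv0 : 0 < ‖v i‖ := lt_trans (by positivity) hv
  have h2 := (rc_big hr0 hv).2
  rw [slw_eq]
  unfold Yq
  set α := h / (t 0 - t 1 + t 2 - t 3) with hα
  set β := (Q : ℝ) / ((c 0 - c 1 + c 2 - c 3 : ℤ) : ℝ) with hβ
  have hα' : h / al4 t = α := rfl
  rw [hα']
  set u0 : Fin N → ℝ := ‖v i‖⁻¹ • v i with hu0
  have hu0n : ‖u0‖ = 1 := by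
    rw [hu0, norm_smul, norm_inv, norm_norm, inv_mul_cancel₀ hv0.ne']
  have hvi : v i = ‖v i‖ • u0 := by
    rw [hu0, smul_smul, mul_inv_cancel₀ hv0.ne', one_smul]
  have hA := al4_one v i h1
  have hB := al4_one (fun j => dcv r (rc r (v j))) i (fun j hj => (hf j hj).2)
  -- the sign
  obtain ⟨s, hs, hsα, hsβ⟩ : ∃ s : ℝ, |s| = 1 ∧ α = |α| * s ∧ β = |β| * s := by
    rcases abs_cases α with ⟨e1, e2⟩ | ⟨e1, e2⟩
    · refine ⟨1, abs_one, by rw [e1, mul_one], ?_⟩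
      have hβ0 : 0 < β := by
        by_contra hcon
        push Not at hcon
        have := mul_nonpos_of_nonneg_of_nonpos e2 hcon
        linarith
      rw [abs_of_pos hβ0, mul_one]
    · refine ⟨-1, by simp, by rw [e1]; ring, ?_⟩
      have hβ0 : β < 0 := by
        by_contra hcon
        push Not at hcon
        have := mul_nonpos_of_nonpos_of_nonneg e2.le hcon
        linarith
      rw [abs_of_neg hβ0]
      ring
  refine ⟨(s * sg i) • u0, |α| * ‖v i‖, |β| * (r : ℝ) ^ 2, ?_, ?_, ?_, ?_, ?_⟩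
  · rw [norm_smul, hu0n, Real.norm_eq_abs, abs_mul, hs, sg_abs]
    norm_num
  · nlinarith [b2, hv]
  · nlinarith [b4, sq_nonneg (r : ℝ)]
  · have e : α • al4 v - (|α| * ‖v i‖) • ((s * sg i) • u0) = α • (al4 v - sg i • v i) := by
      have e1 : (|α| * ‖v i‖) • ((s * sg i) • u0) = α • (sg i • v i) := by
        conv_rhs => rw [hvi, hsα]
        simp only [smul_smul]
        congr 1
        ring
      rw [e1, smul_sub]
    rw [e, norm_smul, Real.norm_eq_abs]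
    calc |α| * ‖al4 v - sg i • v i‖ ≤ 4 * (3 * (3 * r)) := mul_le_mul b1 hA (norm_nonneg _) (by norm_num)
      _ = 36 * r := by ring
  · have e : β • al4 (fun j => dcv r (rc r (v j))) - (|β| * (r : ℝ) ^ 2) • ((s * sg i) • u0) =
        β • (al4 (fun j => dcv r (rc r (v j))) - sg i • dcv r (rc r (v i))) +
        (β * sg i) • (dcv r (rc r (v i)) - ((r : ℝ) ^ 2) • u0) := by
      have e1 : (|β| * (r : ℝ) ^ 2) • ((s * sg i) • u0) = (β * sg i) • (((r : ℝ) ^ 2) • u0) := by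
        conv_rhs => rw [hsβ]
        simp only [smul_smul]
        congr 1
        ring
      rw [e1, smul_sub, smul_sub, mul_smul, mul_smul]
      abel
    rw [e]
    refine (norm_add_le _ _).trans ?_
    rw [norm_smul, norm_smul, Real.norm_eq_abs, Real.norm_eq_abs, abs_mul, sg_abs, mul_one]
    have h3 : |β| * ‖al4 (fun j => dcv r (rc r (v j))) - sg i • dcv r (rc r (v i))‖ ≤ 2 * (3 * (2 * r)) :=
      mul_le_mul b3 hB (norm_nonneg _) (by norm_num)
    have h4 : |β| * ‖dcv r (rc r (v i)) - ((r : ℝ) ^ 2) • u0‖ ≤ 2 * r := by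
      rw [norm_sub_rev]
      exact mul_le_mul b3 h2 (norm_nonneg _) (by norm_num)
    linarith

/-! ### eight points -/

/-- windows of eight points -/
def wn8 (r : ℕ) (c : Fin 8 → ℤ) (v : Fin 8 → Fin N → ℝ) : Fin 8 → ℤ × Rc N r := fun i => (c i, rc r (v i))

theorem eight_cases (i : Fin 8) : (∃ j : Fin 4, i = Fin.castAdd 4 j) ∨ ∃ j : Fin 4, i = Fin.natAdd 4 j := by
  revert i
  decide

theorem tr_neg (x : Fin N → ℝ) : tr (-x) = -tr x := by
  unfold tr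
  rw [norm_neg, smul_neg]

/-- **the window function approximates the truncated difference of slopes** -/
theorem tht_spec {x0 h : ℝ} {Q r : ℕ} (hh : 0 < h) (hr : 2184 ≤ r) (hQ : r ^ 3 ≤ Q) (t : Fin 8 → ℝ) (c : Fin 8 → ℤ)
    (v : Fin 8 → Fin N → ℝ) (hc : ∀ i, x0 + c i * (h / Q) ≤ t i ∧ t i < x0 + (c i + 1) * (h / Q))
    (hG : Gdw Q r (wn8 r c v)) :
    ‖tr (Yq h (lft t) (lft v) - Yq h (rgt t) (rgt v)) - Tht Q r (wn8 r c v)‖ ≤ 6000 / r := by
  have hr0 : 0 < r := by omega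
  have hr0' : (0 : ℝ) < r := by exact_mod_cast hr0
  have hr' : (2184 : ℝ) ≤ r := by exact_mod_cast hr
  unfold Tht
  rw [if_pos hG]
  obtain ⟨hS1, hS2, hG⟩ := hG
  have e1 : lft (wn8 r c v) = wn4 r (lft c) (lft v) := rfl
  have e2 : rgt (wn8 r c v) = wn4 r (rgt c) (rgt v) := rfl
  rw [e1] at hS1 ⊢
  rw [e2] at hS2 ⊢
  have hcl : ∀ i, x0 + lft c i * (h / Q) ≤ lft t i ∧ lft t i < x0 + (lft c i + 1) * (h / Q) := fun i => hc _
  have hcr : ∀ i, x0 + rgt c i * (h / Q) ≤ rgt t i ∧ rgt t i < x0 + (rgt c i + 1) * (h / Q) := fun i => hc _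
  have hr2 : (r : ℝ) ^ 2 = r * r := by ring
  rcases hG with hG | ⟨i, hi, hG⟩
  · have n1 := quad_near hh hr hQ (lft t) (lft c) (lft v) hcl hS1 (fun i => hG _)
    have n2 := quad_near hh hr hQ (rgt t) (rgt c) (rgt v) hcr hS2 (fun i => hG _)
    refine (tr_lip _ _).trans ?_
    have e3 : Yq h (lft t) (lft v) - Yq h (rgt t) (rgt v) -
        (slw Q r (wn4 r (lft c) (lft v)) - slw Q r (wn4 r (rgt c) (rgt v))) =
        (Yq h (lft t) (lft v) - slw Q r (wn4 r (lft c) (lft v))) -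
        (Yq h (rgt t) (rgt v) - slw Q r (wn4 r (rgt c) (rgt v))) := by abel
    rw [e3]
    have n3 := norm_sub_le (Yq h (lft t) (lft v) - slw Q r (wn4 r (lft c) (lft v)))
      (Yq h (rgt t) (rgt v) - slw Q r (wn4 r (rgt c) (rgt v)))
    have n4 : (288 : ℝ) / r ≤ 6000 / r := div_le_div_of_nonneg_right (by norm_num) hr0'.le
    have n5 : (288 : ℝ) / r = 2 * (72 / r + 72 / r) := by ring
    linarith
  · -- one flag: the general estimate
    have key : ∀ (X Y X' Y' u : Fin N → ℝ) (l l' : ℝ), ‖u‖ = 1 → (r : ℝ) ^ 2 / 13 ≤ l → (r : ℝ) ^ 2 / 12 ≤ l' →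
        ‖X - l • u‖ ≤ 36 * r → ‖Y‖ ≤ 48 * r → ‖X' - l' • u‖ ≤ 14 * r → ‖Y'‖ ≤ 16 * r →
        ‖tr (X - Y) - tr (X' - Y')‖ ≤ 6000 / r := by
      intro X Y X' Y' u l l' hu hl hl' h1 h2 h3 h4
      have a1 : ‖X - Y - l • u‖ ≤ 84 * r := by
        have e3 : X - Y - l • u = (X - l • u) - Y := by abel
        rw [e3]
        have := norm_sub_le (X - l • u) Y
        linarith
      have a2 : ‖X' - Y' - l' • u‖ ≤ 30 * r := by
        have e3 : X' - Y' - l' • u = (X' - l' • u) - Y' := by abel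
        rw [e3]
        have := norm_sub_le (X' - l' • u) Y'
        linarith
      have b1 : ‖tr (X - Y) - u‖ ≤ 4 * (84 * r) / l := by
        apply tr_dir hu _ _ a1
        · nlinarith
        · nlinarith
      have b2 : ‖tr (X' - Y') - u‖ ≤ 4 * (30 * r) / l' := by
        apply tr_dir hu _ _ a2
        · nlinarith
        · nlinarith
      have c1 : 4 * (84 * (r : ℝ)) / l ≤ 4368 / r := by
        have hl0 : 0 < l := lt_of_lt_of_le (by positivity) hl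
        rw [div_le_div_iff₀ hl0 hr0']
        nlinarith
      have c2 : 4 * (30 * (r : ℝ)) / l' ≤ 1440 / r := by
        have hl0 : 0 < l' := lt_of_lt_of_le (by positivity) hl'
        rw [div_le_div_iff₀ hl0 hr0']
        nlinarith
      have e3 : tr (X - Y) - tr (X' - Y') = (tr (X - Y) - u) - (tr (X' - Y') - u) := by abel
      rw [e3]
      have d1 := norm_sub_le (tr (X - Y) - u) (tr (X' - Y') - u)
      have d2 : (4368 : ℝ) / r + 1440 / r ≤ 6000 / r := by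
        rw [← add_div]
        exact div_le_div_of_nonneg_right (by norm_num) hr0'.le
      linarith
    rcases eight_cases i with ⟨j, rfl⟩ | ⟨j, rfl⟩
    · obtain ⟨u, l, l', hu, hl, hl', h1, h2⟩ := quad_flag hh hr hQ (lft t) (lft c) (lft v) hcl hS1 j hi
        (fun j' hj' => hG _ (fun h0 => hj' (Fin.castAdd_injective 4 4 h0)))
      obtain ⟨h3, h4⟩ := quad_small hh hr hQ (rgt t) (rgt c) (rgt v) hcr hS2 (fun j' => hG _ (by
        intro h0
        have := congrArg Fin.val h0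
        simp at this
        omega))
      exact key _ _ _ _ u l l' hu hl hl' h1 h3 h2 h4
    · obtain ⟨u, l, l', hu, hl, hl', h1, h2⟩ := quad_flag hh hr hQ (rgt t) (rgt c) (rgt v) hcr hS2 j hi
        (fun j' hj' => hG _ (fun h0 => hj' (Fin.natAdd_injective 4 4 h0)))
      obtain ⟨h3, h4⟩ := quad_small hh hr hQ (lft t) (lft c) (lft v) hcl hS1 (fun j' => hG _ (by
        intro h0
        have := congrArg Fin.val h0
        simp at this
        omega))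
      have h5 := key _ _ _ _ u l l' hu hl hl' h1 h3 h2 h4
      have e3 : Yq h (lft t) (lft v) - Yq h (rgt t) (rgt v) = -(Yq h (rgt t) (rgt v) - Yq h (lft t) (lft v)) := by abel
      have e4 : slw Q r (wn4 r (lft c) (lft v)) - slw Q r (wn4 r (rgt c) (rgt v)) =
        -(slw Q r (wn4 r (rgt c) (rgt v)) - slw Q r (wn4 r (lft c) (lft v))) := by abel
      rw [e3, e4, tr_neg, tr_neg]
      have e5 : ∀ a b : Fin N → ℝ, -a - -b = -(a - b) := fun a b => by abel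
      rw [e5, norm_neg]
      exact h5

/-- small quadruples with at most one deviation of norm `> r` have good windows -/
theorem gdw_of {Q r : ℕ} (hr : 2184 ≤ r) (c : Fin 8 → ℤ) (v : Fin 8 → Fin N → ℝ)
    (h1 : SmW Q (lft (wn8 r c v))) (h2 : SmW Q (rgt (wn8 r c v)))
    (hv : ∀ i j, i ≠ j → ‖v i‖ ≤ r ∨ ‖v j‖ ≤ r) : Gdw Q r (wn8 r c v) := by
  have hr0 : 0 < r := by omega
  have hr0' : (0 : ℝ) < r := by exact_mod_cast hr0
  have hr1 : (1 : ℝ) ≤ r := by exact_mod_cast hr0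
  refine ⟨h1, h2, ?_⟩
  by_cases hall : ∀ i, (wn8 r c v i).2.1 = false
  · exact Or.inl hall
  · push Not at hall
    obtain ⟨i, hi⟩ := hall
    have hi : (wn8 r c v i).2.1 = true := by
      simpa using hi
    refine Or.inr ⟨i, hi, ?_⟩
    intro j hj
    have h3 : (r : ℝ) ^ 2 < ‖v i‖ := rc_flag' hr0 hi
    have h4 : ‖v j‖ ≤ r := by
      rcases hv j i hj with h | h
      · exact h
      · nlinarith
    have h5 : ‖v j‖ ≤ (r : ℝ) ^ 2 := by nlinarith
    obtain ⟨h6, h7⟩ := rc_small hr0 h5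
    refine ⟨h6, ?_⟩
    show ‖dcv r (rc r (v j))‖ ≤ 2 * r
    have h8 := norm_sub_norm_le (dcv r (rc r (v j))) (v j)
    rw [norm_sub_rev] at h8
    have h9 : (1 : ℝ) / r ≤ r := by
      rw [div_le_iff₀ hr0']
      nlinarith
    linarith

end

end Pool.Agent.Helper9.ND
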