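import Pool.Agent.Helper9.VB.Vis
import Pool.Agent.Helper9.ND.Low
import Pool.Agent.Helper9.ND.Rec

/-!
# The tube of a node (theorem FW, row T2)

If, for a frame `F`, the difference of slopes of two small quadruples is outside of the body with (conditional)
probability at most `δ`, then the values `Av` lie in a tube `a T + o + 270000 {‖F x‖ ≤ 1}` except for a mass
`≤ 53248 δ`.
-/

set_option autoImplicit false

namespace Pool.Agent.Helper9.ND

open Finset Matrix Pool.Agent.Helper46.WF Pool.Agent.Helper58.VW Pool.Agent.Helper9.VB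

noncomputable section

variable {Ω : Type} [Fintype Ω] {w : Ω → ℝ} {T : Ω → ℝ} {c : Ω → ℤ} {x0 h : ℝ} {n Q : ℕ} {N : ℕ}

/-- the seminorm of a frame -/
def fs (F : Matrix (Fin N) (Fin N) ℝ) : Seminorm ℝ (Fin N → ℝ) := (normSeminorm ℝ (Fin N → ℝ)).comp F.mulVecLin

omit [Fintype Ω] in
theorem fs_apply (F : Matrix (Fin N) (Fin N) ℝ) (v : Fin N → ℝ) : fs F v = ‖F *ᵥ v‖ := rfl

/-- the deviation from the tube in the coordinates of the body -/
def dev (F : Matrix (Fin N) (Fin N) ℝ) (a o : Fin N → ℝ) (t : ℝ) (v : Fin N → ℝ) : Fin N → ℝ := F *ᵥ (v - t • a - o)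

/-- `h` times the slope of a quadruple -/
def Sl (h : ℝ) (T : Ω → ℝ) (Av : Ω → Fin N → ℝ) (x : Fin 4 → Ω) : Fin N → ℝ := Yq h (fun i => T (x i)) (fun i => Av (x i))

theorem mulVec_al4 (F : Matrix (Fin N) (Fin N) ℝ) (f : Fin 4 → Fin N → ℝ) :
    F *ᵥ al4 f = al4 (fun i => F *ᵥ f i) := by
  unfold al4
  rw [Matrix.mulVec_sub, Matrix.mulVec_add, Matrix.mulVec_sub]

omit [Fintype Ω] in
theorem Sl_dev (F : Matrix (Fin N) (Fin N) ℝ) (a o : Fin N → ℝ) (T : Ω → ℝ) (Av : Ω → Fin N → ℝ) (x : Fin 4 → Ω)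
    (hx : al4 (fun i => T (x i)) ≠ 0) :
    F *ᵥ Sl h T Av x = Yq h (fun i => T (x i)) (fun i => dev F a o (T (x i)) (Av (x i))) + h • (F *ᵥ a) := by
  have e1 : al4 (fun i => dev F a o (T (x i)) (Av (x i))) =
      F *ᵥ al4 (fun i => Av (x i)) - al4 (fun i => T (x i)) • (F *ᵥ a) := by
    unfold dev al4
    simp only [Matrix.mulVec_sub, Matrix.mulVec_add, Matrix.mulVec_smul]
    funext j
    simp only [Pi.sub_apply, Pi.add_apply, Pi.smul_apply, smul_eq_mul]
    ring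
  unfold Sl Yq
  rw [e1, Matrix.mulVec_smul, smul_sub, smul_smul]
  rw [div_mul_cancel₀ _ hx]
  abel

omit [Fintype Ω] in
/-- small quadruples have `η ≠ 0` -/
theorem sm_coef (hh : 0 < h) (hQ : 8 ≤ Q) (x : Fin 4 → Ω)
    (hc : ∀ i, x0 + c (x i) * (h / Q) ≤ T (x i) ∧ T (x i) < x0 + (c (x i) + 1) * (h / Q)) (hS : Sm c Q x) :
    |h / al4 (fun i => T (x i))| ≤ 4 ∧ 1 / 13 ≤ |h / al4 (fun i => T (x i))| ∧ al4 (fun i => T (x i)) ≠ 0 := by
  obtain ⟨b1, b2, -, -, -, -⟩ := coef hh hQ (fun i => T (x i)) (fun i => c (x i)) hc hS.1 hS.2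
  refine ⟨b1, b2, ?_⟩
  intro h0
  have : |h / al4 (fun i => T (x i))| = 0 := by rw [h0, div_zero, abs_zero]
  have b2' : 1 / 13 ≤ |h / al4 (fun i => T (x i))| := b2
  rw [this] at b2'
  norm_num at b2'

omit [Fintype Ω] in
/-- `h ≤ |η| ≤ 5 h` implies small -/
theorem sm_of (hh : 0 < h) (hQ : 8 ≤ Q) (x : Fin 4 → Ω)
    (hc : ∀ i, x0 + c (x i) * (h / Q) ≤ T (x i) ∧ T (x i) < x0 + (c (x i) + 1) * (h / Q))
    (h1 : h ≤ |al4 (fun i => T (x i))|) (h2 : |al4 (fun i => T (x i))| ≤ 5 * h) : Sm c Q x := by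
  have hQ0 : (0 : ℝ) < Q := by
    have : 0 < Q := by omega
    exact_mod_cast this
  have hQ8 : (8 : ℝ) ≤ Q := by exact_mod_cast hQ
  have hδ : 0 < h / Q := by positivity
  have hd : |al4 (fun i => T (x i)) - ((c (x 0) - c (x 1) + c (x 2) - c (x 3) : ℤ) : ℝ) * (h / Q)| ≤ 2 * (h / Q) := by
    have a0 := hc 0
    have a1 := hc 1
    have a2 := hc 2
    have a3 := hc 3
    unfold al4
    push_cast
    rw [abs_le]
    constructor <;> nlinarith [a0.1, a0.2, a1.1, a1.2, a2.1, a2.2, a3.1, a3.2]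
  set C : ℤ := c (x 0) - c (x 1) + c (x 2) - c (x 3) with hC
  have e1 : |((C : ℤ) : ℝ) * (h / Q)| = |(C : ℝ)| * (h / Q) := by rw [abs_mul, abs_of_pos hδ]
  have hQh : (Q : ℝ) * (h / Q) = h := by field_simp
  have h3 : h - 2 * (h / Q) ≤ |(C : ℝ)| * (h / Q) := by
    have := abs_sub_abs_le_abs_sub (al4 (fun i => T (x i))) ((C : ℝ) * (h / Q))
    rw [e1] at this
    linarith
  have h4 : |(C : ℝ)| * (h / Q) ≤ 5 * h + 2 * (h / Q) := by
    have := abs_sub_abs_le_abs_sub ((C : ℝ) * (h / Q)) (al4 (fun i => T (x i)))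
    rw [e1, abs_sub_comm] at this
    linarith
  have h5 : (Q : ℝ) - 2 ≤ |(C : ℝ)| := by
    by_contra hcon
    push Not at hcon
    have := mul_lt_mul_of_pos_right hcon hδ
    nlinarith
  have h6 : |(C : ℝ)| ≤ 5 * Q + 2 := by
    by_contra hcon
    push Not at hcon
    have := mul_lt_mul_of_pos_right hcon hδ
    nlinarith
  constructor
  · have : (Q : ℝ) ≤ 2 * |(C : ℝ)| := by linarith
    exact_mod_cast this
  · have : |(C : ℝ)| ≤ 12 * Q := by linarith
    exact_mod_cast this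

/-- regrouping of four points -/
def e4 (x : (Ω × Ω) × (Ω × Ω)) : Fin 4 → Ω := ![x.1.1, x.1.2, x.2.2, x.2.1]

theorem Pw_e4 (w : Ω → ℝ) (P : (Fin 4 → Ω) → Prop) :
    Pw (w4 w) (fun x => P (e4 x)) = Pw (wK w 4) P := by
  classical
  unfold Pw
  let e : ((Ω × Ω) × (Ω × Ω)) ≃ (Fin 4 → Ω) :=
    { toFun := e4
      invFun := fun y => ((y 0, y 1), (y 3, y 2))
      left_inv := fun x => rfl
      right_inv := fun y => by
        funext i
        fin_cases i <;> rfl }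
  refine Fintype.sum_equiv e _ _ fun x => ?_
  have h1 : w4 w x = wK w 4 (e x) := by
    show w x.1.1 * w x.1.2 * (w x.2.1 * w x.2.2) = ∏ k, w (e4 x k)
    rw [Fin.prod_univ_four]
    simp [e4]
    ring
  rw [h1]
  rfl

omit [Fintype Ω] in
theorem al4_e4 {E : Type*} [AddCommGroup E] (f : Ω → E) (x : (Ω × Ω) × (Ω × Ω)) :
    al4 (fun i => f (e4 x i)) = f x.1.1 - f x.1.2 - (f x.2.1 - f x.2.2) := by
  show f x.1.1 - f x.1.2 + f x.2.2 - f x.2.1 = _
  abel

/-- resampling of the first point -/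
theorem Pw_first (w : Ω → ℝ) (P : (Fin 4 → Ω) → Prop) :
    Pw (wK w 4) P = ∑ ω, w ω * Pw (wK w 3) (fun y => P (cn ω y)) := by
  classical
  have e1 : Pw (wK w 4) P = ∑ y : Fin 4 → Ω, wK w 4 y * (if P y then 1 else 0) := by
    unfold Pw
    refine Finset.sum_congr rfl fun y _ => ?_
    split_ifs <;> simp
  rw [e1, sum_wK_resample (K := 3) w (fun y => if P y then 1 else 0) 0]
  simp only [Finset.mul_sum]
  rw [Finset.sum_comm]
  refine Finset.sum_congr rfl fun ω _ => ?_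
  unfold Pw
  rw [Finset.mul_sum]
  refine Finset.sum_congr rfl fun x _ => ?_
  by_cases hP : P (cn ω x)
  · rw [if_pos hP, if_pos (show P (Fin.insertNth (α := fun _ => Ω) (0 : Fin 4) ω x) from hP)]
    ring
  · rw [if_neg hP, if_neg (show ¬ P (Fin.insertNth (α := fun _ => Ω) (0 : Fin 4) ω x) from hP)]
    ring

/-- the cell conditions of a tuple in the support -/
theorem Nd.cells (_hN : Nd w T c x0 h n Q) {K : ℕ} (x : Fin K → Ω) (hx : wK w K x ≠ 0) (i : Fin K) :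
    w (x i) ≠ 0 := by
  intro h0
  apply hx
  unfold wK
  exact Finset.prod_eq_zero (mem_univ i) h0

/-- **step 1**: a tube from one slope -/
theorem Nd.tube1 (hN : Nd w T c x0 h n Q) {k : ℕ} (hk : 16 ≤ k) (hn : n = 4 * k) (hQ : 8 ≤ Q) (Av : Ω → Fin N → ℝ)
    (F : Matrix (Fin N) (Fin N) ℝ) (s : Fin N → ℝ) {δ : ℝ} (hδ0 : 0 ≤ δ)
    (hB : Pw (wK w 4) (fun x => Sm c Q x ∧ 1 < ‖F *ᵥ Sl h T Av x - F *ᵥ s‖) ≤ 52 / n * δ)
    (hδ : 256 * (n : ℝ) ^ 4 * (53248 * δ) < 1) :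
    ∃ a o : Fin N → ℝ, Pw w (fun ω => 1248 < ‖dev F a o (T ω) (Av ω)‖) ≤ 2 * (n : ℝ) ^ 2 * (53248 * δ) := by
  classical
  have hn0 : (0 : ℝ) < n := by exact_mod_cast hN.hn
  have hn1 : (1 : ℝ) ≤ n := by exact_mod_cast hN.hn
  have hh := hN.hh
  have hQ0 : (0 : ℝ) < Q := by exact_mod_cast hN.hQ
  obtain ⟨σ, hσs⟩ : ∃ σ : Fin N → ℝ, h • σ = s :=
    ⟨(1 / h) • s, by rw [smul_smul, mul_one_div_cancel hh.ne', one_smul]⟩
  -- the basic identity
  have key : ∀ x : Fin 4 → Ω, al4 (fun i => T (x i)) ≠ 0 →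
      F *ᵥ Sl h T Av x - F *ᵥ s =
        (h / al4 (fun i => T (x i))) • (F *ᵥ (al4 (fun i => Av (x i)) - al4 (fun i => T (x i)) • σ)) := by
    intro x hx
    rw [← hσs]
    unfold Sl Yq
    simp only [Matrix.mulVec_sub, Matrix.mulVec_smul, smul_sub, smul_smul]
    rw [div_mul_cancel₀ _ hx]
  have good : ∀ x : Fin 4 → Ω, wK w 4 x ≠ 0 → Sm c Q x → ¬ (1 < ‖F *ᵥ Sl h T Av x - F *ᵥ s‖) →
      ‖F *ᵥ (al4 (fun i => Av (x i)) - al4 (fun i => T (x i)) • σ)‖ ≤ 13 := by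
    intro x hx hS hg
    obtain ⟨b1, b2, b3⟩ := sm_coef hh hQ x (fun i => hN.cell _ (hN.cells x hx i)) hS
    push Not at hg
    rw [key x b3, norm_smul, Real.norm_eq_abs] at hg
    by_contra hcon
    push Not at hcon
    nlinarith [norm_nonneg (F *ᵥ (al4 (fun i => Av (x i)) - al4 (fun i => T (x i)) • σ))]
  have h52 : 52 / (n : ℝ) * δ ≤ 53248 * δ := by
    refine mul_le_mul_of_nonneg_right ?_ hδ0
    rw [div_le_iff₀ hn0]
    nlinarith
  -- the four-term bound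
  have hB4 : Pw (w4 w) (Bad4 (fs F) T Av σ h 26) ≤ 53248 * δ := by
    refine le_trans ?_ (hB.trans h52)
    rw [← Pw_e4]
    refine Pw_mono _ (w4_nonneg hN.hw) ?_
    rintro x hx ⟨b1, b2, b3⟩
    have hx' : wK w 4 (e4 x) ≠ 0 := by
      have : wK w 4 (e4 x) = w4 w x := by
        show ∏ k, w (e4 x k) = w x.1.1 * w x.1.2 * (w x.2.1 * w x.2.2)
        rw [Fin.prod_univ_four]
        simp [e4]
        ring
      rw [this]
      exact hx
    rw [← al4_e4 T x] at b1 b2 b3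
    rw [← al4_e4 Av x] at b3
    have hS := sm_of hh hQ (e4 x) (fun i => hN.cell _ (hN.cells _ hx' i)) b1 b2
    refine ⟨hS, ?_⟩
    by_contra hcon
    have := good _ hx' hS hcon
    rw [fs_apply] at b3
    linarith
  -- the two-term bound
  have hB2 : Pw (w2 w) (Bad2 (fs F) T Av σ h 26) ≤ 53248 * δ := by
    set Bq : (Fin 4 → Ω) → Prop := fun x => Sm c Q x ∧ 1 < ‖F *ᵥ Sl h T Av x - F *ᵥ s‖ with hBq
    have hpair : ∀ x : Ω × Ω, w2 w x ≠ 0 → Bad2 (fs F) T Av σ h 26 x → 1 / (512 * (n : ℝ)) ≤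
        Pw (wK w 3) (fun y => Bq (cn x.1 y)) + Pw (wK w 3) (fun y => Bq (cn x.2 y)) := by
      rintro x hx ⟨b1, b2, b3⟩
      have hx1 : w x.1 ≠ 0 := left_ne_zero_of_mul hx
      have hx2 : w x.2 ≠ 0 := right_ne_zero_of_mul hx
      have hd : |c x.1 - c x.2| ≤ 6 * Q := by
        have a1 := hN.cell _ hx1
        have a2 := hN.cell _ hx2
        have hδ' : 0 < h / Q := by positivity
        have hQh : (Q : ℝ) * (h / Q) = h := by field_simp
        have hQ8 : (8 : ℝ) ≤ Q := by exact_mod_cast hQ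
        have hDh : 8 * (h / Q) ≤ h := by
          have := mul_le_mul_of_nonneg_right hQ8 hδ'.le
          linarith
        set D := h / (Q : ℝ) with hD
        have h1 : |(c x.1 : ℝ) - c x.2| ≤ 6 * Q := by
          rw [abs_le] at b2 ⊢
          constructor
          · by_contra hcon
            push Not at hcon
            have h7 := mul_lt_mul_of_pos_right hcon hδ'
            have e7 : -(6 * (Q : ℝ)) * D = -(6 * h) := by rw [← hQh]; ring
            rw [e7] at h7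
            nlinarith [b2.1, a1.2, a2.1]
          · by_contra hcon
            push Not at hcon
            have h7 := mul_lt_mul_of_pos_right hcon hδ'
            have e7 : (6 * (Q : ℝ)) * D = 6 * h := by rw [← hQh]; ring
            rw [e7] at h7
            nlinarith [b2.2, a1.1, a2.2]
        exact_mod_cast h1
      refine (hN.low_two (by omega) hn x.1 x.2 hx1 hd).trans ?_
      refine le_trans (Pw_mono _ (wK_nonneg hN.hw 3) ?_) (Pw_or _ (wK_nonneg hN.hw 3) _ _)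
      rintro y hy ⟨hs1, hs2⟩
      by_contra hcon
      push Not at hcon
      obtain ⟨hc1, hc2⟩ := hcon
      have hy1 : wK w 4 (cn x.1 y) ≠ 0 := by
        have : wK w 4 (cn x.1 y) = w x.1 * wK w 3 y := by
          show ∏ k, w (cn x.1 y k) = w x.1 * ∏ k, w (y k)
          rw [Fin.prod_univ_four, Fin.prod_univ_three, cn_zero, cn_one, cn_two, cn_three]
          ring
        rw [this]
        exact mul_ne_zero hx1 hy
      have hy2 : wK w 4 (cn x.2 y) ≠ 0 := by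
        have : wK w 4 (cn x.2 y) = w x.2 * wK w 3 y := by
          show ∏ k, w (cn x.2 y k) = w x.2 * ∏ k, w (y k)
          rw [Fin.prod_univ_four, Fin.prod_univ_three, cn_zero, cn_one, cn_two, cn_three]
          ring
        rw [this]
        exact mul_ne_zero hx2 hy
      have g1 := good _ hy1 hs1 (fun hb => hc1 ⟨hs1, hb⟩)
      have g2 := good _ hy2 hs2 (fun hb => hc2 ⟨hs2, hb⟩)
      have e1 : F *ᵥ (Av x.1 - Av x.2 - (T x.1 - T x.2) • σ) =
          F *ᵥ (al4 (fun i => Av (cn x.1 y i)) - al4 (fun i => T (cn x.1 y i)) • σ) -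
          F *ᵥ (al4 (fun i => Av (cn x.2 y i)) - al4 (fun i => T (cn x.2 y i)) • σ) := by
        rw [← Matrix.mulVec_sub]
        congr 1
        unfold al4
        simp only [cn_zero, cn_one, cn_two, cn_three]
        funext j
        simp only [Pi.sub_apply, Pi.add_apply, Pi.smul_apply, smul_eq_mul]
        ring
      rw [fs_apply, e1] at b3
      have := norm_sub_le (F *ᵥ (al4 (fun i => Av (cn x.1 y i)) - al4 (fun i => T (cn x.1 y i)) • σ))
        (F *ᵥ (al4 (fun i => Av (cn x.2 y i)) - al4 (fun i => T (cn x.2 y i)) • σ))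
      linarith
    -- summation
    set f : Ω → ℝ := fun ω => Pw (wK w 3) (fun y => Bq (cn ω y)) with hf
    have hf0 : ∀ ω, 0 ≤ f ω := fun ω => Pw_nonneg _ (wK_nonneg hN.hw 3) _
    have hsum : ∑ ω, w ω * f ω ≤ 52 / n * δ := by
      rw [← Pw_first w Bq]
      exact hB
    have h1 : 1 / (512 * (n : ℝ)) * Pw (w2 w) (Bad2 (fs F) T Av σ h 26) ≤ ∑ x : Ω × Ω, w2 w x * (f x.1 + f x.2) := by
      unfold Pw
      rw [Finset.mul_sum]
      refine Finset.sum_le_sum fun x _ => ?_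
      by_cases hx : w2 w x = 0
      · simp [hx]
      · by_cases hb : Bad2 (fs F) T Av σ h 26 x
        · rw [if_pos hb, mul_comm]
          exact mul_le_mul_of_nonneg_left (hpair x hx hb) (w2_nonneg hN.hw x)
        · rw [if_neg hb, mul_zero]
          exact mul_nonneg (w2_nonneg hN.hw x) (add_nonneg (hf0 _) (hf0 _))
    have h2 : ∑ x : Ω × Ω, w2 w x * (f x.1 + f x.2) = 2 * ∑ ω, w ω * f ω := by
      rw [Fintype.sum_prod_type]
      have e1 : ∀ a b : Ω, w2 w (a, b) * (f a + f b) = w b * (w a * f a) + w a * (w b * f b) := by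
        intro a b
        show w a * w b * (f a + f b) = _
        ring
      simp only [e1, Finset.sum_add_distrib, ← Finset.sum_mul, ← Finset.mul_sum, hN.hm, one_mul]
      ring
    rw [h2] at h1
    have h3 : Pw (w2 w) (Bad2 (fs F) T Av σ h 26) ≤ 512 * n * (2 * (52 / n * δ)) := by
      have h4 : 1 / (512 * (n : ℝ)) * Pw (w2 w) (Bad2 (fs F) T Av σ h 26) ≤ 2 * (52 / n * δ) := by linarith
      rw [one_div, inv_mul_le_iff₀ (by positivity)] at h4
      exact h4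
    refine h3.trans (le_of_eq ?_)
    field_simp
    ring
  -- LEMMA A
  have hcell : ∀ ω, w ω ≠ 0 → ∀ i : ℕ, c ω / (Q : ℤ) = i → Sc T x0 h i ω := by
    intro ω hω i hi
    have a := hN.cell ω hω
    have hQz : (0 : ℤ) < Q := by exact_mod_cast hN.hQ
    have h1 := Int.mul_ediv_self_le (x := c ω) (k := (Q : ℤ)) hQz.ne'
    have h2 := Int.lt_mul_ediv_self_add (x := c ω) (k := (Q : ℤ)) hQz
    rw [hi] at h1 h2
    have h1' : (Q : ℝ) * i ≤ c ω := by exact_mod_cast h1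
    have h2' : (c ω : ℝ) + 1 ≤ Q * i + Q := by exact_mod_cast h2
    have hδ' : 0 < h / Q := by positivity
    have hQh : (Q : ℝ) * (h / Q) = h := by field_simp
    constructor
    · refine le_trans ?_ a.1
      have := mul_le_mul_of_nonneg_right h1' hδ'.le
      nlinarith
    · refine lt_of_lt_of_le a.2 ?_
      have := mul_le_mul_of_nonneg_right h2' hδ'.le
      nlinarith
  obtain ⟨a, o, hao⟩ := lemA (fs F) w hN.hw T Av σ x0 h 26 (53248 * δ) n (by omega) hh (by norm_num) hδ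
    (by
      intro ω hω
      obtain ⟨hr0, hr1⟩ := hN.rg ω hω
      have hQz : (0 : ℤ) < Q := by exact_mod_cast hN.hQ
      refine ⟨(c ω / (Q : ℤ)).toNat, ?_, ?_⟩
      · have h1 : c ω / (Q : ℤ) < n := Int.ediv_lt_of_lt_mul hQz hr1
        have h2 : 0 ≤ c ω / (Q : ℤ) := Int.ediv_nonneg hr0 hQz.le
        omega
      · apply hcell ω hω
        have h2 : 0 ≤ c ω / (Q : ℤ) := Int.ediv_nonneg hr0 hQz.le
        omega)
    (by
      intro i hi
      refine (hN.lo i (by positivity) (by exact_mod_cast hi)).trans ?_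
      exact Pw_mono w hN.hw fun ω hω hc => hcell ω hω i hc)
    hB2 hB4
  refine ⟨a, o, le_trans (le_of_eq ?_) hao⟩
  congr 1
  funext ω
  rw [fs_apply]
  norm_num [dev]

/-- **step 2**: outliers of the tube -/
theorem Nd.tube2 (hN : Nd w T c x0 h n Q) {k : ℕ} (hk : 16 ≤ k) (hn : n = 4 * k) (hQ : 8 ≤ Q) (Av : Ω → Fin N → ℝ)
    (F : Matrix (Fin N) (Fin N) ℝ) (s : Fin N → ℝ) {δ : ℝ} (hδ0 : 0 ≤ δ)
    (hB : Pw (wK w 4) (fun x => Sm c Q x ∧ 1 < ‖F *ᵥ Sl h T Av x - F *ᵥ s‖) ≤ 52 / n * δ)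
    (hδ : 256 * (n : ℝ) ^ 4 * (53248 * δ) < 1) :
    ∃ a o : Fin N → ℝ, Pw w (fun ω => 270000 < ‖dev F a o (T ω) (Av ω)‖) ≤ 53248 * δ ∧
      ‖h • (F *ᵥ a) - F *ᵥ s‖ ≤ 19969 := by
  classical
  have hn0 : (0 : ℝ) < n := by exact_mod_cast hN.hn
  have hn64 : (64 : ℝ) ≤ n := by
    have : 64 ≤ n := by omega
    exact_mod_cast this
  have hh := hN.hh
  obtain ⟨a, o, hao⟩ := hN.tube1 hk hn hQ Av F s hδ0 hB hδ
  refine ⟨a, o, ?_⟩
  rw [and_comm]
  set B : Ω → Prop := fun ω => 1248 < ‖dev F a o (T ω) (Av ω)‖ with hBdef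
  have hBs : Pw w B ≤ 1 / 159744 := by
    refine hao.trans ?_
    rw [le_div_iff₀ (by norm_num)]
    have h1 : (159744 : ℝ) ≤ 128 * (n : ℝ) ^ 2 := by nlinarith
    have h2 : 0 ≤ 2 * (n : ℝ) ^ 2 * (53248 * δ) := by positivity
    calc 2 * (n : ℝ) ^ 2 * (53248 * δ) * 159744 ≤ 2 * (n : ℝ) ^ 2 * (53248 * δ) * (128 * (n : ℝ) ^ 2) :=
          mul_le_mul_of_nonneg_left h1 h2
      _ = 256 * (n : ℝ) ^ 4 * (53248 * δ) := by ring
      _ ≤ 1 := hδ.le
  -- one good quadruple in the tube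
  have hδ1 : δ < 1 / (52 * 2048) := by
    have h1 : (1 : ℝ) ≤ (n : ℝ) ^ 4 := one_le_pow₀ (by linarith)
    have h2 : 53248 * δ * 256 ≤ 256 * (n : ℝ) ^ 4 * (53248 * δ) := by nlinarith
    rw [lt_div_iff₀ (by norm_num)]
    nlinarith
  obtain ⟨x', hx', ⟨hS', hT'⟩, hg'⟩ := exists_good (wK w 4) (wK_nonneg hN.hw 4)
    (fun x => Sm c Q x ∧ ∀ i, ¬ B (x i)) (fun x => Sm c Q x ∧ 1 < ‖F *ᵥ Sl h T Av x - F *ᵥ s‖) (by
      refine lt_of_le_of_lt hB (lt_of_lt_of_le ?_ (hN.sm_low (by omega) hn B hBs))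
      rw [div_mul_eq_mul_div, div_lt_div_iff₀ hn0 (by positivity)]
      nlinarith)
  have hg1 : ‖F *ᵥ Sl h T Av x' - F *ᵥ s‖ ≤ 1 := by
    by_contra hcon
    push Not at hcon
    exact hg' ⟨hS', hcon⟩
  obtain ⟨b1', -, b3'⟩ := sm_coef hh hQ x' (fun i => hN.cell _ (hN.cells x' hx' i)) hS'
  have hsa : ‖h • (F *ᵥ a) - F *ᵥ s‖ ≤ 19969 := by
    rw [Sl_dev F a o T Av x' b3'] at hg1
    have h1 : ‖Yq h (fun i => T (x' i)) (fun i => dev F a o (T (x' i)) (Av (x' i)))‖ ≤ 4 * (4 * 1248) := by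
      unfold Yq
      rw [norm_smul, Real.norm_eq_abs]
      refine mul_le_mul b1' (al4_norm _ fun j => ?_) (norm_nonneg _) (by norm_num)
      have := hT' j
      rw [hBdef] at this
      push Not at this
      exact this
    have e1 : h • (F *ᵥ a) - F *ᵥ s = (Yq h (fun i => T (x' i)) (fun i => dev F a o (T (x' i)) (Av (x' i))) +
        h • (F *ᵥ a) - F *ᵥ s) - Yq h (fun i => T (x' i)) (fun i => dev F a o (T (x' i)) (Av (x' i))) := by abel
    rw [e1]
    have := norm_sub_le (Yq h (fun i => T (x' i)) (fun i => dev F a o (T (x' i)) (Av (x' i))) +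
        h • (F *ᵥ a) - F *ᵥ s) (Yq h (fun i => T (x' i)) (fun i => dev F a o (T (x' i)) (Av (x' i))))
    linarith
  refine ⟨hsa, ?_⟩
  -- an outlier makes the quadruple bad
  have hout : ∀ ω, w ω ≠ 0 → 270000 < ‖dev F a o (T ω) (Av ω)‖ → 1 / (1024 * (n : ℝ)) ≤
      Pw (wK w 3) (fun y => Sm c Q (cn ω y) ∧ 1 < ‖F *ᵥ Sl h T Av (cn ω y) - F *ᵥ s‖) := by
    intro ω hω hbig
    refine (hN.low_tube (by omega) hn ω hω B hBs).trans ?_
    refine Pw_mono _ (wK_nonneg hN.hw 3) ?_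
    rintro y hy ⟨hS, hT⟩
    refine ⟨hS, ?_⟩
    have hy1 : wK w 4 (cn ω y) ≠ 0 := by
      have : wK w 4 (cn ω y) = w ω * wK w 3 y := by
        show ∏ k, w (cn ω y k) = w ω * ∏ k, w (y k)
        rw [Fin.prod_univ_four, Fin.prod_univ_three, cn_zero, cn_one, cn_two, cn_three]
        ring
      rw [this]
      exact mul_ne_zero hω hy
    obtain ⟨b1, b2, b3⟩ := sm_coef hh hQ (cn ω y) (fun i => hN.cell _ (hN.cells _ hy1 i)) hS
    rw [Sl_dev F a o T Av (cn ω y) b3]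
    have h1 : ‖al4 (fun i => dev F a o (T (cn ω y i)) (Av (cn ω y i))) - sg 0 • dev F a o (T ω) (Av ω)‖ ≤ 3 * 1248 := by
      refine al4_one (fun i => dev F a o (T (cn ω y i)) (Av (cn ω y i))) 0 ?_
      intro j hj
      have h2 : ∀ i, ‖dev F a o (T (y i)) (Av (y i))‖ ≤ 1248 := by
        intro i
        have := hT i
        rw [hBdef] at this
        push Not at this
        exact this
      fin_cases j
      · exact absurd rfl hj
      · exact h2 0
      · exact h2 1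
      · exact h2 2
    have h3 : 270000 - 3744 < ‖al4 (fun i => dev F a o (T (cn ω y i)) (Av (cn ω y i)))‖ := by
      have h4 : ‖sg 0 • dev F a o (T ω) (Av ω)‖ = ‖dev F a o (T ω) (Av ω)‖ := by
        rw [norm_smul, Real.norm_eq_abs, sg_abs, one_mul]
      have h5 := norm_sub_norm_le (sg 0 • dev F a o (T ω) (Av ω))
        (al4 (fun i => dev F a o (T (cn ω y i)) (Av (cn ω y i))))
      rw [norm_sub_rev] at h5
      linarith
    have h6 : 20480 < ‖Yq h (fun i => T (cn ω y i)) (fun i => dev F a o (T (cn ω y i)) (Av (cn ω y i)))‖ := by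
      unfold Yq
      rw [norm_smul, Real.norm_eq_abs]
      have h7 : 1 / 13 * (270000 - 3744) < |h / al4 (fun i => T (cn ω y i))| *
          ‖al4 (fun i => dev F a o (T (cn ω y i)) (Av (cn ω y i)))‖ := by
        refine lt_of_lt_of_le (mul_lt_mul_of_pos_left h3 (by norm_num)) ?_
        exact mul_le_mul_of_nonneg_right b2 (norm_nonneg _)
      refine lt_trans ?_ h7
      norm_num
    have e1 : Yq h (fun i => T (cn ω y i)) (fun i => dev F a o (T (cn ω y i)) (Av (cn ω y i))) =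
        (Yq h (fun i => T (cn ω y i)) (fun i => dev F a o (T (cn ω y i)) (Av (cn ω y i))) + h • (F *ᵥ a) - F *ᵥ s) -
        (h • (F *ᵥ a) - F *ᵥ s) := by abel
    rw [e1] at h6
    have h8 := norm_sub_le (Yq h (fun i => T (cn ω y i)) (fun i => dev F a o (T (cn ω y i)) (Av (cn ω y i))) +
      h • (F *ᵥ a) - F *ᵥ s) (h • (F *ᵥ a) - F *ᵥ s)
    linarith
  -- summation
  rw [Pw_first] at hB
  have h1 : 1 / (1024 * (n : ℝ)) * Pw w (fun ω => 270000 < ‖dev F a o (T ω) (Av ω)‖) ≤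
      ∑ ω, w ω * Pw (wK w 3) (fun y => Sm c Q (cn ω y) ∧ 1 < ‖F *ᵥ Sl h T Av (cn ω y) - F *ᵥ s‖) := by
    unfold Pw
    rw [Finset.mul_sum]
    refine Finset.sum_le_sum fun ω _ => ?_
    by_cases hω : w ω = 0
    · simp [hω]
    · by_cases hb : 270000 < ‖dev F a o (T ω) (Av ω)‖
      · rw [if_pos hb, mul_comm]
        exact mul_le_mul_of_nonneg_left (hout ω hω hb) (hN.hw ω)
      · rw [if_neg hb, mul_zero]
        exact mul_nonneg (hN.hw ω) (Pw_nonneg _ (wK_nonneg hN.hw 3) _)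
  have h2 := h1.trans hB
  rw [one_div, inv_mul_le_iff₀ (by positivity)] at h2
  refine h2.trans (le_of_eq ?_)
  field_simp
  ring

end

end Pool.Agent.Helper9.ND
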