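import Pool.Agent.Helper9.ND.Rcd

/-!
# Valid blocks (theorem FW)

A block of eight windows is valid (`Gdw`) with probability at least `1 / (2 ^ 22 n ^ 2)`; for valid blocks the window
function approximates the truncated difference of slopes.
-/

set_option autoImplicit false

namespace Pool.Agent.Helper9.ND

open Finset Matrix Pool.Agent.Helper69.RK Pool.Agent.Helper61.GL Pool.Agent.Helper46.WF Pool.Agent.Helper58.VW
  Pool.Agent.Helper9.VB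

noncomputable section

section

variable {Ω : Type} [Fintype Ω] {w : Ω → ℝ} {T : Ω → ℝ} {c : Ω → ℤ} {x0 h : ℝ} {n Q : ℕ} {N : ℕ}

/-- **a valid block has probability at least `1 / (2 ^ 22 n ^ 2)`** -/
theorem Nd.gdw_low (hN : Nd w T c x0 h n Q) {k : ℕ} (hk : 8 ≤ k) (hn : n = 4 * k) {r : ℕ} (hr : 270000 ≤ r)
    (Av : Ω → Fin N → ℝ) (F : Matrix (Fin N) (Fin N) ℝ) (a o : Fin N → ℝ)
    (ht : Pw w (fun ω => 270000 < ‖dev F a o (T ω) (Av ω)‖) ≤ 1 / 159744) :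
    1 / (2 ^ 22 * (n : ℝ) ^ 2) ≤ Pw (wK w 8) (fun y => Gdw Q r (fun i => wd r F a o T c Av (y i))) := by
  classical
  have hn0 : (0 : ℝ) < n := by exact_mod_cast hN.hn
  have hr1 : (270000 : ℝ) ≤ r := by exact_mod_cast hr
  set B : Ω → Prop := fun ω => (r : ℝ) < ‖dev F a o (T ω) (Av ω)‖ with hB
  have hBs : Pw w B ≤ 1 / 159744 := by
    refine le_trans (Pw_mono w hN.hw ?_) ht
    intro ω _ hω
    exact lt_of_le_of_lt hr1 hω
  have h1 := hN.sm_low hk hn B hBs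
  have e := Pw_eight w (fun x x' => (Sm c Q x ∧ ∀ i, ¬ B (x i)) ∧ (Sm c Q x' ∧ ∀ i, ¬ B (x' i)))
  have e2 : Pw (w2 (wK w 4)) (fun x => (Sm c Q x.1 ∧ ∀ i, ¬ B (x.1 i)) ∧ (Sm c Q x.2 ∧ ∀ i, ¬ B (x.2 i))) =
      Pw (wK w 4) (fun x => Sm c Q x ∧ ∀ i, ¬ B (x i)) * Pw (wK w 4) (fun x => Sm c Q x ∧ ∀ i, ¬ B (x i)) :=
    Pw_w2 (wK w 4) (fun x => Sm c Q x ∧ ∀ i, ¬ B (x i)) (fun x => Sm c Q x ∧ ∀ i, ¬ B (x i))
  rw [e2] at e
  have h2 : 1 / (2 ^ 22 * (n : ℝ) ^ 2) = 1 / (2048 * n) * (1 / (2048 * n)) := by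
    field_simp
    norm_num
  rw [h2]
  refine le_trans (mul_le_mul h1 h1 (by positivity) (le_trans (by positivity) h1)) ?_
  rw [← e]
  refine Pw_mono _ (wK_nonneg hN.hw 8) ?_
  rintro y _ ⟨⟨hs1, hb1⟩, hs2, hb2⟩
  refine gdw_of (by omega) (fun i => c (y i)) (fun i => dev F a o (T (y i)) (Av (y i))) hs1 hs2 ?_
  intro i j _
  left
  have : ¬ B (y i) := by
    rcases eight_cases i with ⟨i, rfl⟩ | ⟨i, rfl⟩
    · exact hb1 i
    · exact hb2 i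
  rw [hB] at this
  push Not at this
  exact this

end

section det

variable {Pt : Type} {N : ℕ}

/-- a valid block of finite windows -/
def GdF (R0 : ℕ) {ρ N r : ℕ} (v : Fin 8 → Vw ρ N r) : Prop := Gdw (2 ^ R0) r (fun i => zwin (v i))

theorem gdF_of_ne {R0 ρ N r : ℕ} {v : Fin 8 → Vw ρ N r} (h : ThF R0 v ≠ 0) : GdF R0 v := by
  by_contra hcon
  apply h
  unfold ThF Tht
  exact if_neg hcon

/-- **valid blocks**: the window function approximates the truncated difference of slopes -/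
theorem thG_spec {m D R0 r : ℕ} (hN0 : 0 < N) (hr : 300000 * N ^ 2 ≤ r) (hQ : r ^ 3 ≤ 2 ^ R0) (T : Pt → ℝ)
    (A : Pt → Fin N → ℝ) (X : Matrix (Fin N) (Fin N) ℝ × (Fin N → ℝ) × (Fin N → ℝ)) (q : Fin 8 → Pt) (z0 : ℤ)
    (hq : ∀ i, cl m (T (q i)) = z0) (hG : GdF R0 (fun i => pw m (D + R0) r T A X (q i))) :
    ((|1 / 2 ^ (m + D) / al4 (fun i => T (lft q i))| ≤ 4 ∧ 1 / 13 ≤ |1 / 2 ^ (m + D) / al4 (fun i => T (lft q i))| ∧
      al4 (fun i => T (lft q i)) ≠ 0) ∧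
     (|1 / 2 ^ (m + D) / al4 (fun i => T (rgt q i))| ≤ 4 ∧ 1 / 13 ≤ |1 / 2 ^ (m + D) / al4 (fun i => T (rgt q i))| ∧
      al4 (fun i => T (rgt q i)) ≠ 0)) ∧
    ‖tr (X.1 *ᵥ Dl (1 / 2 ^ (m + D)) T A q) - ThF R0 (fun i => pw m (D + R0) r T A X (q i))‖ ≤
      1 / (8 * N) / (4 * N + 2) := by
  have hNr : (1 : ℝ) ≤ N := by exact_mod_cast hN0
  have hN2 : 1 ≤ N ^ 2 := Nat.one_le_pow _ _ hN0
  have hr1 : 2184 ≤ r := by nlinarith
  have hr0 : (0 : ℝ) < r := by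
    have : 0 < r := by omega
    exact_mod_cast this
  have hrN : 300000 * (N : ℝ) ^ 2 ≤ r := by exact_mod_cast hr
  have hε : 6000 / (r : ℝ) ≤ 1 / (8 * N) / (4 * N + 2) := by
    rw [div_div, div_le_div_iff₀ hr0 (by positivity)]
    nlinarith
  have e : (fun i => zwin (pw m (D + R0) r T A X (q i))) =
      fun i => wd r X.1 X.2.1 X.2.2 T (fun q => rel m (D + R0) (T q)) A (q i) := by
    funext i
    unfold pw wd
    rw [zwin_vwin]
  unfold GdF at hG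
  unfold ThF
  rw [e] at hG ⊢
  obtain ⟨h1, h2⟩ := dl_spec (x0 := (z0 : ℝ) / 2 ^ m) (h := 1 / 2 ^ (m + D)) (Q := 2 ^ R0) (by positivity) hr1 hQ T
    (fun q => rel m (D + R0) (T q)) A X.1 X.2.1 X.2.2 q (fun i => by
      rw [← hq i]
      exact rel_cell m D R0 (T (q i))) hG
  exact ⟨h1, h2.trans hε⟩

end det

section tree

variable {Ω Pt γ : Type} [Fintype Ω] {N : ℕ}

/-- valid blocks of a node, for arbitrary data `X` with a good tube -/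
theorem gdF_low (μ : Ω → ℝ) (hμ : ∀ ω, 0 ≤ μ ω) (p : Ω → Pt) (T : Pt → ℝ) (A : Pt → Fin N → ℝ) {m D R0 r : ℕ}
    (hD : 5 ≤ D) (hr : 270000 ≤ r) (lab : Pt → γ)
    (hY : ∀ ω ω', μ ω ≠ 0 → μ ω' ≠ 0 → lab (p ω) = lab (p ω') → cl m (T (p ω)) = cl m (T (p ω'))) (ω : Ω)
    (h0 : μ ω ≠ 0) (hU : UnifL μ (fun ω => lab (p ω)) (fun ω => T (p ω)) m (D + R0) ω)
    (X : Matrix (Fin N) (Fin N) ℝ × (Fin N → ℝ) × (Fin N → ℝ))
    (ht : Pw (cw μ (fun ω => lab (p ω)) ω) (fun ω => 270000 < ‖dev X.1 X.2.1 X.2.2 (T (p ω)) (A (p ω))‖) ≤ 1 / 159744) :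
    1 / (2 ^ 22 * ((2 : ℝ) ^ D) ^ 2) ≤
      Pw (wK (fun v => Pw (cw μ (fun ω => lab (p ω)) ω) (fun ω' => pw m (D + R0) r T A X (p ω') = v)) 8) (GdF R0) := by
  have hN := nd_of_unif μ hμ (fun ω => lab (p ω)) (fun ω => T (p ω)) m D R0 hY ω h0 hU
  have hDD : (2 : ℕ) ^ D = 4 * 2 ^ (D - 2) := by
    have : D = 2 + (D - 2) := by omega
    conv_lhs => rw [this]
    rw [pow_add]
    norm_num
  have hk : 8 ≤ 2 ^ (D - 2) := by
    have h1 : 3 ≤ D - 2 := by omega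
    calc 8 = 2 ^ 3 := by norm_num
      _ ≤ 2 ^ (D - 2) := Nat.pow_le_pow_right (by norm_num) h1
  have h1 := hN.gdw_low hk hDD hr (fun ω => A (p ω)) X.1 X.2.1 X.2.2 ht
  push_cast at h1
  rw [Pw_push (cw μ (fun ω => lab (p ω)) ω) (fun ω' => pw m (D + R0) r T A X (p ω')) 8]
  refine h1.trans (le_of_eq ?_)
  congr 1
  funext y
  have e : (fun i => zwin (pw m (D + R0) r T A X (p (y i)))) =
      fun i => wd r X.1 X.2.1 X.2.2 (fun ω => T (p ω)) (fun ω' => rel m (D + R0) (T (p ω'))) (fun ω => A (p ω)) (y i) := by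
    funext i
    unfold pw wd
    rw [zwin_vwin]
  unfold GdF
  rw [e]

end tree

end

end Pool.Agent.Helper9.ND
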